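import Pool.Agent.Helper70.Dubins.Choice

set_option autoImplicit false

open Set Filter Topology MeasureTheory

namespace Pool.Agent.Helper70.Dubins

/-- the pauses of `K_h` are nonnegative for `h` close to `π/2` -/
theorem exists_h {q : ℂ} {θ₁ β : ℝ} (hβ : β ∈ Ioo (θ₁ - Real.pi / 2) (Real.pi / 2))
    (hf : 4 < (ff q θ₁ β).re ∨ ((ff q θ₁ β).re = 4 ∧ (ff q θ₁ β).im = 0)) :
    ∃ h₁ : ℝ, 0 < h₁ ∧ h₁ < Real.pi / 2 ∧ β ≤ h₁ ∧ θ₁ - β ≤ h₁ ∧
      ∀ h ∈ Icc h₁ (Real.pi / 2),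
        0 ≤ (ff q θ₁ β).re - 4 * Real.sin h - |(ff q θ₁ β).im| * Real.cos h / Real.sin h := by
  have hpi := Real.pi_pos
  have hm : max (max β (θ₁ - β)) (Real.pi / 4) < Real.pi / 2 :=
    max_lt (max_lt hβ.2 (by linarith [hβ.1])) (by linarith)
  have hm0 : 0 < max (max β (θ₁ - β)) (Real.pi / 4) := lt_max_of_lt_right (by positivity)
  have hm1 : β ≤ max (max β (θ₁ - β)) (Real.pi / 4) := (le_max_left _ _).trans (le_max_left _ _)
  have hm2 : θ₁ - β ≤ max (max β (θ₁ - β)) (Real.pi / 4) :=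
    (le_max_right _ _).trans (le_max_left _ _)
  rcases hf with hf | ⟨hf, hY⟩
  · have hc : ContinuousAt (fun h => (ff q θ₁ β).re - 4 * Real.sin h -
        |(ff q θ₁ β).im| * Real.cos h / Real.sin h) (Real.pi / 2) := by
      apply ContinuousAt.sub
      · fun_prop
      · apply ContinuousAt.div
        · fun_prop
        · fun_prop
        · rw [Real.sin_pi_div_two]
          exact one_ne_zero
    have hv : 0 < (fun h => (ff q θ₁ β).re - 4 * Real.sin h -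
        |(ff q θ₁ β).im| * Real.cos h / Real.sin h) (Real.pi / 2) := by
      simp only [Real.sin_pi_div_two, Real.cos_pi_div_two]
      linarith
    have hev := hc.eventually (lt_mem_nhds hv)
    obtain ⟨l, hl, hl'⟩ := exists_Ioc_subset_of_mem_nhds hev ⟨Real.pi / 2 - 1, by linarith⟩
    obtain ⟨h₂, hh1, hh2⟩ := exists_between (max_lt hm hl)
    refine ⟨h₂, hm0.trans ((le_max_left _ _).trans_lt hh1), hh2,
      hm1.trans ((le_max_left _ _).trans hh1.le), hm2.trans ((le_max_left _ _).trans hh1.le), ?_⟩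
    intro h hh
    exact (hl' ⟨(le_max_right _ _).trans_lt (hh1.trans_le hh.1), hh.2⟩ : _ < _).le
  · refine ⟨_, hm0, hm, hm1, hm2, ?_⟩
    intro h _
    rw [hf, hY, abs_zero, zero_mul, zero_div]
    have := Real.sin_le_one h
    linarith

/-- a condensed curve is connected to a critical curve if some `f β ≥ 4` -/
theorem conn_condensed {q : ℂ} {θ₁ L : ℝ} {α : C(ℝ, ℝ)} (hθ₁ : 0 ≤ θ₁) (hg : Good q θ₁ L α)
    (hamp : amplitude L α < Real.pi) {β₀ : ℝ}
    (hβ₀ : β₀ ∈ Icc (θ₁ - Real.pi / 2) (Real.pi / 2)) (hf₀ : 4 ≤ (ff q θ₁ β₀).re) :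
    ∃ (L' : ℝ) (α' : C(ℝ, ℝ)), Good q θ₁ L' α' ∧ amplitude L' α' = Real.pi ∧
      Conn q θ₁ (mk L α) (mk L' α') := by
  have hpi := Real.pi_pos
  obtain ⟨β₁, hβ₁, hf⟩ := choose_beta hg hamp hβ₀ hf₀
  have hf4 : 4 ≤ (ff q θ₁ β₁).re := by
    rcases hf with h | ⟨h, -⟩
    · exact h.le
    · exact h.ge
  obtain ⟨h₁, hh0, hh1, hb1, hb2, hσ⟩ := exists_h hβ₁ hf
  obtain ⟨LK, αK, LC, αC, hgK, hgC, hK, hC, hconn⟩ := conn_K hθ₁ hh0 hh1.le hb1 hb2 hσ
  refine ⟨LC, αC, hgC, hC, ?_⟩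
  obtain ⟨a, ha, b, hb, hr, hab, ha0, hb0, ha1, hb1'⟩ := condensed_range hg hamp
  set β := (α a + α b) / 2 with hβdef
  have hfr : ∀ s ∈ Icc 0 L, |α s - β| < Real.pi / 2 := by
    intro s hs
    have := hr s hs
    rw [abs_lt]
    constructor <;> linarith
  obtain ⟨hbb, hbb1⟩ := frame_zero hg hfr
  have hbb' := abs_lt.1 hbb
  have hE : Continuous fun p : ℝ => (q * E (-p)).im :=
    Complex.continuous_im.comp (continuous_const.mul (continuous_E.comp continuous_neg))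
  -- it suffices to move into the frame `β₁`
  suffices h : ∃ (L' : ℝ) (α' : C(ℝ, ℝ)), Good q θ₁ L' α' ∧ Conn q θ₁ (mk L α) (mk L' α') ∧
      ∀ s ∈ Icc 0 L', |α' s - β₁| < Real.pi / 2 by
    obtain ⟨L', α', hg', hc', hfr'⟩ := h
    refine (hc'.trans (conn_same_frame hg' hgK hfr' ?_)).trans hconn
    intro s hs
    exact (hK s hs).trans_lt hh1
  rcases le_or_gt β β₁ with hcase | hcase
  · -- move up
    have hstrict : 2 - Real.cos (β₁ - Real.pi / 2) - Real.cos (θ₁ - (β₁ - Real.pi / 2)) <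
        (q * E (-(β₁ - Real.pi / 2))).im := by
      rw [ff_im' q θ₁ (β₁ - Real.pi / 2)]
      have e : (ff q θ₁ (β₁ - Real.pi / 2)).im = (ff q θ₁ β₁).re := by
        rw [sub_eq_add_neg, ff_shift_im, Real.cos_neg, Real.sin_neg, Real.cos_pi_div_two,
          Real.sin_pi_div_two]
        ring
      rw [e]
      have e2 : Real.cos (θ₁ - (β₁ - Real.pi / 2)) = -Real.sin (θ₁ - β₁) := by
        rw [← Real.cos_add_pi_div_two]
        congr 1
        ring
      rw [e2]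
      have h3 : Real.sin (θ₁ - β₁) < 1 := by
        have h4 : |θ₁ - β₁| < Real.pi / 2 := by
          rw [abs_lt]
          constructor <;> linarith [hβ₁.1, hβ₁.2]
        exact (abs_lt.1 (abs_sin_lt h4)).2
      linarith
    have hev1 : ∀ᶠ p in 𝓝 (β₁ - Real.pi / 2),
        2 - Real.cos p - Real.cos (θ₁ - p) < (q * E (-p)).im :=
      ContinuousAt.eventually_lt (by fun_prop) hE.continuousAt hstrict
    have hev2 : ∀ᶠ p in 𝓝 (β₁ - Real.pi / 2), p < 0 := gt_mem_nhds (by linarith [hβ₁.2])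
    have hev3 : ∀ᶠ p in 𝓝 (β₁ - Real.pi / 2), p < β + Real.pi / 2 :=
      gt_mem_nhds (by linarith [hβ₁.2])
    have hev4 : ∀ᶠ p in 𝓝[>] (β₁ - Real.pi / 2), β₁ - Real.pi / 2 < p := self_mem_nhdsWithin
    obtain ⟨p, ⟨⟨hp1, hp2⟩, hp3⟩, hp4⟩ :=
      ((((hev1.and hev2).and hev3).filter_mono nhdsWithin_le_nhds).and hev4).exists
    obtain ⟨L', α', hg', hc', hr'⟩ := move_up hg hfr (p := p)
      (abs_lt.2 ⟨by linarith, by linarith⟩) hp2.le (by linarith) hp1.le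
    refine ⟨L', α', hg', hc', ?_⟩
    intro s hs
    have := hr' s hs
    rw [abs_lt]
    constructor <;> linarith [this.1, this.2]
  · -- move down
    have hstrict : 2 - Real.cos (β₁ + Real.pi / 2) - Real.cos (θ₁ - (β₁ + Real.pi / 2)) <
        -(q * E (-(β₁ + Real.pi / 2))).im := by
      rw [ff_im' q θ₁ (β₁ + Real.pi / 2)]
      have e : (ff q θ₁ (β₁ + Real.pi / 2)).im = -(ff q θ₁ β₁).re := by
        rw [ff_shift_im, Real.cos_pi_div_two, Real.sin_pi_div_two]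
        ring
      rw [e]
      have e2 : Real.cos (β₁ + Real.pi / 2) = -Real.sin β₁ := Real.cos_add_pi_div_two _
      rw [e2]
      have h3 : Real.sin β₁ < 1 := by
        have h4 : |β₁| < Real.pi / 2 := by
          rw [abs_lt]
          constructor <;> linarith [hβ₁.1, hβ₁.2]
        exact (abs_lt.1 (abs_sin_lt h4)).2
      linarith
    have hev1 : ∀ᶠ p in 𝓝 (β₁ + Real.pi / 2),
        2 - Real.cos p - Real.cos (θ₁ - p) < -(q * E (-p)).im :=
      ContinuousAt.eventually_lt (by fun_prop) hE.neg.continuousAt hstrict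
    have hev2 : ∀ᶠ p in 𝓝 (β₁ + Real.pi / 2), θ₁ < p := lt_mem_nhds (by linarith [hβ₁.1])
    have hev3 : ∀ᶠ p in 𝓝 (β₁ + Real.pi / 2), β - Real.pi / 2 < p :=
      lt_mem_nhds (by linarith [hβ₁.1])
    have hev4 : ∀ᶠ p in 𝓝[<] (β₁ + Real.pi / 2), p < β₁ + Real.pi / 2 := self_mem_nhdsWithin
    obtain ⟨p, ⟨⟨hp1, hp2⟩, hp3⟩, hp4⟩ :=
      ((((hev1.and hev2).and hev3).filter_mono nhdsWithin_le_nhds).and hev4).exists
    obtain ⟨L', α', hg', hc', hr'⟩ := move_down hg hfr (p := p)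
      (abs_lt.2 ⟨by linarith, by linarith⟩) (by linarith) hp2.le hp1.le
    refine ⟨L', α', hg', hc', ?_⟩
    intro s hs
    have := hr' s hs
    rw [abs_lt]
    constructor <;> linarith [this.1, this.2]

theorem Conn.refl_of_good {q : ℂ} {θ₁ L : ℝ} {α : C(ℝ, ℝ)} (hg : Good q θ₁ L α) :
    Conn q θ₁ (mk L α) (mk L α) :=
  ⟨{mk L α}, by
    rintro _ rfl
    exact mem_curveSpace_iff.2 ⟨_, _, hg, rfl⟩, rfl, rfl, isPreconnected_singleton⟩

/-- if every curve is connected to one of amplitude at least `π`, the space is connected -/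
theorem preconnected_of {q : ℂ} {θ₁ : ℝ} (hθ₁ : 0 ≤ θ₁)
    (h : ∀ (L : ℝ) (α : C(ℝ, ℝ)), Good q θ₁ L α → amplitude L α < Real.pi →
      ∃ (L' : ℝ) (α' : C(ℝ, ℝ)), Good q θ₁ L' α' ∧ Real.pi ≤ amplitude L' α' ∧
        Conn q θ₁ (mk L α) (mk L' α')) : IsPreconnected (curveSpace q θ₁) := by
  have h' : ∀ (L : ℝ) (α : C(ℝ, ℝ)), Good q θ₁ L α →
      ∃ (L' : ℝ) (α' : C(ℝ, ℝ)), Good q θ₁ L' α' ∧ Real.pi ≤ amplitude L' α' ∧
        Conn q θ₁ (mk L α) (mk L' α') := by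
    intro L α hg
    rcases lt_or_ge (amplitude L α) Real.pi with hlt | hge
    · exact h L α hg hlt
    · exact ⟨L, α, hg, hge, Conn.refl_of_good hg⟩
  apply isPreconnected_of_forall_pair
  intro p hp p' hp'
  obtain ⟨L, α, hg, rfl⟩ := mem_curveSpace_iff.1 hp
  obtain ⟨L', α', hg', rfl⟩ := mem_curveSpace_iff.1 hp'
  obtain ⟨M, μ, hM, hMa, hMc⟩ := h' L α hg
  obtain ⟨M', μ', hM', hMa', hMc'⟩ := h' L' α' hg'
  obtain ⟨S, hS, h1, h2, h3⟩ := (hMc.trans (conn_of_large hθ₁ hM hM' hMa hMa')).trans hMc'.symm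
  exact ⟨S, hS, h1, h2, h3⟩

theorem dichotomy {q : ℂ} {θ₁ : ℝ} (hθ₁ : 0 ≤ θ₁) (h : ¬ IsPreconnected (curveSpace q θ₁)) :
    (∃ (L : ℝ) (α : C(ℝ, ℝ)), Good q θ₁ L α ∧ amplitude L α < Real.pi) ∧
      ∀ β ∈ Icc (θ₁ - Real.pi / 2) (Real.pi / 2), (ff q θ₁ β).re < 4 := by
  constructor
  · by_contra hcon
    push Not at hcon
    apply h
    apply preconnected_of hθ₁
    intro L α hg hlt
    exact absurd hlt (not_lt.2 (hcon L α hg))
  · intro β₀ hβ₀
    by_contra hcon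
    push Not at hcon
    apply h
    apply preconnected_of hθ₁
    intro L α hg hlt
    obtain ⟨L', α', hg', ha', hc'⟩ := conn_condensed hθ₁ hg hlt hβ₀ hcon
    exact ⟨L', α', hg', ha'.ge, hc'⟩

/-- there is always a diffuse curve -/
theorem exists_diffuse (q : ℂ) {θ₁ : ℝ} (hθ₁ : 0 ≤ θ₁) :
    ∃ (L : ℝ) (α : C(ℝ, ℝ)), Good q θ₁ L α ∧ Real.pi < amplitude L α := by
  have hpi := Real.pi_pos
  have hb : Base θ₁ (cA 0 0 θ₁ 1) (GA (ContinuousMap.id ℝ) 0 0 θ₁ 1) :=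
    base_A (α := ContinuousMap.id ℝ) (by intro s t; simp) (by simp) (by simp) le_rfl le_rfl hθ₁
      zero_le_one
  set c := cA 0 0 θ₁ 1 with hc
  set G := GA (ContinuousMap.id ℝ) 0 0 θ₁ 1 with hG
  set r := q - sdisp c G with hr
  set σ : ℝ → ℝ := fun x => (‖r‖ + 1) + 2 / 3 * (r * E (-x)).re with hσ
  have hσpos : ∀ x, 0 < σ x := by
    intro x
    have h1 : |(r * E (-x)).re| ≤ ‖r * E (-x)‖ := Complex.abs_re_le_norm _
    rw [norm_mul, norm_E, mul_one] at h1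
    have h2 := neg_abs_le (r * E (-x)).re
    have h3 := norm_nonneg r
    simp only [hσ]
    linarith
  have e1 : G 1 0 = 0 := by simp [hG, GA]
  have e3 : G 3 0 = 0 + uu := by simp [hG, GA]
  have e5 : G 5 0 = 0 + 2 * uu := by simp [hG, GA]
  have hslot : Slot q θ₁ 11 (withP c (σ 0) (σ (0 + uu)) (σ (0 + 2 * uu))) G := by
    apply hb.slot (hσpos _).le (hσpos _).le (hσpos _).le
    · have h1 : 0 ≤ ∑ k ∈ Finset.range 11, c k :=
        Finset.sum_nonneg fun k hk => hb.nonneg (Finset.mem_range.1 hk)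
      have h2 := hσpos 0
      have h3 := hσpos (0 + uu)
      have h4 := hσpos (0 + 2 * uu)
      linarith
    · rw [e1, e3, e5]
      have h1 := resolve r 0
      have h2 := three_sum 0
      simp only [hσ]
      simp only [Complex.ofReal_add]
      have h3 : r = q - sdisp c G := rfl
      linear_combination h1 + (((‖r‖ : ℝ) : ℂ) + ((1 : ℝ) : ℂ)) * h2 - h3
  obtain ⟨p, hp⟩ := hslot.adm.exists_elt
  obtain ⟨L, α, hg, -, -, hatt⟩ := selt_facts (by norm_num) hslot hp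
  refine ⟨L, α, hg, ?_⟩
  obtain ⟨a, ha, b, hb', hab, hA⟩ := range_facts hg.pos.le α
  obtain ⟨s5, hs5, e5'⟩ := hatt 5 (by norm_num) 0 ⟨le_rfl, zero_le_one⟩
  rw [e5] at e5'
  have i1 := (hab 0 ⟨le_rfl, hg.pos.le⟩).1
  rw [hg.zero] at i1
  have i2 := (hab s5 hs5).2
  rw [hA]
  unfold uu at e5'
  linarith

/-- the length separation for `θ₁ ≥ 0` -/
theorem main_nonneg {q : ℂ} {θ₁ : ℝ} (hθ₁ : 0 ≤ θ₁) (h : ¬ IsPreconnected (curveSpace q θ₁)) :
    (condensedLengths q θ₁).Nonempty ∧ BddAbove (condensedLengths q θ₁) ∧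
      (diffuseLengths q θ₁).Nonempty ∧
      sSup (condensedLengths q θ₁) < sInf (diffuseLengths q θ₁) := by
  obtain ⟨⟨L, α, hg, hα⟩, hf⟩ := dichotomy hθ₁ h
  obtain ⟨L', α', hg', hα'⟩ := exists_diffuse q hθ₁
  have h1 : (condensedLengths q θ₁).Nonempty := ⟨L, _, α, isDubins_of_good hg, hα⟩
  have h2 : (diffuseLengths q θ₁).Nonempty := ⟨L', _, α', isDubins_of_good hg', hα'⟩
  obtain ⟨h3, h4⟩ := separation hθ₁ hf h1 h2
  exact ⟨h1, h3, h2, h4⟩

end Pool.Agent.Helper70.Dubins
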