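import Pool.Agent.Helper70.Dubins.Defs

set_option autoImplicit false

open Set Filter Topology MeasureTheory

namespace Pool.Agent.Helper70.Dubins

/-- A local one-sided slope bound integrates. -/
theorem le_integral_of_local {F m : ℝ → ℝ} {a b : ℝ} (hab : a ≤ b) (hF : ContinuousOn F (Icc a b))
    (hm : Continuous m)
    (h : ∀ x ∈ Ico a b, ∀ r, m x < r → ∃ᶠ z in 𝓝[>] x, F z - F x ≤ r * (z - x)) :
    F b - F a ≤ ∫ x in a..b, m x := by
  have key := image_le_of_liminf_slope_right_le_deriv_boundary (f := F) (a := a) (b := b) hF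
    (B := fun x => F a + ∫ y in a..x, m y) (B' := m) (by simp)
    (by
      apply Continuous.continuousOn
      apply continuous_const.add
      exact intervalIntegral.continuous_primitive (fun _ _ => hm.intervalIntegrable _ _) a)
    (by
      intro x _
      apply HasDerivAt.hasDerivWithinAt
      apply HasDerivAt.const_add
      exact intervalIntegral.integral_hasDerivAt_right (hm.intervalIntegrable _ _)
        hm.stronglyMeasurable.stronglyMeasurableAtFilter hm.continuousAt)
    (by
      intro x hx r hr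
      obtain ⟨r', hr1, hr2⟩ := exists_between hr
      have h1 := h x hx r' hr1
      have h2 : ∀ᶠ z in 𝓝[>] x, x < z := self_mem_nhdsWithin
      refine (h1.and_eventually h2).mono ?_
      rintro z ⟨hz, hxz⟩
      rw [slope_def_field]
      have : 0 < z - x := sub_pos.2 hxz
      rw [div_lt_iff₀ this]
      nlinarith)
  have := key (right_mem_Icc.2 hab)
  linarith

theorem norm_exp_sub_exp (a b : ℝ) :
    ‖Complex.exp (a * Complex.I) - Complex.exp (b * Complex.I)‖ = 2 * |Real.sin ((a - b) / 2)| := by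
  have h : Complex.exp (a * Complex.I) - Complex.exp (b * Complex.I) =
      Complex.exp (b * Complex.I) * (Complex.exp (Complex.I * ((a - b : ℝ) : ℂ)) - 1) := by
    rw [mul_sub, mul_one, ← Complex.exp_add]
    congr 2
    push_cast
    ring
  rw [h, norm_mul, Complex.norm_exp_ofReal_mul_I, one_mul,
    Complex.norm_exp_I_mul_ofReal_sub_one, norm_mul]
  simp

theorem norm_exp_sub_exp_le (a b : ℝ) :
    ‖Complex.exp (a * Complex.I) - Complex.exp (b * Complex.I)‖ ≤ |a - b| := by
  rw [norm_exp_sub_exp]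
  have h := Real.abs_sin_le_abs (x := (a - b) / 2)
  rw [abs_div, abs_two] at h
  linarith

theorem abs_le_of_two_sin {δ : ℝ} : |δ| * (1 - δ ^ 2 / 24) ≤ 2 * |Real.sin (δ / 2)| := by
  have key : ∀ x : ℝ, 0 ≤ x → x * (1 - x ^ 2 / 24) ≤ 2 * |Real.sin (x / 2)| := by
    intro x hx
    rcases hx.eq_or_lt with rfl | hx
    · simp
    · have h := Real.sin_gt_sub_cube (x := x / 2) (by linarith)
      have h2 := le_abs_self (Real.sin (x / 2))
      have h3 : x / 2 - (x / 2) ^ 3 / 6 = (x * (1 - x ^ 2 / 24)) / 2 := by ring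
      rw [h3] at h
      linarith
  rcases le_total 0 δ with h | h
  · have := key δ h
    rwa [abs_of_nonneg h]
  · have := key (-δ) (by linarith)
    rw [abs_of_nonpos h]
    have e : Real.sin (-δ / 2) = - Real.sin (δ / 2) := by
      rw [neg_div, Real.sin_neg]
    rw [e, abs_neg, neg_sq] at this
    exact this

theorem lip_of_tangent {L : ℝ} {θ : ℝ → ℝ} (hc : ContinuousOn θ (Icc 0 L))
    (hl : LipschitzOnWith 1 (fun s : ℝ => Complex.exp (θ s * Complex.I)) (Icc 0 L)) :
    ∀ s ∈ Icc (0 : ℝ) L, ∀ t ∈ Icc (0 : ℝ) L, |θ s - θ t| ≤ |s - t| := by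
  have hchord : ∀ s ∈ Icc (0 : ℝ) L, ∀ t ∈ Icc (0 : ℝ) L,
      |θ s - θ t| * (1 - (θ s - θ t) ^ 2 / 24) ≤ |s - t| := by
    intro s hs t ht
    have h1 := hl.dist_le_mul s hs t ht
    rw [dist_eq_norm, norm_exp_sub_exp, Real.dist_eq] at h1
    simp only [NNReal.coe_one, one_mul] at h1
    exact abs_le_of_two_sin.trans h1
  have key : ∀ s ∈ Icc (0 : ℝ) L, ∀ t ∈ Icc (0 : ℝ) L, s ≤ t → |θ t - θ s| ≤ t - s := by
    intro s hs t ht hst
    have hsub : Icc s t ⊆ Icc 0 L := Icc_subset_Icc hs.1 ht.2
    have hloc : ∀ x ∈ Ico s t, ∀ r : ℝ, 1 < r → ∀ᶠ z in 𝓝[>] x, |θ z - θ x| ≤ r * (z - x) := by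
      intro x hx r hr
      have hxI : x ∈ Icc (0 : ℝ) L := hsub ⟨hx.1, hx.2.le⟩
      have hxt : x < L := hx.2.trans_le ht.2
      have hcw : Tendsto θ (𝓝[>] x) (𝓝 (θ x)) := by
        have h1 : ContinuousWithinAt θ (Icc 0 L) x := hc x hxI
        have h2 : 𝓝[>] x ≤ 𝓝[Icc 0 L] x := by
          have h3 : Icc x L ∈ 𝓝[>] x := Icc_mem_nhdsGT hxt
          have h4 : Icc 0 L ∈ 𝓝[>] x := mem_of_superset h3 (Icc_subset_Icc_left hxI.1)
          exact le_inf nhdsWithin_le_nhds (le_principal_iff.2 h4)
        exact h1.mono_left h2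
      have hsq : Tendsto (fun z => 1 - (θ z - θ x) ^ 2 / 24) (𝓝[>] x) (𝓝 1) := by
        have h1 : Tendsto (fun z => θ z - θ x) (𝓝[>] x) (𝓝 (θ x - θ x)) :=
          hcw.sub tendsto_const_nhds
        have h2 := (h1.pow 2).div_const 24
        have h3 := (tendsto_const_nhds (x := (1 : ℝ))).sub h2
        simpa using h3
      have hev : ∀ᶠ z in 𝓝[>] x, r⁻¹ < 1 - (θ z - θ x) ^ 2 / 24 :=
        hsq.eventually (lt_mem_nhds (inv_lt_one_of_one_lt₀ hr))
      have hev2 : ∀ᶠ z in 𝓝[>] x, z ∈ Icc x L := Icc_mem_nhdsGT hxt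
      filter_upwards [hev, hev2] with z hz hz2
      have hzI : z ∈ Icc (0 : ℝ) L := ⟨hxI.1.trans hz2.1, hz2.2⟩
      have h1 := hchord z hzI x hxI
      rw [abs_of_nonneg (sub_nonneg.2 hz2.1)] at h1
      have h2 : |θ z - θ x| * r⁻¹ ≤ z - x :=
        (mul_le_mul_of_nonneg_left hz.le (abs_nonneg _)).trans h1
      have hr0 : 0 < r := by linarith
      calc |θ z - θ x| = r * (|θ z - θ x| * r⁻¹) := by field_simp
        _ ≤ r * (z - x) := by gcongr
    have hcst : ContinuousOn θ (Icc s t) := hc.mono hsub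
    rw [abs_le]
    constructor
    · have := le_integral_of_local (F := fun x => - θ x) (m := fun _ => 1) hst hcst.neg
        continuous_const (by
          intro x hx r hr
          apply Filter.Eventually.frequently
          filter_upwards [hloc x hx r hr] with z hz
          have := neg_abs_le (θ z - θ x)
          linarith)
      simp at this
      linarith
    · have := le_integral_of_local (F := fun x => θ x) (m := fun _ => 1) hst hcst
        continuous_const (by
          intro x hx r hr
          apply Filter.Eventually.frequently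
          filter_upwards [hloc x hx r hr] with z hz
          have := le_abs_self (θ z - θ x)
          linarith)
      simp at this
      linarith
  intro s hs t ht
  rcases le_total s t with h | h
  · have := key s hs t ht h
    rw [abs_sub_comm, abs_sub_comm s t, abs_of_nonneg (sub_nonneg.2 h)]
    exact this
  · have := key t ht s hs h
    rw [abs_of_nonneg (sub_nonneg.2 h)]
    exact this

end Pool.Agent.Helper70.Dubins
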