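import Pool.Agent.Helper70.Dubins.Move

set_option autoImplicit false

open Set Filter Topology MeasureTheory

namespace Pool.Agent.Helper70.Dubins

/-- data of a condensed curve: the extreme angles -/
theorem condensed_range {q : ℂ} {θ₁ L : ℝ} {α : C(ℝ, ℝ)} (hg : Good q θ₁ L α)
    (hamp : amplitude L α < Real.pi) :
    ∃ a ∈ Icc 0 L, ∃ b ∈ Icc 0 L, (∀ s ∈ Icc 0 L, α a ≤ α s ∧ α s ≤ α b) ∧
      α b - α a < Real.pi ∧ α a ≤ 0 ∧ 0 ≤ α b ∧ α a ≤ θ₁ ∧ θ₁ ≤ α b := by
  obtain ⟨a, ha, b, hb, hr, hA⟩ := range_facts hg.pos.le α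
  have h0 := hr 0 ⟨le_rfl, hg.pos.le⟩
  have h1 := hr L ⟨hg.pos.le, le_rfl⟩
  rw [hg.zero] at h0
  rw [hg.endp] at h1
  rw [hA] at hamp
  exact ⟨a, ha, b, hb, hr, hamp, h0.1, h0.2, h1.1, h1.2⟩

theorem ff_im' (q : ℂ) (θ₁ β : ℝ) :
    (q * E (-β)).im = (ff q θ₁ β).im + Real.cos (θ₁ - β) - Real.cos β := by
  rw [ff_im]
  ring

theorem ff_shift_im (q : ℂ) (θ₁ β x : ℝ) : (ff q θ₁ (β + x)).im =
    (ff q θ₁ β).im * Real.cos x - (ff q θ₁ β).re * Real.sin x := by
  rw [ff_shift, Complex.mul_im, E_re, E_im, Real.cos_neg, Real.sin_neg]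
  ring

theorem ff_shift_re (q : ℂ) (θ₁ β x : ℝ) : (ff q θ₁ (β + x)).re =
    (ff q θ₁ β).re * Real.cos x + (ff q θ₁ β).im * Real.sin x := by
  rw [ff_shift, Complex.mul_re, E_re, E_im, Real.cos_neg, Real.sin_neg]
  ring

/-- the right end of the interval of `β`s is excluded -/
theorem boundary_right {q : ℂ} {θ₁ L : ℝ} {α : C(ℝ, ℝ)} (hg : Good q θ₁ L α)
    (hamp : amplitude L α < Real.pi) (hf : (ff q θ₁ (Real.pi / 2)).re = 4)
    (hY : 0 ≤ (ff q θ₁ (Real.pi / 2)).im) : False := by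
  obtain ⟨a, ha, b, hb, hr, hab, ha0, hb0, ha1, hb1⟩ := condensed_range hg hamp
  have hpi := Real.pi_pos
  set B := α b with hB
  have hBpi : B < Real.pi := by linarith
  have h := tv_two (G := fun x => Real.cos (B - x)) (g := fun x => Real.sin (B - x)) hg
    (fun x => by
      have h1 : HasDerivAt (fun x => B - x) (-1) x := (hasDerivAt_id x).const_sub B
      have h2 := h1.cos
      have e : -Real.sin (B - x) * -1 = Real.sin (B - x) := by ring
      rwa [e] at h2) (by fun_prop)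
    (fun s hs => by
      have := hr s hs
      apply Real.sin_nonneg_of_nonneg_of_le_pi <;> linarith) hb
  have hint : ∫ x in (0 : ℝ)..L, Real.sin (B - α x) = -(q * E (-B)).im := by
    rw [← proj_sin hg B, ← intervalIntegral.integral_neg]
    apply intervalIntegral.integral_congr
    intro x _
    simp only
    rw [← Real.sin_neg]
    congr 1
    ring
  rw [hint, ← hB, sub_self, Real.cos_zero, sub_zero, ff_im' q θ₁ B] at h
  have h' := (le_abs_self _).trans h
  have e1 : B = Real.pi / 2 + (B - Real.pi / 2) := by ring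
  have e2 : (ff q θ₁ B).im = (ff q θ₁ (Real.pi / 2)).im * Real.sin B + 4 * Real.cos B := by
    rw [e1, ff_shift_im, ← e1, hf, Real.cos_sub_pi_div_two, Real.sin_sub_pi_div_two]
    ring
  rw [e2] at h'
  have e3 : Real.cos (θ₁ - B) = Real.cos (B - θ₁) := by
    rw [← Real.cos_neg]
    congr 1
    ring
  rw [e3] at h'
  have hs : 0 ≤ Real.sin B := Real.sin_nonneg_of_nonneg_of_le_pi hb0 hBpi.le
  have h5 := mul_nonneg hY hs
  have h6 : -1 < Real.cos B := by
    have := Real.cos_lt_cos_of_nonneg_of_le_pi hb0 le_rfl hBpi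
    rwa [Real.cos_pi] at this
  linarith

/-- the left end of the interval of `β`s is excluded -/
theorem boundary_left {q : ℂ} {θ₁ L : ℝ} {α : C(ℝ, ℝ)} (hg : Good q θ₁ L α)
    (hamp : amplitude L α < Real.pi) (hf : (ff q θ₁ (θ₁ - Real.pi / 2)).re = 4)
    (hY : (ff q θ₁ (θ₁ - Real.pi / 2)).im ≤ 0) : False := by
  obtain ⟨a, ha, b, hb, hr, hab, ha0, hb0, ha1, hb1⟩ := condensed_range hg hamp
  have hpi := Real.pi_pos
  set A := α a with hA
  have hApi : θ₁ - A < Real.pi := by linarith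
  have h := tv_two (G := fun x => -Real.cos (x - A)) (g := fun x => Real.sin (x - A)) hg
    (fun x => by
      have h1 : HasDerivAt (fun x => x - A) 1 x := (hasDerivAt_id x).sub_const A
      have h2 := h1.cos.neg
      have e : - (-Real.sin (x - A) * 1) = Real.sin (x - A) := by ring
      rw [e] at h2
      exact h2) (by fun_prop)
    (fun s hs => by
      have := hr s hs
      apply Real.sin_nonneg_of_nonneg_of_le_pi <;> linarith) ha
  have hint : ∫ x in (0 : ℝ)..L, Real.sin (α x - A) = (q * E (-A)).im := proj_sin hg A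
  rw [hint, ← hA, sub_self, Real.cos_zero, zero_sub, Real.cos_neg, ff_im' q θ₁ A] at h
  have h' := (neg_abs_le _).trans' (neg_le_neg h)
  have e1 : A = θ₁ - Real.pi / 2 + (Real.pi / 2 - (θ₁ - A)) := by ring
  have e2 : (ff q θ₁ A).im = (ff q θ₁ (θ₁ - Real.pi / 2)).im * Real.sin (θ₁ - A) -
      4 * Real.cos (θ₁ - A) := by
    rw [e1, ff_shift_im, ← e1, hf, Real.cos_pi_div_two_sub, Real.sin_pi_div_two_sub]
  rw [e2] at h'
  have hs : 0 ≤ Real.sin (θ₁ - A) := Real.sin_nonneg_of_nonneg_of_le_pi (by linarith) hApi.le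
  have h5 := mul_nonneg (neg_nonneg.2 hY) hs
  have h6 : -1 < Real.cos (θ₁ - A) := by
    have := Real.cos_lt_cos_of_nonneg_of_le_pi (x := θ₁ - A) (y := Real.pi) (by linarith) le_rfl
      hApi
    rwa [Real.cos_pi] at this
  linarith

/-- `4 cos x + Y sin x > 4` for small `x` -/
theorem exists_small {Y d : ℝ} (hY : 0 < Y) (hd : 0 < d) :
    ∃ x, 0 < x ∧ x < d ∧ 4 < 4 * Real.cos x + Y * Real.sin x := by
  have hpi := Real.pi_pos
  obtain ⟨x, hx0, hx⟩ : ∃ x : ℝ, 0 < x ∧ x < min (min d (Real.pi / 2)) (Y / Real.pi) := by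
    have : 0 < min (min d (Real.pi / 2)) (Y / Real.pi) :=
      lt_min (lt_min hd (by positivity)) (by positivity)
    exact exists_between this
  have h1 : x < d := hx.trans_le ((min_le_left _ _).trans (min_le_left _ _))
  have h2 : x < Real.pi / 2 := hx.trans_le ((min_le_left _ _).trans (min_le_right _ _))
  have h3 : x < Y / Real.pi := hx.trans_le (min_le_right _ _)
  refine ⟨x, hx0, h1, ?_⟩
  have h4 := Real.mul_le_sin hx0.le h2.le
  have h5 := Real.one_sub_sq_div_two_le_cos (x := x)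
  have h6 : Y * (2 / Real.pi * x) ≤ Y * Real.sin x := mul_le_mul_of_nonneg_left h4 hY.le
  have h7 : x * x < Y / Real.pi * x := mul_lt_mul_of_pos_right h3 hx0
  have h8 : Y * (2 / Real.pi * x) = 2 * (Y / Real.pi * x) := by ring
  nlinarith

/-- choice of an interior angle -/
theorem choose_beta {q : ℂ} {θ₁ L : ℝ} {α : C(ℝ, ℝ)} (hg : Good q θ₁ L α)
    (hamp : amplitude L α < Real.pi) {β₀ : ℝ}
    (hβ₀ : β₀ ∈ Icc (θ₁ - Real.pi / 2) (Real.pi / 2)) (hf : 4 ≤ (ff q θ₁ β₀).re) :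
    ∃ β ∈ Ioo (θ₁ - Real.pi / 2) (Real.pi / 2),
      4 < (ff q θ₁ β).re ∨ ((ff q θ₁ β).re = 4 ∧ (ff q θ₁ β).im = 0) := by
  have hpi := Real.pi_pos
  have hθ : θ₁ < Real.pi := by
    obtain ⟨a, ha, b, hb, hr, hab, ha0, hb0, ha1, hb1⟩ := condensed_range hg hamp
    linarith
  have hlt : θ₁ - Real.pi / 2 < Real.pi / 2 := by linarith
  have hcont : Continuous fun β => (ff q θ₁ β).re := by
    unfold ff
    have : Continuous fun β : ℝ => E (-β) := continuous_E.comp continuous_neg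
    fun_prop
  rcases hf.eq_or_lt with hf4 | hf4
  · -- the value is exactly 4
    rcases lt_trichotomy (ff q θ₁ β₀).im 0 with hY | hY | hY
    · -- move to the left
      rcases hβ₀.1.eq_or_lt with h | h
      · exfalso
        apply boundary_left hg hamp (by rw [h]; exact hf4.symm) (by rw [h]; exact hY.le)
      · obtain ⟨x, hx0, hx1, hx2⟩ := exists_small (Y := -(ff q θ₁ β₀).im) (by linarith)
          (sub_pos.2 h)
        refine ⟨β₀ + -x, ⟨by linarith, by linarith [hβ₀.2]⟩, Or.inl ?_⟩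
        rw [ff_shift_re, Real.cos_neg, Real.sin_neg, ← hf4]
        linarith
    · by_cases h1 : β₀ = θ₁ - Real.pi / 2
      · exfalso
        apply boundary_left hg hamp (by rw [← h1]; exact hf4.symm) (by rw [← h1]; exact hY.le)
      · by_cases h2 : β₀ = Real.pi / 2
        · exfalso
          apply boundary_right hg hamp (by rw [← h2]; exact hf4.symm) (by rw [← h2]; exact hY.ge)
        · exact ⟨β₀, ⟨lt_of_le_of_ne hβ₀.1 (Ne.symm h1), lt_of_le_of_ne hβ₀.2 h2⟩,
            Or.inr ⟨hf4.symm, hY⟩⟩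
    · rcases hβ₀.2.eq_or_lt with h | h
      · exfalso
        apply boundary_right hg hamp (by rw [← h]; exact hf4.symm) (by rw [← h]; exact hY.le)
      · obtain ⟨x, hx0, hx1, hx2⟩ := exists_small hY (sub_pos.2 h)
        refine ⟨β₀ + x, ⟨by linarith [hβ₀.1], by linarith⟩, Or.inl ?_⟩
        rw [ff_shift_re, ← hf4]
        linarith
  · -- by continuity
    have hopen : IsOpen {β | 4 < (ff q θ₁ β).re} := isOpen_lt continuous_const hcont
    have hcl : β₀ ∈ closure (Ioo (θ₁ - Real.pi / 2) (Real.pi / 2)) := by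
      rw [closure_Ioo hlt.ne]
      exact hβ₀
    obtain ⟨β, hβ1, hβ2⟩ := mem_closure_iff.1 hcl _ hopen hf4
    exact ⟨β, hβ2, Or.inl hβ1⟩

end Pool.Agent.Helper70.Dubins
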