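import Pool.Agent.Helper70.Dubins.Basic

set_option autoImplicit false

open Set Filter Topology MeasureTheory

namespace Pool.Agent.Helper70.Dubins

/-- `θ` moves at speed at most `v` on `[a, b]`. -/
def SpeedLe (a b : ℝ) (v θ : ℝ → ℝ) : Prop :=
  ∀ s ∈ Icc a b, ∀ t ∈ Icc a b, s ≤ t → |θ t - θ s| ≤ ∫ x in s..t, v x

theorem SpeedLe.mono {a b a' b' : ℝ} {v θ : ℝ → ℝ} (h : SpeedLe a b v θ) (ha : a ≤ a')
    (hb : b' ≤ b) : SpeedLe a' b' v θ := fun s hs t ht hst =>
  h s ⟨ha.trans hs.1, hs.2.trans hb⟩ t ⟨ha.trans ht.1, ht.2.trans hb⟩ hst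

theorem local_comp {θ v G : ℝ → ℝ} {g' : ℝ} {x b : ℝ} (hxb : x < b) (hθ : Continuous θ)
    (hv : Continuous v) (hlip : SpeedLe x b v θ)
    (hG : HasDerivAt G g' (θ x)) {r : ℝ} (hr : |g'| * v x < r) :
    ∀ᶠ z in 𝓝[>] x, |G (θ z) - G (θ x)| ≤ r * (z - x) := by
  -- choose ε
  obtain ⟨ε, hε, hεr⟩ : ∃ ε > 0, (|g'| + ε) * (v x + ε) < r := by
    have hc : Tendsto (fun ε : ℝ => (|g'| + ε) * (v x + ε)) (𝓝 0)
        (𝓝 ((|g'| + 0) * (v x + 0))) := by
      apply Continuous.tendsto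
      fun_prop
    simp only [add_zero] at hc
    have h1 : ∀ᶠ ε in 𝓝 (0 : ℝ), (|g'| + ε) * (v x + ε) < r := hc.eventually (gt_mem_nhds hr)
    have h2 : ∀ᶠ ε in 𝓝[>] (0 : ℝ), (|g'| + ε) * (v x + ε) < r := h1.filter_mono nhdsWithin_le_nhds
    have h3 : ∀ᶠ ε in 𝓝[>] (0 : ℝ), 0 < ε := self_mem_nhdsWithin
    obtain ⟨ε, h4, h5⟩ := (h2.and h3).exists
    exact ⟨ε, h5, h4⟩
  have h1 : ∀ᶠ y in 𝓝 (θ x), ‖G y - G (θ x) - (y - θ x) • g'‖ ≤ ε * ‖y - θ x‖ :=
    (hasDerivAt_iff_isLittleO.1 hG).def hε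
  have h2 : ∀ᶠ z in 𝓝 x, ‖G (θ z) - G (θ x) - (θ z - θ x) • g'‖ ≤ ε * ‖θ z - θ x‖ :=
    hθ.continuousAt.eventually h1
  have h3 : ∀ᶠ z in 𝓝 x, v z < v x + ε := hv.continuousAt.eventually (gt_mem_nhds (by linarith))
  obtain ⟨δ, hδ, hδ'⟩ := Metric.eventually_nhds_iff_ball.1 (h2.and h3)
  have h4 : Ioo x (min b (x + δ)) ∈ 𝓝[>] x := Ioo_mem_nhdsGT (lt_min hxb (by linarith))
  filter_upwards [h4] with z hz
  have hz1 : x < z := hz.1
  have hz2 : z < b := hz.2.trans_le (min_le_left _ _)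
  have hz3 : z < x + δ := hz.2.trans_le (min_le_right _ _)
  have hzb : z ∈ Metric.ball x δ := by
    rw [Metric.mem_ball, Real.dist_eq, abs_of_pos (sub_pos.2 hz1)]
    linarith
  have h5 := (hδ' z hzb).1
  have h6 : |θ z - θ x| ≤ (v x + ε) * (z - x) := by
    refine (hlip x ⟨le_rfl, hxb.le⟩ z ⟨hz1.le, hz2.le⟩ hz1.le).trans ?_
    have : ∫ y in x..z, v y ≤ ∫ y in x..z, (v x + ε) := by
      apply intervalIntegral.integral_mono_on hz1.le (hv.intervalIntegrable _ _)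
        (continuous_const.intervalIntegrable _ _)
      intro y hy
      have hyb : y ∈ Metric.ball x δ := by
        rw [Metric.mem_ball, Real.dist_eq, abs_of_nonneg (sub_nonneg.2 hy.1)]
        linarith [hy.2]
      exact (hδ' y hyb).2.le
    refine this.trans ?_
    simp
    linarith
  rw [Real.norm_eq_abs, Real.norm_eq_abs, smul_eq_mul] at h5
  have h7 : |G (θ z) - G (θ x)| ≤ (|g'| + ε) * |θ z - θ x| := by
    have h8 : |G (θ z) - G (θ x)| ≤ |G (θ z) - G (θ x) - (θ z - θ x) * g'| +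
        |(θ z - θ x) * g'| := by
      have := abs_add_le (G (θ z) - G (θ x) - (θ z - θ x) * g') ((θ z - θ x) * g')
      simpa using this
    rw [abs_mul] at h8
    linarith
  have h9 : 0 ≤ z - x := (sub_pos.2 hz1).le
  calc |G (θ z) - G (θ x)| ≤ (|g'| + ε) * |θ z - θ x| := h7
    _ ≤ (|g'| + ε) * ((v x + ε) * (z - x)) := by
        gcongr
    _ = ((|g'| + ε) * (v x + ε)) * (z - x) := by ring
    _ ≤ r * (z - x) := by gcongr

/-- Composition bound: if `θ` has speed at most `v` then `G ∘ θ` has speed at most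
`|G' ∘ θ| v`. -/
theorem comp_bound {θ v G G' : ℝ → ℝ} {a b : ℝ} (hθ : Continuous θ)
    (hv : Continuous v) (hlip : SpeedLe a b v θ)
    (hG : ∀ x ∈ Icc a b, HasDerivAt G (G' (θ x)) (θ x))
    (hGc : Continuous fun x => G (θ x)) (hG' : Continuous fun x => |G' (θ x)| * v x) :
    SpeedLe a b (fun x => |G' (θ x)| * v x) (fun x => G (θ x)) := by
  intro s hs t ht hst
  have hloc : ∀ x ∈ Ico s t, ∀ r, |G' (θ x)| * v x < r →
      ∀ᶠ z in 𝓝[>] x, |G (θ z) - G (θ x)| ≤ r * (z - x) := by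
    intro x hx r hr
    have hxI : x ∈ Icc a b := ⟨hs.1.trans hx.1, hx.2.le.trans ht.2⟩
    exact local_comp (hx.2.trans_le ht.2) hθ hv (hlip.mono hxI.1 le_rfl)
      (hG x hxI) hr
  rw [abs_le]
  constructor
  · have := le_integral_of_local (F := fun x => - G (θ x)) (m := fun x => |G' (θ x)| * v x) hst
      hGc.neg.continuousOn hG' (by
        intro x hx r hr
        apply Filter.Eventually.frequently
        filter_upwards [hloc x hx r hr] with z hz
        have := neg_abs_le (G (θ z) - G (θ x))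
        linarith)
    linarith
  · exact le_integral_of_local (F := fun x => G (θ x)) (m := fun x => |G' (θ x)| * v x) hst
      hGc.continuousOn hG' (by
        intro x hx r hr
        apply Filter.Eventually.frequently
        filter_upwards [hloc x hx r hr] with z hz
        have := le_abs_self (G (θ z) - G (θ x))
        linarith)

end Pool.Agent.Helper70.Dubins
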