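import Pool.Agent.Helper70.Dubins.IneqB

set_option autoImplicit false

open Set Filter Topology MeasureTheory

namespace Pool.Agent.Helper70.Dubins

/-- the curve with given slot data as an angle function -/
theorem selt_facts {q : ℂ} {θ₁ : ℝ} {N : ℕ} {c : ℕ → ℝ} {G : ℕ → ℝ → ℝ} (hN : 0 < N)
    (h : Slot q θ₁ N c G) {p : C(unitInterval, ℂ) × C(unitInterval, ℂ)}
    (hp : SElt q θ₁ N c G p) :
    ∃ (L : ℝ) (α : C(ℝ, ℝ)), Good q θ₁ L α ∧ p = mk L α ∧
      (∀ s ∈ Icc 0 L, ∃ k < N, ∃ y ∈ Icc (0 : ℝ) 1, α s = G k y) ∧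
      ∀ k < N, ∀ y ∈ Icc (0 : ℝ) 1, ∃ s ∈ Icc 0 L, α s = G k y := by
  obtain ⟨α, hg, hα, hpα⟩ := hp
  have hadm := h.adm
  refine ⟨slotV N c N, α, hg, hpα, ?_, ?_⟩
  · intro s hs
    obtain ⟨t, ht, rfl⟩ := exists_time hadm.T0 hadm.Vc hadm.V0 hs
    obtain ⟨k, hk, y, hy, rfl⟩ := exists_slot ht hN
    refine ⟨k, hk, y, hy, ?_⟩
    rw [hα _ ht, slotθ_at h.chain h.start hk hy]
  · intro k hk y hy
    have hmem : (k : ℝ) + y ∈ Icc (0 : ℝ) N := by
      constructor
      · have := hy.1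
        positivity
      · have : (k : ℝ) + 1 ≤ N := by exact_mod_cast hk
        linarith [hy.2]
    refine ⟨slotV N c (k + y), ?_, ?_⟩
    · have hmono : ∀ s ∈ Icc (0 : ℝ) N, ∀ t ∈ Icc (0 : ℝ) N, s ≤ t → slotV N c s ≤ slotV N c t := by
        intro s hs t ht hst
        have := (abs_nonneg _).trans (hadm.speed s hs t ht hst)
        linarith
      constructor
      · have h1 := hmono 0 ⟨le_rfl, hadm.T0⟩ _ hmem hmem.1
        rwa [hadm.V0] at h1
      · exact hmono _ hmem _ ⟨hadm.T0, le_rfl⟩ hmem.2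
    · rw [hα _ hmem, slotθ_at h.chain h.start hk hy]

/-- connected families of slot data over a preconnected space -/
theorem conn_of_slots_space {Λ : Type*} [TopologicalSpace Λ] [PreconnectedSpace Λ]
    {q : ℂ} {θ₁ : ℝ} {N : ℕ} {c : Λ → ℕ → ℝ} {G : Λ → ℕ → ℝ → ℝ}
    (hc : ∀ k < N, Continuous fun l => c l k)
    (hG : ∀ k < N, Continuous fun z : Λ × ℝ => G z.1 k z.2)
    (h : ∀ l, Slot q θ₁ N (c l) (G l)) {l l' : Λ}
    {p p' : C(unitInterval, ℂ) × C(unitInterval, ℂ)}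
    (hp : SElt q θ₁ N (c l) (G l) p) (hp' : SElt q θ₁ N (c l') (G l') p') :
    Conn q θ₁ p p' :=
  conn_of_space (continuous_slotV hc) (continuous_slotθ hG) (fun l => (h l).adm) hp hp'

/-- speeds of the curve `K_h` -/
noncomputable def cK (θ₁ β f Y h : ℝ) : ℕ → ℝ
  | 0 => h - β
  | 1 => max (-Y) 0 / Real.sin h
  | 2 => h
  | 3 => f - 4 * Real.sin h - |Y| * Real.cos h / Real.sin h
  | 4 => h
  | 5 => max Y 0 / Real.sin h
  | 6 => β + h - θ₁
  | _ => 0

/-- angles of the curve `K_h` -/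
noncomputable def GK (θ₁ β h : ℝ) : ℕ → ℝ → ℝ
  | 0 => fun y => 0 + (β - h) * y
  | 1 => fun _ => β - h
  | 2 => fun y => β - h + h * y
  | 3 => fun _ => β
  | 4 => fun y => β + h * y
  | 5 => fun _ => β + h
  | 6 => fun y => β + h + (θ₁ - β - h) * y
  | _ => fun _ => θ₁

theorem pause_int (a : ℝ) : ∫ y in (0 : ℝ)..1, tang (fun _ => a) y = E a := by
  have : ∀ y, tang (fun _ => a) y = E a := fun _ => rfl
  simp [this]

theorem slot_K {q : ℂ} {θ₁ β h : ℝ} (h0 : 0 < h) (h1 : h ≤ Real.pi / 2) (hβ : β ≤ h)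
    (hβ' : θ₁ - β ≤ h)
    (hσ : 0 ≤ (ff q θ₁ β).re - 4 * Real.sin h - |(ff q θ₁ β).im| * Real.cos h / Real.sin h) :
    Slot q θ₁ 7 (cK θ₁ β (ff q θ₁ β).re (ff q θ₁ β).im h) (GK θ₁ β h) := by
  have hpi := Real.pi_pos
  have hsin : 0 < Real.sin h := Real.sin_pos_of_pos_of_lt_pi h0 (by linarith)
  set f := (ff q θ₁ β).re with hf
  set Y := (ff q θ₁ β).im with hY
  have lin : ∀ a b d y z : ℝ, |b| ≤ d → |a + b * y - (a + b * z)| ≤ d * |y - z| := by
    intro a b d y z hb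
    have : a + b * y - (a + b * z) = b * (y - z) := by ring
    rw [this, abs_mul]
    exact mul_le_mul_of_nonneg_right hb (abs_nonneg _)
  have p1 : 0 ≤ max (-Y) 0 / Real.sin h := div_nonneg (le_max_right _ _) hsin.le
  have p2 : 0 ≤ max Y 0 / Real.sin h := div_nonneg (le_max_right _ _) hsin.le
  refine ⟨?_, ?_, ?_, ?_, ?_, ?_⟩
  · intro k hk y hy z hz
    interval_cases k <;> simp only [cK, GK]
    · exact lin _ _ _ _ _ (abs_le.2 ⟨by linarith, by linarith⟩)
    · rw [sub_self, abs_zero]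
      exact mul_nonneg p1 (abs_nonneg _)
    · exact lin _ _ _ _ _ (abs_of_pos h0).le
    · rw [sub_self, abs_zero]
      exact mul_nonneg hσ (abs_nonneg _)
    · exact lin _ _ _ _ _ (abs_of_pos h0).le
    · rw [sub_self, abs_zero]
      exact mul_nonneg p2 (abs_nonneg _)
    · exact lin _ _ _ _ _ (abs_le.2 ⟨by linarith, by linarith⟩)
  · intro k hk
    interval_cases k <;> simp only [GK] <;> ring
  · simp [GK]
  · simp [GK]
  · simp only [Finset.sum_range_succ, Finset.range_zero, Finset.sum_empty, cK]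
    linarith
  · have s0 := turn_int 0 (β - h)
    have s2 := turn_int (β - h) h
    have s4 := turn_int β h
    have s6 := turn_int (β + h) (θ₁ - β - h)
    have e0 : (0 : ℝ) + (β - h) = β - h := by ring
    have e2 : β - h + h = β := by ring
    have e6 : β + h + (θ₁ - β - h) = θ₁ := by ring
    rw [e0, E_zero] at s0
    rw [e2] at s2
    rw [e6] at s6
    simp only [Finset.sum_range_succ, Finset.range_zero, Finset.sum_empty, cK, GK, pause_int]
    have Ep : E (β + h) = E β * (Real.cos h + Real.sin h * Complex.I) := by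
      rw [E_add]
      congr 1
      unfold E
      rw [Complex.exp_mul_I, Complex.ofReal_cos, Complex.ofReal_sin]
    have Em : E (β - h) = E β * (Real.cos h - Real.sin h * Complex.I) := by
      rw [sub_eq_add_neg, E_add]
      congr 1
      unfold E
      rw [Complex.exp_mul_I, Complex.ofReal_cos, Complex.ofReal_sin]
      push_cast
      rw [Complex.cos_neg, Complex.sin_neg]
      ring
    have hff : ((f : ℂ) + Y * Complex.I) * E β = q + Complex.I - Complex.I * E θ₁ := by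
      have h3 : (f : ℂ) + Y * Complex.I = ff q θ₁ β := by
        rw [hf, hY]
        exact Complex.re_add_im _
      rw [h3]
      unfold ff
      rw [mul_assoc, E_neg_mul, mul_one]
    have hYe : Y = max Y 0 - max (-Y) 0 := by
      rcases le_total 0 Y with hh | hh
      · rw [max_eq_left hh, max_eq_right (by linarith)]
        ring
      · rw [max_eq_right hh, max_eq_left (by linarith)]
        ring
    have hYa : |Y| = max Y 0 + max (-Y) 0 := by
      rcases le_total 0 Y with hh | hh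
      · rw [max_eq_left hh, max_eq_right (by linarith), abs_of_nonneg hh]
        ring
      · rw [max_eq_right hh, max_eq_left (by linarith), abs_of_nonpos hh]
        ring
    set yp := max Y 0 with hyp
    set ym := max (-Y) 0 with hym
    rw [hYa]
    rw [hYe] at hff
    clear_value yp ym
    have hs : (Real.sin h : ℂ) ≠ 0 := by exact_mod_cast hsin.ne'
    push_cast at s0 s2 s4 s6 hff ⊢
    have hinv : (Real.sin h : ℂ)⁻¹ * Real.sin h = 1 := inv_mul_cancel₀ hs
    rw [Em, Complex.ofReal_cos, Complex.ofReal_sin] at s0 s2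
    rw [Ep, Complex.ofReal_cos, Complex.ofReal_sin] at s4 s6
    rw [Ep, Em]
    simp only [Complex.ofReal_cos, Complex.ofReal_sin, div_eq_mul_inv] at hinv ⊢
    linear_combination -s0 + s2 + s4 - s6 + hff + E β * Complex.I * (yp - ym) * hinv -
      4 * Complex.sin h * E β * Complex.I_mul_I

theorem GK_range {θ₁ β h : ℝ} (hθ₁ : 0 ≤ θ₁) (hh : 0 < h) (hb1 : β ≤ h) (hb2 : θ₁ - β ≤ h)
    {k : ℕ} (hk : k < 7) {y : ℝ} (hy : y ∈ Icc (0 : ℝ) 1) : |GK θ₁ β h k y - β| ≤ h := by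
  have y0 := hy.1
  have y1 : 0 ≤ 1 - y := sub_nonneg.2 hy.2
  have b3 : 0 ≤ h + β := by linarith
  have b4 : 0 ≤ h - β := by linarith
  have b5 : 0 ≤ h + (θ₁ - β) := by linarith
  have b6 : 0 ≤ h - (θ₁ - β) := by linarith
  interval_cases k <;> simp only [GK] <;> rw [abs_le] <;> constructor
  · nlinarith [mul_nonneg y1 b4]
  · nlinarith [mul_nonneg y1 b3, mul_nonneg y0 hh.le]
  · linarith
  · linarith
  · nlinarith [mul_nonneg y0 hh.le]
  · nlinarith [mul_nonneg y1 hh.le]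
  · linarith
  · linarith
  · nlinarith [mul_nonneg y0 hh.le]
  · nlinarith [mul_nonneg y1 hh.le]
  · linarith
  · linarith
  · nlinarith [mul_nonneg y0 b5, mul_nonneg y1 hh.le]
  · nlinarith [mul_nonneg y0 b6, mul_nonneg y1 hh.le]

/-- the curve `K_h` is connected to the critical curve `K_{π/2}` -/
theorem conn_K {q : ℂ} {θ₁ β h₁ : ℝ} (hθ₁ : 0 ≤ θ₁) (h0 : 0 < h₁) (h1 : h₁ ≤ Real.pi / 2) (hβ : β ≤ h₁)
    (hβ' : θ₁ - β ≤ h₁)
    (hσ : ∀ h ∈ Icc h₁ (Real.pi / 2),
      0 ≤ (ff q θ₁ β).re - 4 * Real.sin h - |(ff q θ₁ β).im| * Real.cos h / Real.sin h) :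
    ∃ (L : ℝ) (α : C(ℝ, ℝ)) (L' : ℝ) (α' : C(ℝ, ℝ)), Good q θ₁ L α ∧ Good q θ₁ L' α' ∧
      (∀ s ∈ Icc 0 L, |α s - β| ≤ h₁) ∧ amplitude L' α' = Real.pi ∧
      Conn q θ₁ (mk L α) (mk L' α') := by
  have hpi := Real.pi_pos
  set f := (ff q θ₁ β).re with hf
  set Y := (ff q θ₁ β).im with hY
  have hpc : PreconnectedSpace (Icc h₁ (Real.pi / 2)) :=
    Subtype.preconnectedSpace isPreconnected_Icc
  have hslot : ∀ l : Icc h₁ (Real.pi / 2), Slot q θ₁ 7 (cK θ₁ β f Y l) (GK θ₁ β l) := fun l =>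
    slot_K (h0.trans_le l.2.1) l.2.2 (hβ.trans l.2.1) (hβ'.trans l.2.1) (hσ l l.2)
  have hm1 : h₁ ∈ Icc h₁ (Real.pi / 2) := ⟨le_rfl, h1⟩
  have hm2 : Real.pi / 2 ∈ Icc h₁ (Real.pi / 2) := ⟨h1, le_rfl⟩
  obtain ⟨p, hp⟩ := (hslot ⟨h₁, hm1⟩).adm.exists_elt
  obtain ⟨p', hp'⟩ := (hslot ⟨Real.pi / 2, hm2⟩).adm.exists_elt
  have hconn : Conn q θ₁ p p' := by
    refine conn_of_slots_space (Λ := Icc h₁ (Real.pi / 2)) (c := fun l => cK θ₁ β f Y l)
      (G := fun l => GK θ₁ β l) ?_ ?_ hslot hp hp'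
    · have hsin : ∀ l : Icc h₁ (Real.pi / 2), Real.sin l ≠ 0 := fun l =>
        (Real.sin_pos_of_pos_of_lt_pi (h0.trans_le l.2.1) (by linarith [l.2.2])).ne'
      have hsc : Continuous fun l : Icc h₁ (Real.pi / 2) => Real.sin (l : ℝ) := by fun_prop
      intro k hk
      unfold cK
      interval_cases k <;> simp only
      · fun_prop
      · exact continuous_const.div hsc hsin
      · fun_prop
      · exact (continuous_const.sub (continuous_const.mul hsc)).sub
          (Continuous.div (by fun_prop) hsc hsin)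
      · fun_prop
      · exact continuous_const.div hsc hsin
      · fun_prop
    · intro k hk
      unfold GK
      interval_cases k <;> simp only <;> fun_prop
  obtain ⟨L, α, hg, hpα, hr, -⟩ := selt_facts (by norm_num) (hslot ⟨h₁, hm1⟩) hp
  obtain ⟨L', α', hg', hpα', hr', hr''⟩ := selt_facts (by norm_num) (hslot ⟨Real.pi / 2, hm2⟩) hp'
  refine ⟨L, α, L', α', hg, hg', ?_, ?_, ?_⟩
  · intro s hs
    obtain ⟨k, hk, y, hy, he⟩ := hr s hs
    rw [he]
    exact GK_range hθ₁ h0 hβ hβ' hk hy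
  · have hbd : ∀ s ∈ Icc 0 L', |α' s - β| ≤ Real.pi / 2 := by
      intro s hs
      obtain ⟨k, hk, y, hy, he⟩ := hr' s hs
      rw [he]
      exact GK_range hθ₁ (by linarith) (hβ.trans h1) (hβ'.trans h1) hk hy
    obtain ⟨a, ha, b, hb, hab, hA⟩ := range_facts hg'.pos.le α'
    obtain ⟨s1, hs1, e1⟩ := hr'' 1 (by norm_num) 0 ⟨le_rfl, zero_le_one⟩
    obtain ⟨s5, hs5, e5⟩ := hr'' 5 (by norm_num) 0 ⟨le_rfl, zero_le_one⟩
    simp only [GK] at e1 e5
    have i1 := (hab s1 hs1).1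
    have i2 := (hab s5 hs5).2
    have i3 := abs_le.1 (hbd a ha)
    have i4 := abs_le.1 (hbd b hb)
    rw [hA]
    linarith [i3.1, i4.2]
  · rw [← hpα, ← hpα']
    exact hconn

end Pool.Agent.Helper70.Dubins
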