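import Mathlib

set_option autoImplicit false

open Set

namespace Pool.Agent.Helper70.Dubins

/-- On `[0, L]`, `γ` is a `C¹` curve parametrized by arc length, with unit tangent
`γ' = exp(iθ)`, where `θ` is continuous and `θ 0 = 0`; the unit tangent is `1`-Lipschitz;
`γ` goes from `0` to `q`, and its total turning is `θ L = θ₁`. -/
structure IsDubins (q : ℂ) (θ₁ L : ℝ) (γ : ℝ → ℂ) (θ : ℝ → ℝ) : Prop where
  len_pos : 0 < L
  hasDeriv : ∀ s ∈ Icc (0 : ℝ) L,
    HasDerivWithinAt γ (Complex.exp (θ s * Complex.I)) (Icc 0 L) s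
  tangent_lipschitz : LipschitzOnWith 1 (fun s : ℝ => Complex.exp (θ s * Complex.I)) (Icc 0 L)
  angle_continuous : ContinuousOn θ (Icc 0 L)
  start_point : γ 0 = 0
  start_angle : θ 0 = 0
  end_point : γ L = q
  end_angle : θ L = θ₁

/-- The space of Dubins curves with `γ 0 = 0`, `γ' 0 = 1`, `γ L = q`, `γ' L = exp(iθ₁)` and total
turning `θ₁`. Each curve is reparametrized proportionally to arc length on `[0, 1]` and recorded
as the pair (curve, derivative) in `C([0,1], ℂ) × C([0,1], ℂ)`, whose product topology (uniform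
convergence of the curves and of their derivatives) is the `C¹` topology. -/
def curveSpace (q : ℂ) (θ₁ : ℝ) : Set (C(unitInterval, ℂ) × C(unitInterval, ℂ)) :=
  {p | ∃ (L : ℝ) (γ : ℝ → ℂ) (θ : ℝ → ℝ), IsDubins q θ₁ L γ θ ∧
    ∀ t : unitInterval, p.1 t = γ (L * t) ∧ p.2 t = L * Complex.exp (θ (L * t) * Complex.I)}

/-- The amplitude `max θ - min θ` over `[0, L]`. -/
noncomputable def amplitude (L : ℝ) (θ : ℝ → ℝ) : ℝ :=
  sSup (θ '' Icc 0 L) - sInf (θ '' Icc 0 L)

/-- Lengths of the condensed curves (amplitude `< π`). -/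
def condensedLengths (q : ℂ) (θ₁ : ℝ) : Set ℝ :=
  {L | ∃ (γ : ℝ → ℂ) (θ : ℝ → ℝ), IsDubins q θ₁ L γ θ ∧ amplitude L θ < Real.pi}

/-- Lengths of the diffuse curves (amplitude `> π`). -/
def diffuseLengths (q : ℂ) (θ₁ : ℝ) : Set ℝ :=
  {L | ∃ (γ : ℝ → ℂ) (θ : ℝ → ℝ), IsDubins q θ₁ L γ θ ∧ Real.pi < amplitude L θ}

end Pool.Agent.Helper70.Dubins
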