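import Pool.Agent.Helper70.Dubins.Assemble

set_option autoImplicit false

open Set Filter Topology MeasureTheory

namespace Pool.Agent.Helper70.Dubins

theorem conj_exp_angle (x : ℝ) : (starRingEnd ℂ) (Complex.exp (x * Complex.I)) =
    Complex.exp (((-x : ℝ) : ℂ) * Complex.I) := by
  rw [← Complex.exp_conj]
  congr 1
  simp

theorem IsDubins.conj {q : ℂ} {θ₁ L : ℝ} {γ : ℝ → ℂ} {θ : ℝ → ℝ} (h : IsDubins q θ₁ L γ θ) :
    IsDubins ((starRingEnd ℂ) q) (-θ₁) L (fun s => (starRingEnd ℂ) (γ s)) (fun s => -θ s) := by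
  refine ⟨h.len_pos, ?_, ?_, h.angle_continuous.neg, ?_, ?_, ?_, ?_⟩
  · intro s hs
    have h1 := h.hasDeriv s hs
    have h2 := (Complex.conjCLE : ℂ ≃L[ℝ] ℂ).hasFDerivAt.comp_hasDerivWithinAt s h1
    have h3 : (Complex.conjCLE : ℂ ≃L[ℝ] ℂ) (Complex.exp (θ s * Complex.I)) =
        Complex.exp (((-θ s : ℝ) : ℂ) * Complex.I) := conj_exp_angle (θ s)
    have h4 : HasDerivWithinAt (fun s => (starRingEnd ℂ) (γ s))
        ((Complex.conjCLE : ℂ ≃L[ℝ] ℂ) (Complex.exp (θ s * Complex.I))) (Icc 0 L) s := h2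
    rw [h3] at h4
    exact h4
  · apply LipschitzOnWith.of_dist_le_mul
    intro s hs t ht
    have h1 := h.tangent_lipschitz.dist_le_mul s hs t ht
    rw [dist_eq_norm] at h1 ⊢
    have e : Complex.exp (((-θ s : ℝ) : ℂ) * Complex.I) - Complex.exp (((-θ t : ℝ) : ℂ) * Complex.I) =
        (starRingEnd ℂ) (Complex.exp (θ s * Complex.I) - Complex.exp (θ t * Complex.I)) := by
      rw [map_sub, conj_exp_angle, conj_exp_angle]
    rw [e, Complex.norm_conj]
    exact h1
  · simp [h.start_point]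
  · simp [h.start_angle]
  · simp [h.end_point]
  · simp [h.end_angle]

theorem amplitude_neg (L : ℝ) (θ : ℝ → ℝ) : amplitude L (fun s => -θ s) = amplitude L θ := by
  unfold amplitude
  have e : (fun s => -θ s) '' Icc 0 L = -(θ '' Icc 0 L) := by
    ext x
    simp only [mem_image, Set.mem_neg]
    constructor
    · rintro ⟨s, hs, rfl⟩
      exact ⟨s, hs, by ring⟩
    · rintro ⟨s, hs, hx⟩
      exact ⟨s, hs, by rw [hx]; ring⟩
  rw [e]
  have h1 := Real.sInf_def (θ '' Icc 0 L)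
  have h2 := Real.sInf_def (-(θ '' Icc 0 L))
  rw [neg_neg] at h2
  rw [h2]
  rw [h1]
  ring

theorem condensed_conj_sub (q : ℂ) (θ₁ : ℝ) :
    condensedLengths q θ₁ ⊆ condensedLengths ((starRingEnd ℂ) q) (-θ₁) := by
  rintro L ⟨γ, θ, h, ha⟩
  exact ⟨_, _, h.conj, by rwa [amplitude_neg]⟩

theorem diffuse_conj_sub (q : ℂ) (θ₁ : ℝ) :
    diffuseLengths q θ₁ ⊆ diffuseLengths ((starRingEnd ℂ) q) (-θ₁) := by
  rintro L ⟨γ, θ, h, ha⟩
  exact ⟨_, _, h.conj, by rwa [amplitude_neg]⟩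

theorem condensed_conj (q : ℂ) (θ₁ : ℝ) :
    condensedLengths ((starRingEnd ℂ) q) (-θ₁) = condensedLengths q θ₁ := by
  apply Subset.antisymm _ (condensed_conj_sub q θ₁)
  have := condensed_conj_sub ((starRingEnd ℂ) q) (-θ₁)
  rwa [Complex.conj_conj, neg_neg] at this

theorem diffuse_conj (q : ℂ) (θ₁ : ℝ) :
    diffuseLengths ((starRingEnd ℂ) q) (-θ₁) = diffuseLengths q θ₁ := by
  apply Subset.antisymm _ (diffuse_conj_sub q θ₁)
  have := diffuse_conj_sub ((starRingEnd ℂ) q) (-θ₁)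
  rwa [Complex.conj_conj, neg_neg] at this

/-- conjugation on the function space -/
noncomputable def conjMap (p : C(unitInterval, ℂ) × C(unitInterval, ℂ)) :
    C(unitInterval, ℂ) × C(unitInterval, ℂ) :=
  ((⟨fun z => (starRingEnd ℂ) z, Complex.continuous_conj⟩ : C(ℂ, ℂ)).comp p.1,
   (⟨fun z => (starRingEnd ℂ) z, Complex.continuous_conj⟩ : C(ℂ, ℂ)).comp p.2)

theorem continuous_conjMap : Continuous conjMap := by
  unfold conjMap
  have h := ContinuousMap.continuous_postcomp (X := unitInterval)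
    (⟨fun z => (starRingEnd ℂ) z, Complex.continuous_conj⟩ : C(ℂ, ℂ))
  exact (h.comp continuous_fst).prodMk (h.comp continuous_snd)

theorem conjMap_conjMap (p : C(unitInterval, ℂ) × C(unitInterval, ℂ)) :
    conjMap (conjMap p) = p := by
  apply Prod.ext
  · ext t
    simp [conjMap]
  · ext t
    simp [conjMap]

theorem conjMap_mem {q : ℂ} {θ₁ : ℝ} {p : C(unitInterval, ℂ) × C(unitInterval, ℂ)}
    (h : p ∈ curveSpace q θ₁) : conjMap p ∈ curveSpace ((starRingEnd ℂ) q) (-θ₁) := by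
  obtain ⟨L, γ, θ, hD, hp⟩ := h
  refine ⟨L, _, _, hD.conj, fun t => ⟨?_, ?_⟩⟩
  · show (starRingEnd ℂ) (p.1 t) = (starRingEnd ℂ) (γ (L * t))
    rw [(hp t).1]
  · show (starRingEnd ℂ) (p.2 t) = _
    rw [(hp t).2, map_mul, conj_exp_angle, Complex.conj_ofReal]

theorem preconnected_conj {q : ℂ} {θ₁ : ℝ}
    (h : IsPreconnected (curveSpace ((starRingEnd ℂ) q) (-θ₁))) :
    IsPreconnected (curveSpace q θ₁) := by
  have h1 := h.image conjMap continuous_conjMap.continuousOn
  have e : conjMap '' curveSpace ((starRingEnd ℂ) q) (-θ₁) = curveSpace q θ₁ := by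
    apply Subset.antisymm
    · rintro _ ⟨p, hp, rfl⟩
      have := conjMap_mem hp
      rwa [Complex.conj_conj, neg_neg] at this
    · intro p hp
      exact ⟨conjMap p, conjMap_mem hp, conjMap_conjMap p⟩
  rwa [e] at h1

/-- Dubins' length separation. -/
theorem length_separation (q : ℂ) (θ₁ : ℝ) (h : ¬ IsPreconnected (curveSpace q θ₁)) :
    (condensedLengths q θ₁).Nonempty ∧ BddAbove (condensedLengths q θ₁) ∧
      (diffuseLengths q θ₁).Nonempty ∧
      sSup (condensedLengths q θ₁) < sInf (diffuseLengths q θ₁) := by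
  rcases le_total 0 θ₁ with hθ | hθ
  · exact main_nonneg hθ h
  · have h1 := main_nonneg (q := (starRingEnd ℂ) q) (θ₁ := -θ₁) (by linarith)
      fun hcon => h (preconnected_conj hcon)
    rwa [condensed_conj, diffuse_conj] at h1

end Pool.Agent.Helper70.Dubins
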