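import Pool.Agent.Helper70.Dubins.Crit

set_option autoImplicit false

open Set Filter Topology MeasureTheory

namespace Pool.Agent.Helper70.Dubins

/-- `1`-Lipschitz functions with values in `(-1, 1)` and given end values -/
structure WL (X c0 c1 : ℝ) (w : ℝ → ℝ) : Prop where
  lip : ∀ s t, |w s - w t| ≤ |s - t|
  bd : ∀ s, |w s| < 1
  w0 : w 0 = c0
  w1 : w X = c1

theorem cont_of_lip {w : ℝ → ℝ} (h : ∀ s t, |w s - w t| ≤ |s - t|) : Continuous w := by
  have : LipschitzWith 1 w := by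
    apply LipschitzWith.of_dist_le_mul
    intro s t
    rw [Real.dist_eq, Real.dist_eq]
    simpa using h s t
  exact this.continuous

theorem WL.cont {X c0 c1 : ℝ} {w : ℝ → ℝ} (h : WL X c0 c1 w) : Continuous w := cont_of_lip h.lip

theorem WL.neg {X c0 c1 : ℝ} {w : ℝ → ℝ} (h : WL X c0 c1 w) :
    WL X (-c0) (-c1) fun x => -w x := by
  refine ⟨?_, ?_, ?_, ?_⟩
  · intro s t
    have e : -w s - -w t = -(w s - w t) := by ring
    rw [e, abs_neg]
    exact h.lip s t
  · intro s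
    rw [abs_neg]
    exact h.bd s
  · simp only [h.w0]
  · simp only [h.w1]

theorem WL.mix {X c0 c1 : ℝ} {w w' : ℝ → ℝ} (h : WL X c0 c1 w) (h' : WL X c0 c1 w') {l : ℝ}
    (hl : l ∈ Icc (0 : ℝ) 1) : WL X c0 c1 fun x => (1 - l) * w x + l * w' x := by
  have hl1 : 0 ≤ 1 - l := sub_nonneg.2 hl.2
  refine ⟨?_, ?_, ?_, ?_⟩
  · intro s t
    have e : (1 - l) * w s + l * w' s - ((1 - l) * w t + l * w' t) =
        (1 - l) * (w s - w t) + l * (w' s - w' t) := by ring
    rw [e]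
    refine (abs_add_le _ _).trans ?_
    rw [abs_mul, abs_mul, abs_of_nonneg hl.1, abs_of_nonneg hl1]
    have h1 := mul_le_mul_of_nonneg_left (h.lip s t) hl1
    have h2 := mul_le_mul_of_nonneg_left (h'.lip s t) hl.1
    linarith
  · intro s
    refine (abs_add_le _ _).trans_lt ?_
    rw [abs_mul, abs_mul, abs_of_nonneg hl.1, abs_of_nonneg hl1]
    have h1 := h.bd s
    have h2 := h'.bd s
    rcases hl.1.eq_or_lt with h0 | h0
    · rw [← h0]
      simpa using h1
    · have h3 : l * |w' s| < l * 1 := mul_lt_mul_of_pos_left h2 h0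
      have h4 : (1 - l) * |w s| ≤ (1 - l) * 1 := mul_le_mul_of_nonneg_left h1.le hl1
      linarith
  · simp only [h.w0, h'.w0]
    ring
  · simp only [h.w1, h'.w1]
    ring

theorem WL.sup {X c0 c1 : ℝ} {w w' : ℝ → ℝ} (h : WL X c0 c1 w) (h' : WL X c0 c1 w') :
    WL X c0 c1 fun x => max (w x) (w' x) := by
  refine ⟨?_, ?_, ?_, ?_⟩
  · intro s t
    exact (abs_max_sub_max_le_max _ _ _ _).trans (max_le (h.lip s t) (h'.lip s t))
  · intro s
    rcases max_choice (w s) (w' s) with e | e <;> rw [e]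
    · exact h.bd s
    · exact h'.bd s
  · simp only [h.w0, h'.w0, max_self]
  · simp only [h.w1, h'.w1, max_self]

theorem WL.inf {X c0 c1 : ℝ} {w w' : ℝ → ℝ} (h : WL X c0 c1 w) (h' : WL X c0 c1 w') :
    WL X c0 c1 fun x => min (w x) (w' x) := by
  refine ⟨?_, ?_, ?_, ?_⟩
  · intro s t
    exact (abs_min_sub_min_le_max _ _ _ _).trans (max_le (h.lip s t) (h'.lip s t))
  · intro s
    rcases min_choice (w s) (w' s) with e | e <;> rw [e]
    · exact h.bd s
    · exact h'.bd s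
  · simp only [h.w0, h'.w0, min_self]
  · simp only [h.w1, h'.w1, min_self]

theorem one_sub_sq_pos {u : ℝ} (h : |u| < 1) : 0 < 1 - u ^ 2 := by
  have := (sq_lt_one_iff_abs_lt_one u).2 h
  linarith

/-- the slope of a graph as a function of the sine of the angle -/
noncomputable def phi (u : ℝ) : ℝ := u / √(1 - u ^ 2)

theorem phi_mono {u v : ℝ} (hu : |u| < 1) (hv : |v| < 1) (h : u ≤ v) : phi u ≤ phi v := by
  unfold phi
  rw [← Real.tan_arcsin, ← Real.tan_arcsin]
  apply Real.strictMonoOn_tan.monotoneOn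
  · exact ⟨Real.neg_pi_div_two_lt_arcsin.2 (abs_lt.1 hu).1, Real.arcsin_lt_pi_div_two.2 (abs_lt.1 hu).2⟩
  · exact ⟨Real.neg_pi_div_two_lt_arcsin.2 (abs_lt.1 hv).1, Real.arcsin_lt_pi_div_two.2 (abs_lt.1 hv).2⟩
  · exact Real.monotone_arcsin h

theorem continuous_phi_comp {Λ : Type*} [TopologicalSpace Λ] {w : Λ → ℝ} (hw : Continuous w)
    (hb : ∀ x, |w x| < 1) : Continuous fun x => phi (w x) := by
  unfold phi
  refine hw.div (by fun_prop) fun x => ?_
  exact (Real.sqrt_pos.2 (one_sub_sq_pos (hb x))).ne'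

/-- the height reached -/
noncomputable def Phi (X : ℝ) (w : ℝ → ℝ) : ℝ := ∫ x in (0 : ℝ)..X, phi (w x)

theorem Phi_mono {X c0 c1 c0' c1' : ℝ} {w w' : ℝ → ℝ} (hX : 0 ≤ X) (h : WL X c0 c1 w)
    (h' : WL X c0' c1' w') (hle : ∀ x ∈ Icc 0 X, w x ≤ w' x) : Phi X w ≤ Phi X w' := by
  unfold Phi
  apply intervalIntegral.integral_mono_on hX
  · exact (continuous_phi_comp h.cont h.bd).intervalIntegrable _ _
  · exact (continuous_phi_comp h'.cont h'.bd).intervalIntegrable _ _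
  · intro x hx
    exact phi_mono (h.bd x) (h'.bd x) (hle x hx)

/-- a compact set over an interval with connected fibres is connected -/
theorem isPreconnected_of_fibres {Z : Set (ℝ × ℝ)} (hZ : IsCompact Z) {a b : ℝ}
    (hZI : ∀ z ∈ Z, z.1 ∈ Icc a b)
    (hne : ∀ l ∈ Icc a b, ∃ m, (l, m) ∈ Z)
    (hfib : ∀ l ∈ Icc a b, IsPreconnected {m : ℝ | (l, m) ∈ Z}) : IsPreconnected Z := by
  rw [isPreconnected_closed_iff]
  rintro t t' ht ht' hsub ⟨z, hz, hzt⟩ ⟨z', hz', hzt'⟩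
  have hP : IsClosed (Prod.fst '' (Z ∩ t)) :=
    ((hZ.inter_right ht).image continuous_fst).isClosed
  have hP' : IsClosed (Prod.fst '' (Z ∩ t')) :=
    ((hZ.inter_right ht').image continuous_fst).isClosed
  have hI : IsPreconnected (Icc a b) := isPreconnected_Icc
  rw [isPreconnected_closed_iff] at hI
  obtain ⟨l, hl, ⟨⟨l1, m⟩, ⟨hm, hmt⟩, e1⟩, ⟨⟨l2, m'⟩, ⟨hm', hmt'⟩, e2⟩⟩ := hI _ _ hP hP' (by
      intro l hl
      obtain ⟨m, hm⟩ := hne l hl
      rcases hsub hm with h | h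
      · exact Or.inl ⟨(l, m), ⟨hm, h⟩, rfl⟩
      · exact Or.inr ⟨(l, m), ⟨hm, h⟩, rfl⟩)
    ⟨z.1, hZI z hz, z, ⟨hz, hzt⟩, rfl⟩ ⟨z'.1, hZI z' hz', z', ⟨hz', hzt'⟩, rfl⟩
  simp only at e1 e2
  subst e1
  subst e2
  have hF := hfib _ hl
  rw [isPreconnected_closed_iff] at hF
  have hc : Continuous fun m : ℝ => (l2, m) := by fun_prop
  obtain ⟨m'', h1, h2, h3⟩ := hF _ _ (ht.preimage hc) (ht'.preimage hc)
    (fun m hm => hsub hm) ⟨m, hm, hmt⟩ ⟨m', hm', hmt'⟩
  exact ⟨(l2, m''), h1, h2, h3⟩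

/-- the two-parameter interpolation -/
noncomputable def gg (w w' : ℝ → ℝ) (l m x : ℝ) : ℝ :=
  (1 - cl l) * w x + cl l * w' x +
    cl m * (max (w x) (w' x) - ((1 - cl l) * w x + cl l * w' x)) -
    cl (-m) * ((1 - cl l) * w x + cl l * w' x - min (w x) (w' x))

theorem gg_of_nonneg {w w' : ℝ → ℝ} {l m : ℝ} (hm : 0 ≤ m) (x : ℝ) :
    gg w w' l m x = (1 - cl m) * ((1 - cl l) * w x + cl l * w' x) + cl m * max (w x) (w' x) := by
  unfold gg
  rw [cl_of_le (by linarith : -m ≤ 0)]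
  ring

theorem gg_of_nonpos {w w' : ℝ → ℝ} {l m : ℝ} (hm : m ≤ 0) (x : ℝ) :
    gg w w' l m x =
      (1 - cl (-m)) * ((1 - cl l) * w x + cl l * w' x) + cl (-m) * min (w x) (w' x) := by
  unfold gg
  rw [cl_of_le hm]
  ring

theorem gg_WL {X c0 c1 : ℝ} {w w' : ℝ → ℝ} (h : WL X c0 c1 w) (h' : WL X c0 c1 w') (l m : ℝ) :
    WL X c0 c1 (gg w w' l m) := by
  rcases le_total 0 m with hm | hm
  · have := (h.mix h' (cl_mem l)).mix (h.sup h') (cl_mem m)
    have e : gg w w' l m = fun x =>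
        (1 - cl m) * ((1 - cl l) * w x + cl l * w' x) + cl m * max (w x) (w' x) := by
      funext x
      exact gg_of_nonneg hm x
    rw [e]
    exact this
  · have := (h.mix h' (cl_mem l)).mix (h.inf h') (cl_mem (-m))
    have e : gg w w' l m = fun x =>
        (1 - cl (-m)) * ((1 - cl l) * w x + cl l * w' x) + cl (-m) * min (w x) (w' x) := by
      funext x
      exact gg_of_nonpos hm x
    rw [e]
    exact this

theorem gg_mono {w w' : ℝ → ℝ} {l m m' : ℝ} (hm : m ≤ m') (x : ℝ) :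
    gg w w' l m x ≤ gg w w' l m' x := by
  unfold gg
  have h1 := cl_mem l
  have h2 : 0 ≤ 1 - cl l := sub_nonneg.2 h1.2
  have h3 : (1 - cl l) * w x + cl l * w' x ≤ max (w x) (w' x) := by
    have a1 := mul_le_mul_of_nonneg_left (le_max_left (w x) (w' x)) h2
    have a2 := mul_le_mul_of_nonneg_left (le_max_right (w x) (w' x)) h1.1
    linarith
  have h4 : min (w x) (w' x) ≤ (1 - cl l) * w x + cl l * w' x := by
    have a1 := mul_le_mul_of_nonneg_left (min_le_left (w x) (w' x)) h2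
    have a2 := mul_le_mul_of_nonneg_left (min_le_right (w x) (w' x)) h1.1
    linarith
  have h5 : cl m ≤ cl m' := cl_mono hm
  have h6 : cl (-m') ≤ cl (-m) := cl_mono (by linarith)
  have h7 := mul_le_mul_of_nonneg_right h5 (sub_nonneg.2 h3)
  have h8 := mul_le_mul_of_nonneg_right h6 (sub_nonneg.2 h4)
  linarith

theorem continuous_gg {w w' : ℝ → ℝ} (hw : Continuous w) (hw' : Continuous w') :
    Continuous fun z : (ℝ × ℝ) × ℝ => gg w w' z.1.1 z.1.2 z.2 := by
  unfold gg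
  have := continuous_cl
  fun_prop

theorem continuous_Phi_gg {X c0 c1 : ℝ} {w w' : ℝ → ℝ} (h : WL X c0 c1 w) (h' : WL X c0 c1 w') :
    Continuous fun z : ℝ × ℝ => Phi X (gg w w' z.1 z.2) := by
  unfold Phi
  apply intervalIntegral.continuous_parametric_intervalIntegral_of_continuous'
  unfold Function.uncurry
  exact continuous_phi_comp (continuous_gg h.cont h'.cont) fun z => (gg_WL h h' _ _).bd _

end Pool.Agent.Helper70.Dubins
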