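import Pool.Agent.Helper70.Dubins.Frame

set_option autoImplicit false

open Set Filter Topology MeasureTheory

namespace Pool.Agent.Helper70.Dubins

/-- arc length of the graph -/
noncomputable def clkW (w : ℝ → ℝ) (x : ℝ) : ℝ := ∫ t in (0 : ℝ)..x, 1 / √(1 - w t ^ 2)

/-- angle of the graph -/
noncomputable def angW (β : ℝ) (w : ℝ → ℝ) (x : ℝ) : ℝ := β + Real.arcsin (w x)

theorem smooth_disp {v V F : ℝ → ℝ} (hv : Continuous v) (hV : ∀ x, HasDerivAt V (v x) x)
    (hV0 : V 0 = 0) {T : ℝ} (hT : 0 ≤ T) {α : C(ℝ, ℝ)} (hα : ∀ t ∈ Icc 0 T, α (V t) = F t) :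
    ∫ s in (0 : ℝ)..(V T), tang α s = ∫ t in (0 : ℝ)..T, (v t : ℂ) * E (F t) := by
  have hsub := intervalIntegral.integral_deriv_smul_comp (a := 0) (b := T) (f := V) (f' := v)
    (g := tang α) (fun x _ => hV x) hv.continuousOn (continuous_tang α.continuous)
  rw [hV0] at hsub
  rw [← hsub]
  apply intervalIntegral.integral_congr
  intro t ht
  rw [uIcc_of_le hT] at ht
  simp only [Function.comp, tang, E]
  rw [hα t ht]
  simp

theorem inv_sqrt_cont {Λ : Type*} [TopologicalSpace Λ] {w : Λ → ℝ} (hw : Continuous w)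
    (hb : ∀ x, |w x| < 1) : Continuous fun x => 1 / √(1 - w x ^ 2) := by
  refine continuous_const.div (by fun_prop) fun x => ?_
  exact (Real.sqrt_pos.2 (one_sub_sq_pos (hb x))).ne'

theorem clkW_deriv {w : ℝ → ℝ} (hw : Continuous w) (hb : ∀ x, |w x| < 1) (x : ℝ) :
    HasDerivAt (clkW w) (1 / √(1 - w x ^ 2)) x := by
  have hc := inv_sqrt_cont hw hb
  exact intervalIntegral.integral_hasDerivAt_right (hc.intervalIntegrable _ _)
    hc.stronglyMeasurable.stronglyMeasurableAtFilter hc.continuousAt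

theorem clkW_zero (w : ℝ → ℝ) : clkW w 0 = 0 := by simp [clkW]

theorem clkW_sub {w : ℝ → ℝ} (hw : Continuous w) (hb : ∀ x, |w x| < 1) (s t : ℝ) :
    clkW w t - clkW w s = ∫ x in s..t, 1 / √(1 - w x ^ 2) := by
  have hc := inv_sqrt_cont hw hb
  exact intervalIntegral.integral_interval_sub_left (hc.intervalIntegrable _ _)
    (hc.intervalIntegrable _ _)

theorem one_le_inv_sqrt {u : ℝ} (hu : |u| < 1) : 1 ≤ 1 / √(1 - u ^ 2) := by
  have h1 := Real.sqrt_pos.2 (one_sub_sq_pos hu)
  rw [le_div_iff₀ h1, one_mul]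
  apply Real.sqrt_le_one.2
  have := sq_nonneg u
  linarith

theorem graph_integrand {u : ℝ} (hu : |u| < 1) (β : ℝ) :
    ((1 / √(1 - u ^ 2) : ℝ) : ℂ) * E (β + Real.arcsin u) = E β * (1 + (phi u : ℂ) * Complex.I) := by
  have h1 := Real.sqrt_pos.2 (one_sub_sq_pos hu)
  have h2 := abs_lt.1 hu
  have h3 : E (Real.arcsin u) = (√(1 - u ^ 2) : ℂ) + (u : ℂ) * Complex.I := by
    unfold E
    rw [Complex.exp_mul_I, ← Complex.ofReal_cos, ← Complex.ofReal_sin, Real.cos_arcsin,
      Real.sin_arcsin h2.1.le h2.2.le]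
  rw [E_add, h3]
  have h4 : (√(1 - u ^ 2) : ℂ) ≠ 0 := by exact_mod_cast h1.ne'
  unfold phi
  push_cast
  field_simp

theorem WL.adm {q : ℂ} {θ₁ β X : ℝ} {w : ℝ → ℝ} (hβ : |β| < Real.pi / 2)
    (hβ1 : |θ₁ - β| < Real.pi / 2) (hX : 0 < X)
    (hw : WL X (Real.sin (-β)) (Real.sin (θ₁ - β)) w)
    (hre : (q * E (-β)).re = X) (him : (q * E (-β)).im = Phi X w) :
    Adm q θ₁ X (clkW w) (angW β w) := by
  have hpi := Real.pi_pos
  have hc := inv_sqrt_cont hw.cont hw.bd
  have hb := abs_lt.1 hβ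
  have hb1 := abs_lt.1 hβ1
  have hV : Continuous (clkW w) :=
    continuous_iff_continuousAt.2 fun x => (clkW_deriv hw.cont hw.bd x).continuousAt
  refine ⟨hX.le, hV, clkW_zero w, ?_, ?_, ?_, ?_, ?_⟩
  · intro s hs t ht hst
    rw [clkW_sub hw.cont hw.bd]
    have hw1 : SpeedLe 0 X (fun _ => 1) w := by
      intro s _ t _ hst
      have := hw.lip t s
      rw [abs_of_nonneg (sub_nonneg.2 hst)] at this
      simpa using this
    have hd : ∀ x, HasDerivAt Real.arcsin (1 / √(1 - w x ^ 2)) (w x) := by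
      intro x
      have h2 := abs_lt.1 (hw.bd x)
      exact Real.hasDerivAt_arcsin h2.1.ne' h2.2.ne
    have h := comp_bound (θ := w) (v := fun _ => 1) (G := Real.arcsin)
      (G' := fun u => 1 / √(1 - u ^ 2)) hw.cont continuous_const hw1 (fun x _ => hd x)
      (Real.continuous_arcsin.comp hw.cont) (by simpa using hc.abs) s hs t ht hst
    have e : angW β w t - angW β w s = Real.arcsin (w t) - Real.arcsin (w s) := by
      unfold angW
      ring
    rw [e]
    refine h.trans (le_of_eq ?_)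
    apply intervalIntegral.integral_congr
    intro x _
    simp only
    rw [abs_of_nonneg (zero_le_one.trans (one_le_inv_sqrt (hw.bd x))), mul_one]
  · unfold angW
    rw [hw.w0, Real.arcsin_sin (by linarith) (by linarith)]
    ring
  · unfold angW
    rw [hw.w1, Real.arcsin_sin (by linarith) (by linarith)]
    ring
  · have h1 : ∫ x in (0 : ℝ)..X, (1 : ℝ) ≤ clkW w X := by
      unfold clkW
      apply intervalIntegral.integral_mono_on hX.le (continuous_const.intervalIntegrable _ _)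
        (hc.intervalIntegrable _ _)
      intro x _
      exact one_le_inv_sqrt (hw.bd x)
    simp at h1
    linarith
  · intro α hα
    rw [smooth_disp hc (clkW_deriv hw.cont hw.bd) (clkW_zero w) hX.le hα]
    have h1 : ∫ t in (0 : ℝ)..X, ((1 / √(1 - w t ^ 2) : ℝ) : ℂ) * E (angW β w t) =
        ∫ t in (0 : ℝ)..X, E β * (1 + (phi (w t) : ℂ) * Complex.I) := by
      apply intervalIntegral.integral_congr
      intro t _
      exact graph_integrand (hw.bd t) β
    rw [h1, intervalIntegral.integral_const_mul]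
    have hcp : Continuous fun t => phi (w t) := continuous_phi_comp hw.cont hw.bd
    rw [intervalIntegral.integral_add (continuous_const.intervalIntegrable _ _)
      (Continuous.intervalIntegrable (by fun_prop) _ _), intervalIntegral.integral_mul_const]
    have h2 : ∫ t in (0 : ℝ)..X, (phi (w t) : ℂ) = ((Phi X w : ℝ) : ℂ) := by
      unfold Phi
      exact intervalIntegral.integral_ofReal
    rw [h2, ← him]
    have h3 : ∫ t in (0 : ℝ)..X, (1 : ℂ) = (X : ℂ) := by simp
    rw [h3, ← hre, Complex.re_add_im]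
    linear_combination q * E_neg_mul β

/-- two graphs over the same axis are connected -/
theorem conn_frame {q : ℂ} {θ₁ β X : ℝ} {w w' : ℝ → ℝ} (hβ : |β| < Real.pi / 2)
    (hβ1 : |θ₁ - β| < Real.pi / 2) (hX : 0 < X)
    (hw : WL X (Real.sin (-β)) (Real.sin (θ₁ - β)) w)
    (hw' : WL X (Real.sin (-β)) (Real.sin (θ₁ - β)) w')
    (hre : (q * E (-β)).re = X) (him : (q * E (-β)).im = Phi X w)
    (him' : (q * E (-β)).im = Phi X w') {p p' : C(unitInterval, ℂ) × C(unitInterval, ℂ)}
    (hp : IsElt q θ₁ X (clkW w) (angW β w) p) (hp' : IsElt q θ₁ X (clkW w') (angW β w') p') :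
    Conn q θ₁ p p' := by
  set Z : Set (ℝ × ℝ) := (Icc 0 1 ×ˢ Icc (-1) 1) ∩
    {z | Phi X (gg w w' z.1 z.2) = (q * E (-β)).im} with hZ
  have hF := continuous_Phi_gg hw hw'
  have hZc : IsCompact Z :=
    (isCompact_Icc.prod isCompact_Icc).inter_right (isClosed_eq hF continuous_const)
  have hmonoF : ∀ l m m', m ≤ m' → Phi X (gg w w' l m) ≤ Phi X (gg w w' l m') := fun l m m' h =>
    Phi_mono hX.le (gg_WL hw hw' l m) (gg_WL hw hw' l m') fun x _ => gg_mono h x
  have hlo : ∀ l, Phi X (gg w w' l (-1)) ≤ (q * E (-β)).im := by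
    intro l
    rw [him]
    apply Phi_mono hX.le (gg_WL hw hw' l _) hw
    intro x _
    rw [gg_of_nonpos (by norm_num), neg_neg, cl_of_ge le_rfl]
    have := min_le_left (w x) (w' x)
    linarith
  have hhi : ∀ l, (q * E (-β)).im ≤ Phi X (gg w w' l 1) := by
    intro l
    rw [him]
    apply Phi_mono hX.le hw (gg_WL hw hw' l _)
    intro x _
    rw [gg_of_nonneg (by norm_num), cl_of_ge le_rfl]
    have := le_max_left (w x) (w' x)
    linarith
  have hfibc : ∀ l, Continuous fun m => Phi X (gg w w' l m) := fun l =>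
    hF.comp (continuous_const.prodMk continuous_id)
  have hZp : IsPreconnected Z := by
    apply isPreconnected_of_fibres hZc (a := 0) (b := 1)
    · intro z hz
      exact hz.1.1
    · intro l hl
      have h := intermediate_value_Icc (by norm_num : (-1 : ℝ) ≤ 1) (hfibc l).continuousOn
      obtain ⟨m, hm, hmv⟩ := h ⟨hlo l, hhi l⟩
      exact ⟨m, ⟨hl, hm⟩, hmv⟩
    · intro l hl
      apply Set.OrdConnected.isPreconnected
      rw [Set.ordConnected_iff]
      intro m hm m' hm' _ m'' hm''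
      refine ⟨⟨hl, ?_⟩, ?_⟩
      · exact ⟨hm.1.2.1.trans hm''.1, hm''.2.trans hm'.1.2.2⟩
      · have a1 := hmonoF l _ _ hm''.1
        have a2 := hmonoF l _ _ hm''.2
        have a3 : Phi X (gg w w' l m) = (q * E (-β)).im := hm.2
        have a4 : Phi X (gg w w' l m') = (q * E (-β)).im := hm'.2
        show Phi X (gg w w' l m'') = (q * E (-β)).im
        linarith
  have g0 : gg w w' 0 0 = w := by
    funext x
    rw [gg_of_nonneg le_rfl, cl_of_le le_rfl]
    ring
  have g1 : gg w w' 1 0 = w' := by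
    funext x
    rw [gg_of_nonneg le_rfl, cl_of_le le_rfl, cl_of_ge le_rfl]
    ring
  refine conn_of_family (Λ := ℝ × ℝ) (T := X) (s := Z) (V := fun z => clkW (gg w w' z.1 z.2))
    (θ := fun z => angW β (gg w w' z.1 z.2)) (l := (0, 0)) (l' := (1, 0)) hZp ?_ ?_ ?_ ?_ ?_ ?_ ?_
  · unfold clkW Function.uncurry
    apply intervalIntegral.continuous_parametric_primitive_of_continuous
      (f := fun (z : ℝ × ℝ) (t : ℝ) => 1 / √(1 - gg w w' z.1 z.2 t ^ 2))
    unfold Function.uncurry
    exact inv_sqrt_cont (continuous_gg hw.cont hw'.cont) fun z => (gg_WL hw hw' _ _).bd _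
  · unfold angW Function.uncurry
    exact continuous_const.add (Real.continuous_arcsin.comp (continuous_gg hw.cont hw'.cont))
  · intro z hz
    exact (gg_WL hw hw' z.1 z.2).adm hβ hβ1 hX hre hz.2.symm
  · refine ⟨⟨⟨le_rfl, zero_le_one⟩, ⟨by norm_num, by norm_num⟩⟩, ?_⟩
    show Phi X (gg w w' 0 0) = _
    rw [g0, him]
  · refine ⟨⟨⟨zero_le_one, le_rfl⟩, ⟨by norm_num, by norm_num⟩⟩, ?_⟩
    show Phi X (gg w w' 1 0) = _
    rw [g1, him']
  · show IsElt q θ₁ X (clkW (gg w w' 0 0)) (angW β (gg w w' 0 0)) p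
    rw [g0]
    exact hp
  · show IsElt q θ₁ X (clkW (gg w w' 1 0)) (angW β (gg w w' 1 0)) p'
    rw [g1]
    exact hp'

end Pool.Agent.Helper70.Dubins
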