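import Pool.Agent.Helper70.Dubins.FrameB

set_option autoImplicit false

open Set Filter Topology MeasureTheory

namespace Pool.Agent.Helper70.Dubins

/-- every curve with angles in `(β - π/2, β + π/2)` is a graph over the axis of direction `β` -/
theorem exists_W {q : ℂ} {θ₁ L : ℝ} {α : C(ℝ, ℝ)} (hg : Good q θ₁ L α) {β : ℝ}
    (hβ : ∀ s ∈ Icc 0 L, |α s - β| < Real.pi / 2) :
    0 < (q * E (-β)).re ∧ ∃ w : ℝ → ℝ,
      WL (q * E (-β)).re (Real.sin (-β)) (Real.sin (θ₁ - β)) w ∧
      (q * E (-β)).im = Phi (q * E (-β)).re w ∧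
      IsElt q θ₁ (q * E (-β)).re (clkW w) (angW β w) (mk L α) := by
  have hpi := Real.pi_pos
  have hL := hg.pos.le
  set g : ℝ → ℝ := fun s => Real.cos (α s - β) with hgdef
  have hgc : Continuous g := by fun_prop
  have hgpos : ∀ s ∈ Icc 0 L, 0 < g s := fun s hs =>
    Real.cos_pos_of_mem_Ioo (abs_lt.1 (hβ s hs))
  set V : ℝ → ℝ := fun s => ∫ t in (0 : ℝ)..s, g t with hVdef
  have hVd : ∀ s, HasDerivAt V (g s) s := fun s =>
    intervalIntegral.integral_hasDerivAt_right (hgc.intervalIntegrable _ _)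
      hgc.stronglyMeasurable.stronglyMeasurableAtFilter hgc.continuousAt
  have hVc : Continuous V := continuous_iff_continuousAt.2 fun s => (hVd s).continuousAt
  have hV0 : V 0 = 0 := by simp [hVdef]
  set X := (q * E (-β)).re with hX
  have hVL : V L = X := proj_cos hg β
  have hXpos : 0 < X := by
    rw [← hVL]
    exact intervalIntegral.intervalIntegral_pos_of_pos_on (hgc.intervalIntegrable _ _)
      (fun s hs => hgpos s ⟨hs.1.le, hs.2.le⟩) hg.pos
  have hspeed : ∀ s ∈ Icc 0 L, ∀ t ∈ Icc 0 L, s ≤ t →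
      |Real.sin (α t - β) - Real.sin (α s - β)| ≤ V t - V s := by
    intro s hs t ht hst
    have h1 := tv (G := fun u => Real.sin (u - β)) (g := fun u => Real.cos (u - β)) hg
      (fun x => by
        have h1 : HasDerivAt (fun x => x - β) 1 x := (hasDerivAt_id x).sub_const β
        have h2 := h1.sin
        rwa [mul_one] at h2) (by fun_prop) (fun s hs => (hgpos s hs).le) hs ht hst
    refine h1.trans (le_of_eq ?_)
    exact (intervalIntegral.integral_interval_sub_left (hgc.intervalIntegrable _ _)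
      (hgc.intervalIntegrable _ _)).symm
  obtain ⟨w₀, hlip, hw₀⟩ := exists_reparam (V := V) (θ := fun s => Real.sin (α s - β)) hL hVc hV0
    hspeed
  rw [hVL.symm] at hXpos ⊢
  set X := V L with hX'
  set pr : ℝ → ℝ := fun x => max (min x X) 0 with hpr
  have hprm : ∀ x, pr x ∈ Icc 0 X := fun x =>
    ⟨le_max_right _ _, max_le (min_le_right _ _) hXpos.le⟩
  have hprid : ∀ x ∈ Icc 0 X, pr x = x := by
    intro x hx
    simp only [hpr]
    rw [min_eq_left hx.2, max_eq_left hx.1]
  have hprlip : ∀ s t, |pr s - pr t| ≤ |s - t| := by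
    intro s t
    refine (abs_max_sub_max_le_abs _ _ _).trans ?_
    refine (abs_min_sub_min_le_max _ _ _ _).trans ?_
    simp
  set w : ℝ → ℝ := fun x => w₀ (pr x) with hw
  have hVmem : ∀ s ∈ Icc 0 L, V s ∈ Icc 0 X := by
    intro s hs
    constructor
    · have := (abs_nonneg _).trans (hspeed 0 ⟨le_rfl, hL⟩ s hs hs.1)
      rw [hV0] at this
      linarith
    · have := (abs_nonneg _).trans (hspeed s hs L ⟨hL, le_rfl⟩ hs.2)
      linarith
  have hwV : ∀ s ∈ Icc 0 L, w (V s) = Real.sin (α s - β) := by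
    intro s hs
    simp only [hw]
    rw [hprid _ (hVmem s hs)]
    exact hw₀ s hs
  have hWL : WL X (Real.sin (-β)) (Real.sin (θ₁ - β)) w := by
    refine ⟨fun s t => (hlip _ _).trans (hprlip s t), ?_, ?_, ?_⟩
    · intro x
      obtain ⟨s, hs, hsx⟩ := exists_time hL hVc hV0 (hprm x)
      have h1 : w x = Real.sin (α s - β) := by
        simp only [hw]
        rw [← hsx]
        exact hw₀ s hs
      rw [h1]
      have h2 := abs_lt.1 (hβ s hs)
      rw [abs_lt]
      constructor
      · have := Real.sin_lt_sin_of_lt_of_le_pi_div_two (x := -(Real.pi / 2)) (y := α s - β)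
          (by linarith) (by linarith) h2.1
        rw [Real.sin_neg, Real.sin_pi_div_two] at this
        exact this
      · have := Real.sin_lt_sin_of_lt_of_le_pi_div_two (x := α s - β) (y := Real.pi / 2)
          (by linarith) le_rfl h2.2
        rw [Real.sin_pi_div_two] at this
        exact this
    · have := hwV 0 ⟨le_rfl, hL⟩
      rw [hV0, hg.zero, zero_sub] at this
      exact this
    · have := hwV L ⟨hL, le_rfl⟩
      rw [hg.endp] at this
      exact this
  have hsub : ∀ F : ℝ → ℝ, Continuous F → ∀ s ∈ Icc 0 L,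
      ∫ x in (0 : ℝ)..(V s), F x = ∫ t in (0 : ℝ)..s, g t * F (V t) := by
    intro F hF s hs
    have h1 := intervalIntegral.integral_deriv_smul_comp (a := 0) (b := s) (f := V) (f' := g)
      (g := F) (fun x _ => hVd x) hgc.continuousOn hF
    rw [hV0] at h1
    rw [← h1]
    rfl
  have hsq : ∀ s ∈ Icc 0 L, √(1 - w (V s) ^ 2) = g s := by
    intro s hs
    rw [hwV s hs]
    have h1 := abs_lt.1 (hβ s hs)
    simp only [hgdef]
    rw [Real.cos_eq_sqrt_one_sub_sin_sq (by linarith) (by linarith)]
  have hclk : ∀ s ∈ Icc 0 L, clkW w (V s) = s := by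
    intro s hs
    unfold clkW
    rw [hsub _ (inv_sqrt_cont hWL.cont hWL.bd) s hs]
    have h1 : ∫ t in (0 : ℝ)..s, g t * (1 / √(1 - w (V t) ^ 2)) = ∫ t in (0 : ℝ)..s, (1 : ℝ) := by
      apply intervalIntegral.integral_congr
      intro t ht
      rw [uIcc_of_le hs.1] at ht
      have htL : t ∈ Icc 0 L := ⟨ht.1, ht.2.trans hs.2⟩
      simp only
      rw [hsq t htL, mul_one_div_cancel (hgpos t htL).ne']
    rw [h1]
    simp
  have hclkX : clkW w X = L := hclk L ⟨hL, le_rfl⟩
  refine ⟨hXpos, w, hWL, ?_, α, ?_, ?_, ?_⟩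
  · unfold Phi
    rw [hsub _ (continuous_phi_comp hWL.cont hWL.bd) L ⟨hL, le_rfl⟩, ← proj_sin hg β]
    apply intervalIntegral.integral_congr
    intro t ht
    rw [uIcc_of_le hL] at ht
    simp only
    unfold phi
    rw [hsq t ht, hwV t ht]
    have := (hgpos t ht).ne'
    field_simp
  · rw [hclkX]
    exact hg
  · intro x hx
    obtain ⟨s, hs, rfl⟩ := exists_time hL hVc hV0 hx
    rw [hclk s hs]
    unfold angW
    rw [hwV s hs]
    have h1 := abs_lt.1 (hβ s hs)
    rw [Real.arcsin_sin (by linarith) (by linarith)]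
    ring
  · rw [hclkX]

theorem sqrt_deriv {t : ℝ} (ht : |t| < 1) : HasDerivAt (fun t => -√(1 - t ^ 2)) (phi t) t := by
  have h1 := one_sub_sq_pos ht
  have h2 : HasDerivAt (fun t : ℝ => 1 - t ^ 2) (-(2 * t)) t := by
    have := (hasDerivAt_pow 2 t).const_sub 1
    simpa using this
  have h3 := (h2.sqrt h1.ne').neg
  have e : -(-(2 * t) / (2 * √(1 - t ^ 2))) = phi t := by
    unfold phi
    have h4 := (Real.sqrt_pos.2 h1).ne'
    field_simp
  rw [e] at h3
  exact h3

theorem J_bound {a c X : ℝ} (hc : |c| < 1) (hca : c ≤ a) (ha : a < 1) (hX : 0 ≤ X) :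
    ∫ x in (0 : ℝ)..X, (phi (max (a - x) c) - phi c) ≤
      √(1 - c ^ 2) - √(1 - a ^ 2) - (a - c) * phi c := by
  have hc' := abs_lt.1 hc
  set m : ℝ → ℝ := fun t => max (min t a) c with hm
  have hmc : Continuous m := by fun_prop
  have hmb : ∀ t, c ≤ m t ∧ m t ≤ a := fun t => ⟨le_max_right _ _, max_le (min_le_right _ _) hca⟩
  have hmb' : ∀ t, |m t| < 1 := fun t => abs_lt.2 ⟨by linarith [(hmb t).1], by linarith [(hmb t).2]⟩
  set F : ℝ → ℝ := fun t => phi (m t) - phi c with hF
  have hFc : Continuous F := (continuous_phi_comp hmc hmb').sub continuous_const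
  have hF0 : ∀ t, 0 ≤ F t := fun t => sub_nonneg.2 (phi_mono hc (hmb' t) (hmb t).1)
  have hFi : ∀ a b, IntervalIntegrable F volume a b := fun a b => hFc.intervalIntegrable a b
  have e1 : ∫ x in (0 : ℝ)..X, (phi (max (a - x) c) - phi c) = ∫ x in (0 : ℝ)..X, F (a - x) := by
    apply intervalIntegral.integral_congr
    intro x hx
    rw [uIcc_of_le hX] at hx
    simp only [hF, hm]
    rw [min_eq_left (by linarith [hx.1])]
  rw [e1, intervalIntegral.integral_comp_sub_left, sub_zero,
    ← intervalIntegral.integral_add_adjacent_intervals (hFi (a - X) c) (hFi c a)]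
  have i1 : ∫ x in (a - X)..c, F x ≤ 0 := by
    rcases le_total (a - X) c with h | h
    · have : ∫ x in (a - X)..c, F x = ∫ x in (a - X)..c, (0 : ℝ) := by
        apply intervalIntegral.integral_congr
        intro x hx
        rw [uIcc_of_le h] at hx
        simp only [hF, hm]
        rw [max_eq_right ((min_le_left _ _).trans hx.2), sub_self]
      rw [this]
      simp
    · rw [intervalIntegral.integral_symm]
      have := intervalIntegral.integral_nonneg (f := F) (μ := volume) h fun x _ => hF0 x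
      linarith
  have i2 : ∫ x in c..a, F x = √(1 - c ^ 2) - √(1 - a ^ 2) - (a - c) * phi c := by
    have e2 : ∫ x in c..a, F x = (fun t => -√(1 - t ^ 2) - t * phi c) a -
        (fun t => -√(1 - t ^ 2) - t * phi c) c := by
      apply intervalIntegral.integral_eq_sub_of_hasDerivAt
        (f := fun t => -√(1 - t ^ 2) - t * phi c)
      · intro x hx
        rw [uIcc_of_le hca] at hx
        have h1 := sqrt_deriv (t := x) (abs_lt.2 ⟨by linarith [hx.1], by linarith [hx.2]⟩)
        have h2 : HasDerivAt (fun t : ℝ => t * phi c) (phi c) x := by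
          simpa using (hasDerivAt_id x).mul_const (phi c)
        have h3 : F x = phi x - phi c := by
          simp only [hF, hm]
          rw [min_eq_left hx.2, max_eq_left hx.1]
        rw [h3]
        exact h1.sub h2
      · exact hFi c a
    rw [e2]
    ring
  linarith

/-- the lowest graph above `c` -/
theorem exists_min {X c0 c1 c : ℝ} {w : ℝ → ℝ} (hX : 0 ≤ X) (hw : WL X c0 c1 w) (hc : |c| < 1)
    (h0 : c ≤ c0) (h1 : c ≤ c1) :
    ∃ v : ℝ → ℝ, WL X c0 c1 v ∧ (∀ x, c ≤ v x) ∧
      Phi X v ≤ X * phi c + 2 * √(1 - c ^ 2) - √(1 - c0 ^ 2) - √(1 - c1 ^ 2) -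
        (c0 + c1 - 2 * c) * phi c := by
  have b0 : |c0| < 1 := by
    rw [← hw.w0]
    exact hw.bd 0
  have b1 : |c1| < 1 := by
    rw [← hw.w1]
    exact hw.bd X
  have hc' := abs_lt.1 hc
  have b0' := abs_lt.1 b0
  have b1' := abs_lt.1 b1
  have hdiff : |c1 - c0| ≤ X := by
    have := hw.lip X 0
    rw [hw.w0, hw.w1, sub_zero, abs_of_nonneg hX] at this
    exact this
  have hdiff' := abs_le.1 hdiff
  set pr : ℝ → ℝ := fun x => max (min x X) 0 with hpr
  have hprm : ∀ x, pr x ∈ Icc 0 X := fun x =>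
    ⟨le_max_right _ _, max_le (min_le_right _ _) hX⟩
  have hprid : ∀ x ∈ Icc 0 X, pr x = x := by
    intro x hx
    simp only [hpr]
    rw [min_eq_left hx.2, max_eq_left hx.1]
  have hprlip : ∀ s t, |pr s - pr t| ≤ |s - t| := by
    intro s t
    refine (abs_max_sub_max_le_abs _ _ _).trans ?_
    refine (abs_min_sub_min_le_max _ _ _ _).trans ?_
    simp
  set v : ℝ → ℝ := fun x => max (max (c0 - pr x) (c1 - (X - pr x))) c with hv
  have hvWL : WL X c0 c1 v := by
    refine ⟨?_, ?_, ?_, ?_⟩
    · intro s t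
      simp only [hv]
      refine (abs_max_sub_max_le_abs _ _ _).trans ?_
      refine (abs_max_sub_max_le_max _ _ _ _).trans (max_le ?_ ?_)
      · have e : c0 - pr s - (c0 - pr t) = -(pr s - pr t) := by ring
        rw [e, abs_neg]
        exact hprlip s t
      · have e : c1 - (X - pr s) - (c1 - (X - pr t)) = pr s - pr t := by ring
        rw [e]
        exact hprlip s t
    · intro s
      have := hprm s
      rw [abs_lt]
      constructor
      · exact lt_of_lt_of_le hc'.1 (le_max_right _ _)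
      · simp only [hv]
        apply max_lt (max_lt _ _) hc'.2
        · linarith [this.1]
        · linarith [this.2]
    · simp only [hv]
      rw [hprid 0 ⟨le_rfl, hX⟩, sub_zero, sub_zero, max_eq_left (by linarith : c1 - X ≤ c0),
        max_eq_left h0]
    · simp only [hv]
      rw [hprid X ⟨hX, le_rfl⟩, sub_self, sub_zero, max_eq_right (by linarith : c0 - X ≤ c1),
        max_eq_left h1]
  refine ⟨v, hvWL, fun x => le_max_right _ _, ?_⟩
  have J0 := J_bound (X := X) hc h0 b0'.2 hX
  have J1 := J_bound (X := X) hc h1 b1'.2 hX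
  have J1' : ∫ x in (0 : ℝ)..X, (phi (max (c1 - (X - x)) c) - phi c) =
      ∫ x in (0 : ℝ)..X, (phi (max (c1 - x) c) - phi c) := by
    rw [intervalIntegral.integral_comp_sub_left (fun x => phi (max (c1 - x) c) - phi c) X]
    simp
  rw [← J1'] at J1
  -- integrability
  have hi0 : IntervalIntegrable (fun x => phi (max (c0 - x) c) - phi c) volume 0 X := by
    apply ContinuousOn.intervalIntegrable
    rw [uIcc_of_le hX]
    apply ContinuousOn.sub _ continuousOn_const
    unfold phi
    refine ContinuousOn.div (by fun_prop) (by fun_prop) ?_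
    intro x hx
    apply (Real.sqrt_pos.2 (one_sub_sq_pos _)).ne'
    rw [abs_lt]
    exact ⟨lt_of_lt_of_le hc'.1 (le_max_right _ _), max_lt (by linarith [hx.1]) hc'.2⟩
  have hi1 : IntervalIntegrable (fun x => phi (max (c1 - (X - x)) c) - phi c) volume 0 X := by
    apply ContinuousOn.intervalIntegrable
    rw [uIcc_of_le hX]
    apply ContinuousOn.sub _ continuousOn_const
    unfold phi
    refine ContinuousOn.div (by fun_prop) (by fun_prop) ?_
    intro x hx
    apply (Real.sqrt_pos.2 (one_sub_sq_pos _)).ne'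
    rw [abs_lt]
    exact ⟨lt_of_lt_of_le hc'.1 (le_max_right _ _), max_lt (by linarith [hx.2]) hc'.2⟩
  have hic : IntervalIntegrable (fun _ : ℝ => phi c) volume 0 X :=
    continuous_const.intervalIntegrable _ _
  have hbound : Phi X v ≤ ∫ x in (0 : ℝ)..X, (phi c + (phi (max (c0 - x) c) - phi c) +
      (phi (max (c1 - (X - x)) c) - phi c)) := by
    unfold Phi
    apply intervalIntegral.integral_mono_on hX
    · exact (continuous_phi_comp hvWL.cont hvWL.bd).intervalIntegrable _ _
    · exact (hic.add hi0).add hi1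
    · intro x hx
      have m0 : |max (c0 - x) c| < 1 := by
        rw [abs_lt]
        exact ⟨lt_of_lt_of_le hc'.1 (le_max_right _ _), max_lt (by linarith [hx.1]) hc'.2⟩
      have m1 : |max (c1 - (X - x)) c| < 1 := by
        rw [abs_lt]
        exact ⟨lt_of_lt_of_le hc'.1 (le_max_right _ _), max_lt (by linarith [hx.2]) hc'.2⟩
      have n0 := phi_mono hc m0 (le_max_right _ _)
      have n1 := phi_mono hc m1 (le_max_right _ _)
      have e : v x = max (max (c0 - x) c) (max (c1 - (X - x)) c) := by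
        simp only [hv]
        rw [hprid x hx, max_max_max_comm, max_self]
      rw [e]
      rcases max_choice (max (c0 - x) c) (max (c1 - (X - x)) c) with h | h <;> rw [h] <;> linarith
  rw [intervalIntegral.integral_add (hic.add hi0) hi1, intervalIntegral.integral_add hic hi0] at hbound
  have ec : ∫ x in (0 : ℝ)..X, phi c = X * phi c := by simp
  rw [ec] at hbound
  linarith

theorem exists_above {X c0 c1 c Y : ℝ} {w : ℝ → ℝ} (hX : 0 ≤ X) (hw : WL X c0 c1 w)
    (hY : Phi X w = Y) (hc : |c| < 1)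
    (h0 : c ≤ c0) (h1 : c ≤ c1)
    (hb : X * phi c + 2 * √(1 - c ^ 2) - √(1 - c0 ^ 2) - √(1 - c1 ^ 2) -
        (c0 + c1 - 2 * c) * phi c ≤ Y) :
    ∃ w' : ℝ → ℝ, WL X c0 c1 w' ∧ Phi X w' = Y ∧ ∀ x, c ≤ w' x := by
  obtain ⟨v, hv, hvc, hvb⟩ := exists_min hX hw hc h0 h1
  have hM := hw.sup hv
  set M : ℝ → ℝ := fun x => max (w x) (v x) with hMdef
  have hMY : Y ≤ Phi X M := by
    rw [← hY]
    exact Phi_mono hX hw hM fun x _ => le_max_left _ _
  have hcont : Continuous fun t : ℝ => Phi X (gg v M t 0) :=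
    (continuous_Phi_gg hv hM).comp (continuous_id.prodMk continuous_const)
  have hgg : ∀ t x, gg v M t 0 x = (1 - cl t) * v x + cl t * M x := by
    intro t x
    rw [gg_of_nonneg le_rfl, cl_of_le le_rfl]
    ring
  have e0 : gg v M 0 0 = v := by
    funext x
    rw [hgg, cl_of_le le_rfl]
    ring
  have e1 : gg v M 1 0 = M := by
    funext x
    rw [hgg, cl_of_ge le_rfl]
    ring
  have h := intermediate_value_Icc zero_le_one hcont.continuousOn
  simp only [e0, e1] at h
  obtain ⟨t, ht, htY⟩ := h ⟨hvb.trans hb, hMY⟩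
  refine ⟨gg v M t 0, gg_WL hv hM t 0, htY, ?_⟩
  intro x
  rw [hgg]
  have m := cl_mem t
  have m1 : 0 ≤ 1 - cl t := sub_nonneg.2 m.2
  have a1 := mul_le_mul_of_nonneg_left (hvc x) m1
  have a2 := mul_le_mul_of_nonneg_left ((hvc x).trans (le_max_right (w x) (v x))) m.1
  simp only [hMdef]
  linarith

end Pool.Agent.Helper70.Dubins
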