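import Pool.Agent.Helper70.Dubins.PartOneB

set_option autoImplicit false

open Set Filter Topology MeasureTheory

namespace Pool.Agent.Helper70.Dubins

theorem proj {q : ℂ} {θ₁ L : ℝ} {α : C(ℝ, ℝ)} (hg : Good q θ₁ L α) (β : ℝ) :
    ∫ s in (0 : ℝ)..L, E (α s - β) = q * E (-β) := by
  rw [← hg.disp, ← intervalIntegral.integral_mul_const]
  apply intervalIntegral.integral_congr
  intro s _
  show E (α s - β) = E (α s) * E (-β)
  rw [← E_add, sub_eq_add_neg]

theorem proj_cos {q : ℂ} {θ₁ L : ℝ} {α : C(ℝ, ℝ)} (hg : Good q θ₁ L α) (β : ℝ) :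
    ∫ s in (0 : ℝ)..L, Real.cos (α s - β) = (q * E (-β)).re := by
  rw [← proj hg β]
  have hc : Continuous fun s => E (α s - β) := continuous_E.comp (by fun_prop)
  have h := Complex.reCLM.intervalIntegral_comp_comm (hc.intervalIntegrable (μ := volume) 0 L)
  simp only [Complex.reCLM_apply, E_re] at h
  exact h

theorem proj_sin {q : ℂ} {θ₁ L : ℝ} {α : C(ℝ, ℝ)} (hg : Good q θ₁ L α) (β : ℝ) :
    ∫ s in (0 : ℝ)..L, Real.sin (α s - β) = (q * E (-β)).im := by
  rw [← proj hg β]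
  have hc : Continuous fun s => E (α s - β) := continuous_E.comp (by fun_prop)
  have h := Complex.imCLM.intervalIntegral_comp_comm (hc.intervalIntegrable (μ := volume) 0 L)
  simp only [Complex.imCLM_apply, E_im] at h
  exact h

theorem Good.speedLe {q : ℂ} {θ₁ L : ℝ} {α : C(ℝ, ℝ)} (hg : Good q θ₁ L α) :
    SpeedLe 0 L (fun _ => 1) α := by
  intro s _ t _ hst
  have := hg.lip t s
  rw [abs_of_nonneg (sub_nonneg.2 hst)] at this
  simpa using this

theorem tv {q : ℂ} {θ₁ L : ℝ} {α : C(ℝ, ℝ)} (hg : Good q θ₁ L α) {G g : ℝ → ℝ}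
    (hG : ∀ x, HasDerivAt G (g x) x) (hgc : Continuous g) (hg0 : ∀ s ∈ Icc 0 L, 0 ≤ g (α s))
    {s t : ℝ} (hs : s ∈ Icc 0 L) (ht : t ∈ Icc 0 L) (hst : s ≤ t) :
    |G (α t) - G (α s)| ≤ ∫ x in s..t, g (α x) := by
  have hGc : Continuous G := continuous_iff_continuousAt.2 fun x => (hG x).continuousAt
  have h := comp_bound (θ := α) (v := fun _ => 1) (G := G) (G' := g) α.continuous
    continuous_const hg.speedLe (fun x _ => hG _) (by fun_prop) (by fun_prop) s hs t ht hst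
  refine h.trans (le_of_eq ?_)
  apply intervalIntegral.integral_congr
  intro x hx
  rw [uIcc_of_le hst] at hx
  simp only
  rw [abs_of_nonneg (hg0 x ⟨hs.1.trans hx.1, hx.2.trans ht.2⟩), mul_one]

theorem tv_main {q : ℂ} {θ₁ L : ℝ} {α : C(ℝ, ℝ)} (hg : Good q θ₁ L α) {G g : ℝ → ℝ}
    (hG : ∀ x, HasDerivAt G (g x) x) (hgc : Continuous g) (hg0 : ∀ s ∈ Icc 0 L, 0 ≤ g (α s))
    (hle : G 0 ≤ G θ₁) {a b : ℝ} (ha : a ∈ Icc 0 L) (hb : b ∈ Icc 0 L) :
    2 * (G (α b) - G (α a)) - (G θ₁ - G 0) ≤ ∫ x in (0 : ℝ)..L, g (α x) := by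
  have hL : (0 : ℝ) ≤ L := hg.pos.le
  have h0 : (0 : ℝ) ∈ Icc 0 L := ⟨le_rfl, hL⟩
  have h1 : L ∈ Icc 0 L := ⟨hL, le_rfl⟩
  have hi : ∀ a b, IntervalIntegrable (fun x => g (α x)) volume a b := fun a b =>
    (hgc.comp α.continuous).intervalIntegrable a b
  have z := hg.zero
  have e := hg.endp
  rcases le_total a b with hab | hab
  · rw [← intervalIntegral.integral_add_adjacent_intervals (hi 0 a) (hi a L),
      ← intervalIntegral.integral_add_adjacent_intervals (hi a b) (hi b L)]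
    have i1 := tv hg hG hgc hg0 h0 ha ha.1
    have i2 := tv hg hG hgc hg0 ha hb hab
    have i3 := tv hg hG hgc hg0 hb h1 hb.2
    rw [z] at i1
    rw [e] at i3
    have j1 := neg_abs_le (G (α a) - G 0)
    have j2 := le_abs_self (G (α b) - G (α a))
    have j3 := neg_abs_le (G θ₁ - G (α b))
    linarith
  · rw [← intervalIntegral.integral_add_adjacent_intervals (hi 0 b) (hi b L),
      ← intervalIntegral.integral_add_adjacent_intervals (hi b a) (hi a L)]
    have i1 := tv hg hG hgc hg0 h0 hb hb.1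
    have i2 := tv hg hG hgc hg0 hb ha hab
    have i3 := tv hg hG hgc hg0 ha h1 ha.2
    rw [z] at i1
    rw [e] at i3
    have j1 := le_abs_self (G (α b) - G 0)
    have j2 := neg_abs_le (G (α a) - G (α b))
    have j3 := le_abs_self (G θ₁ - G (α a))
    linarith

theorem tv_two {q : ℂ} {θ₁ L : ℝ} {α : C(ℝ, ℝ)} (hg : Good q θ₁ L α) {G g : ℝ → ℝ}
    (hG : ∀ x, HasDerivAt G (g x) x) (hgc : Continuous g) (hg0 : ∀ s ∈ Icc 0 L, 0 ≤ g (α s))
    {b : ℝ} (hb : b ∈ Icc 0 L) :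
    |2 * G (α b) - G 0 - G θ₁| ≤ ∫ x in (0 : ℝ)..L, g (α x) := by
  have hL : (0 : ℝ) ≤ L := hg.pos.le
  have h0 : (0 : ℝ) ∈ Icc 0 L := ⟨le_rfl, hL⟩
  have h1 : L ∈ Icc 0 L := ⟨hL, le_rfl⟩
  have hi : ∀ a b, IntervalIntegrable (fun x => g (α x)) volume a b := fun a b =>
    (hgc.comp α.continuous).intervalIntegrable a b
  have z := hg.zero
  have e := hg.endp
  rw [← intervalIntegral.integral_add_adjacent_intervals (hi 0 b) (hi b L)]
  have i1 := tv hg hG hgc hg0 h0 hb hb.1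
  have i3 := tv hg hG hgc hg0 hb h1 hb.2
  rw [z] at i1
  rw [e] at i3
  have j1 := neg_abs_le (G (α b) - G 0)
  have j3 := neg_abs_le (G θ₁ - G (α b))
  have j1' := le_abs_self (G (α b) - G 0)
  have j3' := le_abs_self (G θ₁ - G (α b))
  rw [abs_le]
  constructor <;> linarith

/-- the length bound by total variation -/
theorem length_ge {q : ℂ} {θ₁ L : ℝ} {α : C(ℝ, ℝ)} (hθ₁ : 0 ≤ θ₁) (hg : Good q θ₁ L α)
    {a b : ℝ} (ha : a ∈ Icc 0 L) (hb : b ∈ Icc 0 L) :
    2 * (α b - α a) - θ₁ ≤ L := by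
  have h := tv_main (G := id) (g := fun _ => 1) hg (fun x => hasDerivAt_id x) continuous_const
    (fun _ _ => zero_le_one) (by simpa using hθ₁) ha hb
  simpa using h

/-- the basic quantity `Q' e^{-iβ}` -/
noncomputable def ff (q : ℂ) (θ₁ β : ℝ) : ℂ := (q + Complex.I - Complex.I * E θ₁) * E (-β)

theorem ff_re (q : ℂ) (θ₁ β : ℝ) :
    (ff q θ₁ β).re = (q * E (-β)).re + Real.sin (θ₁ - β) + Real.sin β := by
  have h : ff q θ₁ β = q * E (-β) + Complex.I * E (-β) - Complex.I * E (θ₁ - β) := by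
    unfold ff
    rw [sub_eq_add_neg θ₁, E_add]
    ring
  rw [h]
  simp [E_re, E_im]
  ring

theorem ff_im (q : ℂ) (θ₁ β : ℝ) :
    (ff q θ₁ β).im = (q * E (-β)).im - Real.cos (θ₁ - β) + Real.cos β := by
  have h : ff q θ₁ β = q * E (-β) + Complex.I * E (-β) - Complex.I * E (θ₁ - β) := by
    unfold ff
    rw [sub_eq_add_neg θ₁, E_add]
    ring
  rw [h]
  simp [E_re, E_im]
  ring

/-- the basic inequality for curves with angles filling `[β - h, β + h]` -/
theorem main_ineq {q : ℂ} {θ₁ L : ℝ} {α : C(ℝ, ℝ)} (hθ₁ : 0 ≤ θ₁) (hg : Good q θ₁ L α)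
    {a b β h : ℝ} (ha : a ∈ Icc 0 L) (hb : b ∈ Icc 0 L) (hh : h ≤ Real.pi / 2)
    (hαa : α a = β - h) (hαb : α b = β + h)
    (hr : ∀ s ∈ Icc 0 L, β - h ≤ α s ∧ α s ≤ β + h) :
    4 * Real.sin h + (L - 4 * h + θ₁) * Real.cos h ≤ (ff q θ₁ β).re := by
  have hpi := Real.pi_pos
  set G : ℝ → ℝ := fun x => Real.sin (x - β) - (x - β) * Real.cos h with hGdef
  set g : ℝ → ℝ := fun x => Real.cos (x - β) - Real.cos h with hgdef
  have hG : ∀ x, HasDerivAt G (g x) x := by
    intro x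
    have h1 : HasDerivAt (fun x => x - β) 1 x := (hasDerivAt_id x).sub_const β
    have h2 := h1.sin
    have h3 := h1.mul_const (Real.cos h)
    have h4 := h2.sub h3
    rw [mul_one, one_mul] at h4
    exact h4
  have hgc : Continuous g := by fun_prop
  have hge : ∀ x, β - h ≤ x → x ≤ β + h → 0 ≤ g x := by
    intro x hx1 hx2
    simp only [hgdef]
    have habs : |x - β| ≤ h := abs_le.2 ⟨by linarith, by linarith⟩
    have : Real.cos h ≤ Real.cos (x - β) := by
      rw [← Real.cos_abs (x - β)]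
      exact Real.cos_le_cos_of_nonneg_of_le_pi (abs_nonneg _) (by linarith) habs
    linarith
  have hL : (0 : ℝ) ≤ L := hg.pos.le
  have hm0 := hr 0 ⟨le_rfl, hL⟩
  have hm1 := hr L ⟨hL, le_rfl⟩
  rw [hg.zero] at hm0
  rw [hg.endp] at hm1
  have hmono : MonotoneOn G (Icc (β - h) (β + h)) := by
    apply monotoneOn_of_deriv_nonneg (convex_Icc _ _)
    · exact (continuous_iff_continuousAt.2 fun x => (hG x).continuousAt).continuousOn
    · exact fun x _ => (hG x).differentiableAt.differentiableWithinAt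
    · intro x hx
      rw [interior_Icc] at hx
      rw [(hG x).deriv]
      exact hge x hx.1.le hx.2.le
  have hle : G 0 ≤ G θ₁ := hmono hm0 hm1 hθ₁
  have key := tv_main hg hG hgc (fun s hs => hge _ (hr s hs).1 (hr s hs).2) hle ha hb
  have hint : ∫ x in (0 : ℝ)..L, g (α x) = (q * E (-β)).re - L * Real.cos h := by
    have h1 : Continuous fun x => Real.cos (α x - β) := by fun_prop
    simp only [hgdef]
    rw [intervalIntegral.integral_sub (h1.intervalIntegrable _ _)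
      (continuous_const.intervalIntegrable _ _), proj_cos hg]
    simp
  rw [hint, hαa, hαb] at key
  simp only [hGdef] at key
  have e1 : β + h - β = h := by ring
  have e2 : β - h - β = -h := by ring
  have e3 : (0 : ℝ) - β = -β := by ring
  rw [e1, e2, e3, Real.sin_neg, Real.sin_neg] at key
  rw [ff_re]
  linarith

end Pool.Agent.Helper70.Dubins
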