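import Pool.Agent.Helper70.Dubins.Ineq

set_option autoImplicit false

open Set Filter Topology MeasureTheory

namespace Pool.Agent.Helper70.Dubins

theorem range_facts {L : ℝ} (hL : 0 ≤ L) (α : C(ℝ, ℝ)) :
    ∃ a ∈ Icc 0 L, ∃ b ∈ Icc 0 L, (∀ s ∈ Icc 0 L, α a ≤ α s ∧ α s ≤ α b) ∧
      amplitude L α = α b - α a := by
  have hne : (Icc 0 L).Nonempty := ⟨0, le_rfl, hL⟩
  obtain ⟨a, ha, ha'⟩ := isCompact_Icc.exists_isMinOn hne α.continuous.continuousOn
  obtain ⟨b, hb, hb'⟩ := isCompact_Icc.exists_isMaxOn hne α.continuous.continuousOn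
  refine ⟨a, ha, b, hb, fun s hs => ⟨ha' hs, hb' hs⟩, ?_⟩
  have h1 : IsGreatest (α '' Icc 0 L) (α b) := ⟨mem_image_of_mem _ hb, by
    rintro _ ⟨s, hs, rfl⟩
    exact hb' hs⟩
  have h2 : IsLeast (α '' Icc 0 L) (α a) := ⟨mem_image_of_mem _ ha, by
    rintro _ ⟨s, hs, rfl⟩
    exact ha' hs⟩
  unfold amplitude
  rw [h1.csSup_eq, h2.csInf_eq]

theorem amplitude_congr {L : ℝ} {θ θ' : ℝ → ℝ} (h : ∀ s ∈ Icc 0 L, θ' s = θ s) :
    amplitude L θ' = amplitude L θ := by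
  unfold amplitude
  rw [image_congr h]

theorem four_le {h : ℝ} (h0 : 0 ≤ h) (h1 : h ≤ Real.pi / 2) :
    4 ≤ 4 * Real.sin h + (2 * Real.pi - 4 * h) * Real.cos h := by
  set k : ℝ → ℝ := fun h => 4 * Real.sin h + (2 * Real.pi - 4 * h) * Real.cos h with hk
  have hd : ∀ x, HasDerivAt k (-((2 * Real.pi - 4 * x) * Real.sin x)) x := by
    intro x
    have d1 := (Real.hasDerivAt_sin x).const_mul 4
    have d2 : HasDerivAt (fun x : ℝ => 2 * Real.pi - 4 * x) (-4) x := by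
      have := ((hasDerivAt_id x).const_mul 4).const_sub (2 * Real.pi)
      simpa using this
    have d3 := d2.mul (Real.hasDerivAt_cos x)
    have d4 : HasDerivAt k (4 * Real.cos x +
        (-4 * Real.cos x + (2 * Real.pi - 4 * x) * -Real.sin x)) x := d1.add d3
    have e : 4 * Real.cos x + (-4 * Real.cos x + (2 * Real.pi - 4 * x) * -Real.sin x) =
        -((2 * Real.pi - 4 * x) * Real.sin x) := by ring
    rwa [e] at d4
  have hanti : AntitoneOn k (Icc 0 (Real.pi / 2)) := by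
    apply antitoneOn_of_deriv_nonpos (convex_Icc _ _)
    · exact (continuous_iff_continuousAt.2 fun x => (hd x).continuousAt).continuousOn
    · exact fun x _ => (hd x).differentiableAt.differentiableWithinAt
    · intro x hx
      rw [interior_Icc] at hx
      rw [(hd x).deriv]
      have s1 : 0 ≤ Real.sin x := Real.sin_nonneg_of_nonneg_of_le_pi hx.1.le
        (by linarith [hx.2, Real.pi_pos])
      have s2 : 0 ≤ 2 * Real.pi - 4 * x := by linarith [hx.2]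
      have := mul_nonneg s2 s1
      linarith
  have hpi := Real.pi_pos
  have := hanti ⟨h0, h1⟩ ⟨by positivity, le_rfl⟩ h1
  simp only [hk, Real.sin_pi_div_two, Real.cos_pi_div_two] at this
  linarith

theorem condensed_le {q : ℂ} {θ₁ L : ℝ} {α : C(ℝ, ℝ)} (hθ₁ : 0 ≤ θ₁) (hg : Good q θ₁ L α)
    (hamp : amplitude L α < Real.pi) {η : ℝ} (hη : 0 < η)
    (hf : ∀ β ∈ Icc (θ₁ - Real.pi / 2) (Real.pi / 2), (ff q θ₁ β).re ≤ 4 - η) :
    L ≤ 2 * Real.pi - θ₁ - η := by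
  obtain ⟨a, ha, b, hb, hr, hA⟩ := range_facts hg.pos.le α
  have hL : (0 : ℝ) ≤ L := hg.pos.le
  have hm0 := hr 0 ⟨le_rfl, hL⟩
  have hm1 := hr L ⟨hL, le_rfl⟩
  rw [hg.zero] at hm0
  rw [hg.endp] at hm1
  set β := (α a + α b) / 2 with hβ
  set h := (α b - α a) / 2 with hh
  have hh1 : h < Real.pi / 2 := by
    rw [hA] at hamp
    linarith
  have hh0 : 0 ≤ h := by linarith
  have e1 : α a = β - h := by linarith
  have e2 : α b = β + h := by linarith
  have hβm : β ∈ Icc (θ₁ - Real.pi / 2) (Real.pi / 2) := by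
    constructor <;> linarith
  have key := main_ineq hθ₁ hg ha hb hh1.le e1 e2 (fun s hs => by
    rw [← e1, ← e2]
    exact hr s hs)
  have h4 := four_le hh0 hh1.le
  have h5 := hf β hβm
  have hcos : 0 < Real.cos h := Real.cos_pos_of_mem_Ioo ⟨by linarith, hh1⟩
  have hcos1 : Real.cos h ≤ 1 := Real.cos_le_one h
  have h6 : η ≤ (2 * Real.pi - θ₁ - L) * Real.cos h := by linarith
  have h7 : 0 < 2 * Real.pi - θ₁ - L := by
    by_contra hcon
    push Not at hcon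
    have := mul_nonpos_of_nonpos_of_nonneg hcon hcos.le
    linarith
  have h8 := mul_le_mul_of_nonneg_left hcos1 h7.le
  linarith

/-- The length separation, given that no angle `β` has `f β ≥ 4`. -/
theorem separation {q : ℂ} {θ₁ : ℝ} (hθ₁ : 0 ≤ θ₁)
    (hf : ∀ β ∈ Icc (θ₁ - Real.pi / 2) (Real.pi / 2), (ff q θ₁ β).re < 4)
    (hc : (condensedLengths q θ₁).Nonempty) (hd : (diffuseLengths q θ₁).Nonempty) :
    BddAbove (condensedLengths q θ₁) ∧ sSup (condensedLengths q θ₁) < sInf (diffuseLengths q θ₁) := by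
  -- the interval is nonempty
  have hne : (Icc (θ₁ - Real.pi / 2) (Real.pi / 2)).Nonempty := by
    obtain ⟨L, γ, θ, hD, hamp⟩ := hc
    obtain ⟨α, hg, hα, -⟩ := good_of_isDubins hD
    rw [← amplitude_congr hα] at hamp
    obtain ⟨a, ha, b, hb, hr, hA⟩ := range_facts hg.pos.le α
    have hL : (0 : ℝ) ≤ L := hg.pos.le
    have hm0 := hr 0 ⟨le_rfl, hL⟩
    have hm1 := hr L ⟨hL, le_rfl⟩
    rw [hg.zero] at hm0
    rw [hg.endp] at hm1
    rw [nonempty_Icc]
    linarith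
  have hcont : ContinuousOn (fun β => (ff q θ₁ β).re) (Icc (θ₁ - Real.pi / 2) (Real.pi / 2)) := by
    apply Continuous.continuousOn
    unfold ff
    have : Continuous fun β : ℝ => E (-β) := continuous_E.comp continuous_neg
    fun_prop
  obtain ⟨β₀, hβ₀, hmax⟩ := isCompact_Icc.exists_isMaxOn hne hcont
  set η := 4 - (ff q θ₁ β₀).re with hη
  have hη0 : 0 < η := by
    have := hf β₀ hβ₀
    linarith
  have hf' : ∀ β ∈ Icc (θ₁ - Real.pi / 2) (Real.pi / 2), (ff q θ₁ β).re ≤ 4 - η := by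
    intro β hβ
    have : (ff q θ₁ β).re ≤ (ff q θ₁ β₀).re := hmax hβ
    linarith
  have hcl : ∀ L ∈ condensedLengths q θ₁, L ≤ 2 * Real.pi - θ₁ - η := by
    rintro L ⟨γ, θ, hD, hamp⟩
    obtain ⟨α, hg, hα, -⟩ := good_of_isDubins hD
    rw [← amplitude_congr hα] at hamp
    exact condensed_le hθ₁ hg hamp hη0 hf'
  have hdl : ∀ L ∈ diffuseLengths q θ₁, 2 * Real.pi - θ₁ ≤ L := by
    rintro L ⟨γ, θ, hD, hamp⟩
    obtain ⟨α, hg, hα, -⟩ := good_of_isDubins hD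
    rw [← amplitude_congr hα] at hamp
    obtain ⟨a, ha, b, hb, hr, hA⟩ := range_facts hg.pos.le α
    have := length_ge hθ₁ hg ha hb
    linarith
  refine ⟨⟨_, fun L hL => hcl L hL⟩, ?_⟩
  have h1 : sSup (condensedLengths q θ₁) ≤ 2 * Real.pi - θ₁ - η := csSup_le hc hcl
  have h2 : 2 * Real.pi - θ₁ ≤ sInf (diffuseLengths q θ₁) := le_csInf hd hdl
  linarith

/-- All curves of amplitude at least `π` have two opposite tangents. -/
theorem exists_opp {L : ℝ} (hL : 0 ≤ L) (α : C(ℝ, ℝ)) (hamp : Real.pi ≤ amplitude L α) :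
    ∃ t₁ t₂ : ℝ, 0 ≤ t₁ ∧ t₁ ≤ t₂ ∧ t₂ ≤ L ∧ |α t₂ - α t₁| = Real.pi := by
  obtain ⟨a, ha, b, hb, hr, hA⟩ := range_facts hL α
  have hpi := Real.pi_pos
  have hmem : α a + Real.pi ∈ uIcc (α a) (α b) := by
    rw [uIcc_of_le (by linarith)]
    constructor <;> linarith
  obtain ⟨t, ht, hαt⟩ := intermediate_value_uIcc (α.continuous.continuousOn (s := uIcc a b)) hmem
  have htL : t ∈ Icc 0 L := by
    have h1 : uIcc a b ⊆ Icc 0 L := uIcc_subset_Icc ha hb
    exact h1 ht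
  rcases le_total a t with h | h
  · refine ⟨a, t, ha.1, h, htL.2, ?_⟩
    rw [hαt, add_sub_cancel_left, abs_of_pos hpi]
  · refine ⟨t, a, htL.1, h, ha.2, ?_⟩
    rw [hαt, abs_sub_comm, add_sub_cancel_left, abs_of_pos hpi]

theorem conn_of_large {q : ℂ} {θ₁ L L' : ℝ} {α α' : C(ℝ, ℝ)} (hθ₁ : 0 ≤ θ₁) (hg : Good q θ₁ L α)
    (hg' : Good q θ₁ L' α') (h : Real.pi ≤ amplitude L α) (h' : Real.pi ≤ amplitude L' α') :
    Conn q θ₁ (mk L α) (mk L' α') := by
  obtain ⟨t₁, t₂, h1, h2, h3, h4⟩ := exists_opp hg.pos.le α h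
  obtain ⟨t₁', t₂', h1', h2', h3', h4'⟩ := exists_opp hg'.pos.le α' h'
  exact conn_of_opp hθ₁ hg hg' h1 h2 h3 h4 h1' h2' h3' h4'

end Pool.Agent.Helper70.Dubins
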