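import Pool.Agent.Helper70.Dubins.FrameC

set_option autoImplicit false

open Set Filter Topology MeasureTheory

namespace Pool.Agent.Helper70.Dubins

theorem IsElt.facts {q : ℂ} {θ₁ T : ℝ} {V θ : ℝ → ℝ} {p : C(unitInterval, ℂ) × C(unitInterval, ℂ)}
    (h : Adm q θ₁ T V θ) (hp : IsElt q θ₁ T V θ p) :
    ∃ (L : ℝ) (α : C(ℝ, ℝ)), Good q θ₁ L α ∧ p = mk L α ∧
      ∀ s ∈ Icc 0 L, ∃ t ∈ Icc 0 T, α s = θ t := by
  obtain ⟨α, hg, hα, hpα⟩ := hp
  refine ⟨V T, α, hg, hpα, ?_⟩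
  intro s hs
  obtain ⟨t, ht, rfl⟩ := exists_time h.T0 h.Vc h.V0 hs
  exact ⟨t, ht, hα t ht⟩

theorem phi_neg (u : ℝ) : phi (-u) = -phi u := by
  unfold phi
  rw [neg_sq, neg_div]

theorem Phi_neg (X : ℝ) (w : ℝ → ℝ) : Phi X (fun x => -w x) = -Phi X w := by
  unfold Phi
  simp only [phi_neg]
  exact intervalIntegral.integral_neg

theorem ff_shift (q : ℂ) (θ₁ β x : ℝ) : ff q θ₁ (β + x) = ff q θ₁ β * E (-x) := by
  unfold ff
  rw [neg_add, E_add]
  ring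

theorem rot_im (q : ℂ) (β p : ℝ) :
    (q * E (-p)).im = (q * E (-β)).im * Real.cos (p - β) - (q * E (-β)).re * Real.sin (p - β) := by
  have h : q * E (-p) = q * E (-β) * E (-(p - β)) := by
    rw [mul_assoc, ← E_add]
    congr 2
    ring
  rw [h, Complex.mul_im, E_re, E_im, Real.cos_neg, Real.sin_neg]
  ring

theorem sqrt_sin {x : ℝ} (h : |x| < Real.pi / 2) : √(1 - Real.sin x ^ 2) = Real.cos x := by
  have := abs_lt.1 h
  rw [← Real.cos_eq_sqrt_one_sub_sin_sq (by linarith) (by linarith)]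

theorem abs_sin_lt {x : ℝ} (h : |x| < Real.pi / 2) : |Real.sin x| < 1 := by
  have h' := abs_lt.1 h
  have hc : 0 < Real.cos x := Real.cos_pos_of_mem_Ioo h'
  have := Real.sin_sq_add_cos_sq x
  rw [← sq_lt_one_iff_abs_lt_one]
  nlinarith

/-- the algebra of the bound -/
theorem bound_alg {q : ℂ} {θ₁ β p X Y : ℝ} (hX : X = (q * E (-β)).re)
    (hY : Y = (q * E (-β)).im) (hp : |p - β| < Real.pi / 2) (hβ : |β| < Real.pi / 2)
    (hβ1 : |θ₁ - β| < Real.pi / 2)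
    (h : 2 - Real.cos p - Real.cos (θ₁ - p) ≤ (q * E (-p)).im) :
    X * phi (Real.sin (p - β)) + 2 * √(1 - Real.sin (p - β) ^ 2) - √(1 - Real.sin (-β) ^ 2) -
      √(1 - Real.sin (θ₁ - β) ^ 2) -
      (Real.sin (-β) + Real.sin (θ₁ - β) - 2 * Real.sin (p - β)) * phi (Real.sin (p - β)) ≤ Y := by
  rw [rot_im q β p, ← hX, ← hY] at h
  unfold phi
  rw [sqrt_sin hp, sqrt_sin hβ1, sqrt_sin (by rwa [abs_neg] : |-β| < Real.pi / 2)]
  have hs : 0 < Real.cos (p - β) := Real.cos_pos_of_mem_Ioo (abs_lt.1 hp)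
  have e1 : Real.cos p = Real.cos (p - β) * Real.cos (-β) + Real.sin (p - β) * Real.sin (-β) := by
    have := Real.cos_sub (p - β) (-β)
    rw [← this]
    congr 1
    ring
  have e2 : Real.cos (θ₁ - p) =
      Real.cos (p - β) * Real.cos (θ₁ - β) + Real.sin (p - β) * Real.sin (θ₁ - β) := by
    have := Real.cos_sub (p - β) (θ₁ - β)
    rw [← this, ← Real.cos_neg]
    congr 1
    ring
  rw [e1, e2] at h
  have hsc := Real.sin_sq_add_cos_sq (p - β)
  set s := Real.cos (p - β) with hsdef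
  set c := Real.sin (p - β) with hcdef
  have key : s * (X * (c / s) + 2 * s - Real.cos (-β) - Real.cos (θ₁ - β) -
      (Real.sin (-β) + Real.sin (θ₁ - β) - 2 * c) * (c / s)) ≤ s * Y := by
    have e3 : s * (X * (c / s) + 2 * s - Real.cos (-β) - Real.cos (θ₁ - β) -
      (Real.sin (-β) + Real.sin (θ₁ - β) - 2 * c) * (c / s)) =
      X * c + 2 * s ^ 2 - s * Real.cos (-β) - s * Real.cos (θ₁ - β) -
      (Real.sin (-β) + Real.sin (θ₁ - β) - 2 * c) * c := by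
      field_simp
    rw [e3]
    nlinarith
  exact le_of_mul_le_mul_left key hs

theorem frame_zero {q : ℂ} {θ₁ L : ℝ} {α : C(ℝ, ℝ)} (hg : Good q θ₁ L α) {β : ℝ}
    (hβ : ∀ s ∈ Icc 0 L, |α s - β| < Real.pi / 2) :
    |β| < Real.pi / 2 ∧ |θ₁ - β| < Real.pi / 2 := by
  have h0 := hβ 0 ⟨le_rfl, hg.pos.le⟩
  have h1 := hβ L ⟨hg.pos.le, le_rfl⟩
  rw [hg.zero, zero_sub, abs_neg] at h0
  rw [hg.endp] at h1
  exact ⟨h0, h1⟩

/-- a curve in the frame `β` can be moved above the angle `p` -/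
theorem move_up {q : ℂ} {θ₁ L : ℝ} {α : C(ℝ, ℝ)} (hg : Good q θ₁ L α) {β : ℝ}
    (hβ : ∀ s ∈ Icc 0 L, |α s - β| < Real.pi / 2) {p : ℝ} (hp : |p - β| < Real.pi / 2)
    (hp0 : p ≤ 0) (hp1 : p ≤ θ₁) (h : 2 - Real.cos p - Real.cos (θ₁ - p) ≤ (q * E (-p)).im) :
    ∃ (L' : ℝ) (α' : C(ℝ, ℝ)), Good q θ₁ L' α' ∧ Conn q θ₁ (mk L α) (mk L' α') ∧
      ∀ s ∈ Icc 0 L', p ≤ α' s ∧ α' s < β + Real.pi / 2 := by
  obtain ⟨hb, hb1⟩ := frame_zero hg hβ
  have hb' := abs_lt.1 hb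
  have hb1' := abs_lt.1 hb1
  have hp' := abs_lt.1 hp
  obtain ⟨hX, w, hw, hY, hel⟩ := exists_W hg hβ
  have h0 : Real.sin (p - β) ≤ Real.sin (-β) :=
    Real.sin_le_sin_of_le_of_le_pi_div_two (by linarith) (by linarith) (by linarith)
  have h1 : Real.sin (p - β) ≤ Real.sin (θ₁ - β) :=
    Real.sin_le_sin_of_le_of_le_pi_div_two (by linarith) (by linarith) (by linarith)
  obtain ⟨w', hw', hY', habove⟩ := exists_above hX.le hw hY.symm (abs_sin_lt hp) h0 h1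
    (bound_alg rfl rfl hp hb hb1 h)
  have hadm := hw'.adm hb hb1 hX rfl hY'.symm
  obtain ⟨p', hp'⟩ := hadm.exists_elt
  have hconn := conn_frame hb hb1 hX hw hw' rfl hY hY'.symm hel hp'
  obtain ⟨L', α', hg', rfl, hfacts⟩ := hp'.facts hadm
  refine ⟨L', α', hg', hconn, ?_⟩
  intro s hs
  obtain ⟨t, _, ht⟩ := hfacts s hs
  rw [ht]
  unfold angW
  have hbd := abs_lt.1 (hw'.bd t)
  constructor
  · have h2 : p - β ≤ Real.arcsin (w' t) := by
      rw [Real.le_arcsin_iff_sin_le' ⟨by linarith, by linarith⟩]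
      exact habove t
    linarith
  · have h2 : Real.arcsin (w' t) < Real.pi / 2 := Real.arcsin_lt_pi_div_two.2 hbd.2
    linarith

/-- a curve in the frame `β` can be moved below the angle `p` -/
theorem move_down {q : ℂ} {θ₁ L : ℝ} {α : C(ℝ, ℝ)} (hg : Good q θ₁ L α) {β : ℝ}
    (hβ : ∀ s ∈ Icc 0 L, |α s - β| < Real.pi / 2) {p : ℝ} (hp : |p - β| < Real.pi / 2)
    (hp0 : 0 ≤ p) (hp1 : θ₁ ≤ p) (h : 2 - Real.cos p - Real.cos (θ₁ - p) ≤ -(q * E (-p)).im) :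
    ∃ (L' : ℝ) (α' : C(ℝ, ℝ)), Good q θ₁ L' α' ∧ Conn q θ₁ (mk L α) (mk L' α') ∧
      ∀ s ∈ Icc 0 L', β - Real.pi / 2 < α' s ∧ α' s ≤ p := by
  obtain ⟨hb, hb1⟩ := frame_zero hg hβ
  have hb' := abs_lt.1 hb
  have hb1' := abs_lt.1 hb1
  have hp' := abs_lt.1 hp
  obtain ⟨hX, w, hw, hY, hel⟩ := exists_W hg hβ
  have h0 : Real.sin (-β) ≤ Real.sin (p - β) :=
    Real.sin_le_sin_of_le_of_le_pi_div_two (by linarith) (by linarith) (by linarith)
  have h1 : Real.sin (θ₁ - β) ≤ Real.sin (p - β) :=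
    Real.sin_le_sin_of_le_of_le_pi_div_two (by linarith) (by linarith) (by linarith)
  -- reflect the curve
  have hconj : ∀ x : ℝ, (starRingEnd ℂ) q * E (-(-x)) = (starRingEnd ℂ) (q * E (-x)) := by
    intro x
    rw [map_mul, conj_E]
  have hbound := bound_alg (q := (starRingEnd ℂ) q)
    (θ₁ := -θ₁) (β := -β) (p := -p) rfl rfl
    (by
      have e : -p - -β = -(p - β) := by ring
      rw [e, abs_neg]
      exact hp) (by rwa [abs_neg])
    (by
      have e : -θ₁ - -β = -(θ₁ - β) := by ring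
      rw [e, abs_neg]
      exact hb1)
    (by
      have e : -θ₁ - -p = -(θ₁ - p) := by ring
      rw [hconj, Complex.conj_im, e, Real.cos_neg, Real.cos_neg]
      exact h)
  rw [hconj, Complex.conj_re, Complex.conj_im] at hbound
  have e1 : -p - -β = -(p - β) := by ring
  have e2 : -θ₁ - -β = -(θ₁ - β) := by ring
  have e3 : Real.sin (- -β) = -Real.sin (-β) := Real.sin_neg _
  rw [e1, e2, e3, Real.sin_neg (p - β), Real.sin_neg (θ₁ - β)] at hbound
  have hc : |-Real.sin (p - β)| < 1 := by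
    rw [abs_neg]
    exact abs_sin_lt hp
  obtain ⟨v, hv, hYv, habove⟩ := exists_above (c := -Real.sin (p - β)) hX.le hw.neg
    (by rw [Phi_neg, ← hY]) hc (neg_le_neg h0) (neg_le_neg h1) hbound
  have hw' : WL (q * E (-β)).re (Real.sin (-β)) (Real.sin (θ₁ - β)) fun x => -v x := by
    have := hv.neg
    rwa [neg_neg, neg_neg] at this
  have hY' : (q * E (-β)).im = Phi (q * E (-β)).re fun x => -v x := by
    rw [Phi_neg, hYv, neg_neg]
  have hadm := hw'.adm hb hb1 hX rfl hY'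
  obtain ⟨p', hp'⟩ := hadm.exists_elt
  have hconn := conn_frame hb hb1 hX hw hw' rfl hY hY' hel hp'
  obtain ⟨L', α', hg', rfl, hfacts⟩ := hp'.facts hadm
  refine ⟨L', α', hg', hconn, ?_⟩
  intro s hs
  obtain ⟨t, _, ht⟩ := hfacts s hs
  rw [ht]
  unfold angW
  have hbd := abs_lt.1 (hw'.bd t)
  constructor
  · have h2 : -(Real.pi / 2) < Real.arcsin (-v t) := Real.neg_pi_div_two_lt_arcsin.2 hbd.1
    linarith
  · have h2 : Real.arcsin (-v t) ≤ p - β := by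
      rw [Real.arcsin_le_iff_le_sin' ⟨by linarith, by linarith⟩]
      have := habove t
      linarith
    linarith

/-- two curves in the same frame are connected -/
theorem conn_same_frame {q : ℂ} {θ₁ L L' : ℝ} {α α' : C(ℝ, ℝ)} (hg : Good q θ₁ L α)
    (hg' : Good q θ₁ L' α') {β : ℝ}
    (hβ : ∀ s ∈ Icc 0 L, |α s - β| < Real.pi / 2)
    (hβ' : ∀ s ∈ Icc 0 L', |α' s - β| < Real.pi / 2) :
    Conn q θ₁ (mk L α) (mk L' α') := by
  obtain ⟨hb, hb1⟩ := frame_zero hg hβ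
  obtain ⟨hX, w, hw, hY, hel⟩ := exists_W hg hβ
  obtain ⟨-, w', hw', hY', hel'⟩ := exists_W hg' hβ'
  exact conn_frame hb hb1 hX hw hw' rfl hY hY' hel hel'

end Pool.Agent.Helper70.Dubins
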