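import Pool.Agent.Helper70.Dubins.Slots

set_option autoImplicit false

open Set Filter Topology MeasureTheory

namespace Pool.Agent.Helper70.Dubins

/-- unit vector with angle `x` -/
noncomputable def E (x : ℝ) : ℂ := Complex.exp (x * Complex.I)

theorem E_add (x y : ℝ) : E (x + y) = E x * E y := by
  unfold E
  rw [← Complex.exp_add]
  push_cast
  ring_nf

theorem E_zero : E 0 = 1 := by simp [E]

theorem E_pi : E Real.pi = -1 := by
  unfold E
  exact Complex.exp_pi_mul_I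

theorem E_neg_mul (x : ℝ) : E (-x) * E x = 1 := by
  rw [← E_add, neg_add_cancel, E_zero]

theorem conj_E (x : ℝ) : (starRingEnd ℂ) (E x) = E (-x) := by
  unfold E
  rw [← Complex.exp_conj]
  simp

theorem norm_E (x : ℝ) : ‖E x‖ = 1 := Complex.norm_exp_ofReal_mul_I _

theorem E_re (x : ℝ) : (E x).re = Real.cos x := Complex.exp_ofReal_mul_I_re x

theorem E_im (x : ℝ) : (E x).im = Real.sin x := Complex.exp_ofReal_mul_I_im x

theorem continuous_E : Continuous E := by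
  unfold E
  fun_prop

/-- displacement of a turn -/
theorem turn (a d : ℝ) :
    (d : ℂ) * ∫ y in (0 : ℝ)..1, E (a + d * y) = -Complex.I * (E (a + d) - E a) := by
  have h : ∫ y in (0 : ℝ)..1, (d * Complex.I) * E (a + d * y) = E (a + d * 1) - E (a + d * 0) := by
    apply intervalIntegral.integral_eq_sub_of_hasDerivAt (f := fun y : ℝ => E (a + d * y))
    · intro y _
      have h1 : HasDerivAt (fun y : ℝ => (((a + d * y : ℝ)) : ℂ) * Complex.I) (d * Complex.I) y := by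
        apply HasDerivAt.mul_const
        have h2 : HasDerivAt (fun y : ℝ => a + d * y) d y := by
          simpa using ((hasDerivAt_id y).const_mul d).const_add a
        exact h2.ofReal_comp
      have h3 := h1.cexp
      rw [mul_comm] at h3
      exact h3
    · apply Continuous.intervalIntegrable
      have := continuous_E
      fun_prop
  rw [intervalIntegral.integral_const_mul, mul_one, mul_zero, add_zero] at h
  rw [← h]
  linear_combination ((d : ℂ) * ∫ y in (0 : ℝ)..1, E (a + d * y)) * Complex.I_mul_I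

/-- the angle `2π/3` -/
noncomputable def uu : ℝ := 2 * Real.pi / 3

theorem uu_pos : 0 < uu := by
  unfold uu
  positivity

theorem E_uu_sum : 1 + E uu + E uu ^ 2 = 0 := by
  have h := (Complex.isPrimitiveRoot_exp 3 (by norm_num)).geom_sum_eq_zero (by norm_num)
  have e : Complex.exp (2 * Real.pi * Complex.I / (3 : ℕ)) = E uu := by
    unfold E uu
    congr 1
    push_cast
    ring
  rw [e] at h
  simp only [Finset.sum_range_succ, Finset.range_zero, Finset.sum_empty, pow_zero, pow_one,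
    zero_add] at h
  exact h

theorem three_sum (a : ℝ) : E a + E (a + uu) + E (a + 2 * uu) = 0 := by
  have h : E (a + 2 * uu) = E a * E uu ^ 2 := by
    rw [two_mul, E_add, E_add]
    ring
  rw [h, E_add]
  linear_combination E a * E_uu_sum

theorem resolve (r : ℂ) (a : ℝ) :
    ((2 / 3 * (r * E (-a)).re : ℝ) : ℂ) * E a +
      ((2 / 3 * (r * E (-(a + uu))).re : ℝ) : ℂ) * E (a + uu) +
      ((2 / 3 * (r * E (-(a + 2 * uu))).re : ℝ) : ℂ) * E (a + 2 * uu) = r := by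
  have key : ∀ b : ℝ, ((2 / 3 * (r * E (-b)).re : ℝ) : ℂ) * E b =
      1 / 3 * r + 1 / 3 * (starRingEnd ℂ) r * E b ^ 2 := by
    intro b
    have h1 : ((2 / 3 * (r * E (-b)).re : ℝ) : ℂ) =
        1 / 3 * (r * E (-b) + (starRingEnd ℂ) r * E b) := by
      have h2 := Complex.add_conj (r * E (-b))
      rw [map_mul, conj_E, neg_neg] at h2
      rw [h2]
      push_cast
      ring
    rw [h1]
    linear_combination 1 / 3 * r * E_neg_mul b
  rw [key, key, key]
  have h : E (a + 2 * uu) = E a * E uu ^ 2 := by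
    rw [two_mul, E_add, E_add]
    ring
  rw [h, E_add]
  linear_combination (1 / 3 * (starRingEnd ℂ) r * E a ^ 2) *
    (E uu ^ 2 - E uu + 1) * E_uu_sum

/-- slot data without the pauses, which sit in the slots 1, 3, 5 -/
structure Base (θ₁ : ℝ) (c : ℕ → ℝ) (G : ℕ → ℝ → ℝ) : Prop where
  lip : ∀ k < 11, ∀ y ∈ Icc (0 : ℝ) 1, ∀ z ∈ Icc (0 : ℝ) 1, |G k y - G k z| ≤ c k * |y - z|
  chain : ∀ k < 11, G k 1 = G (k + 1) 0
  start : G 0 0 = 0
  stop : G 11 0 = θ₁
  c1 : c 1 = 0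
  c3 : c 3 = 0
  c5 : c 5 = 0

/-- add pauses -/
noncomputable def withP (c : ℕ → ℝ) (σ₀ σ₁ σ₂ : ℝ) : ℕ → ℝ := fun k =>
  c k + (if k = 1 then σ₀ else 0) + (if k = 3 then σ₁ else 0) + (if k = 5 then σ₂ else 0)

/-- the displacement of slot data -/
noncomputable def sdisp (c : ℕ → ℝ) (G : ℕ → ℝ → ℝ) : ℂ :=
  ∑ k ∈ Finset.range 11, (c k : ℂ) * ∫ y in (0 : ℝ)..1, tang (G k) y

theorem Base.nonneg {θ₁ : ℝ} {c : ℕ → ℝ} {G : ℕ → ℝ → ℝ} (h : Base θ₁ c G) {k : ℕ} (hk : k < 11) :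
    0 ≤ c k := by
  have := (abs_nonneg _).trans (h.lip k hk 1 ⟨zero_le_one, le_rfl⟩ 0 ⟨le_rfl, zero_le_one⟩)
  simpa using this

theorem Base.const {θ₁ : ℝ} {c : ℕ → ℝ} {G : ℕ → ℝ → ℝ} (h : Base θ₁ c G) {k : ℕ} (hk : k < 11)
    (hc : c k = 0) : ∫ y in (0 : ℝ)..1, tang (G k) y = E (G k 0) := by
  have : ∀ y ∈ uIcc (0 : ℝ) 1, tang (G k) y = E (G k 0) := by
    intro y hy
    rw [uIcc_of_le zero_le_one] at hy
    have h1 := h.lip k hk y hy 0 ⟨le_rfl, zero_le_one⟩
    rw [hc, zero_mul] at h1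
    have h2 : G k y = G k 0 := sub_eq_zero.1 (abs_eq_zero.1 (le_antisymm h1 (abs_nonneg _)))
    unfold tang E
    rw [h2]
  rw [intervalIntegral.integral_congr this]
  simp

theorem Base.slot {q : ℂ} {θ₁ : ℝ} {c : ℕ → ℝ} {G : ℕ → ℝ → ℝ} (h : Base θ₁ c G)
    {σ₀ σ₁ σ₂ : ℝ} (h0 : 0 ≤ σ₀) (h1 : 0 ≤ σ₁) (h2 : 0 ≤ σ₂)
    (hpos : 0 < (∑ k ∈ Finset.range 11, c k) + σ₀ + σ₁ + σ₂)
    (hd : sdisp c G + σ₀ * E (G 1 0) + σ₁ * E (G 3 0) + σ₂ * E (G 5 0) = q) :
    Slot q θ₁ 11 (withP c σ₀ σ₁ σ₂) G := by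
  refine ⟨?_, h.chain, h.start, h.stop, ?_, ?_⟩
  · intro k hk y hy z hz
    refine (h.lip k hk y hy z hz).trans ?_
    apply mul_le_mul_of_nonneg_right _ (abs_nonneg _)
    unfold withP
    have e1 : (0 : ℝ) ≤ if k = 1 then σ₀ else 0 := by split_ifs <;> simp [h0]
    have e2 : (0 : ℝ) ≤ if k = 3 then σ₁ else 0 := by split_ifs <;> simp [h1]
    have e3 : (0 : ℝ) ≤ if k = 5 then σ₂ else 0 := by split_ifs <;> simp [h2]
    linarith
  · unfold withP
    rw [Finset.sum_add_distrib, Finset.sum_add_distrib, Finset.sum_add_distrib]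
    simp only [Finset.sum_ite_eq', Finset.mem_range]
    norm_num
    exact hpos
  · rw [← hd]
    unfold sdisp withP
    have e : ∀ (j : ℕ) (σ : ℝ) (k : ℕ) (z : ℂ),
        ((if k = j then σ else 0 : ℝ) : ℂ) * z = if k = j then (σ : ℂ) * z else 0 := by
      intro j σ k z
      split_ifs <;> simp
    simp only [Complex.ofReal_add, add_mul, e]
    rw [Finset.sum_add_distrib, Finset.sum_add_distrib, Finset.sum_add_distrib]
    simp only [Finset.sum_ite_eq', Finset.mem_range]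
    norm_num
    rw [h.const (by norm_num) h.c1, h.const (by norm_num) h.c3, h.const (by norm_num) h.c5]

/-- interpolation of slot data -/
def mixc (a b : ℕ → ℝ) (l : ℝ) : ℕ → ℝ := fun k => (1 - l) * a k + l * b k

/-- interpolation of slot data -/
def mixG (a b : ℕ → ℝ → ℝ) (l : ℝ) : ℕ → ℝ → ℝ := fun k y => (1 - l) * a k y + l * b k y

theorem mixc_zero (a b : ℕ → ℝ) : mixc a b 0 = a := by
  funext k
  simp [mixc]

theorem mixc_one (a b : ℕ → ℝ) : mixc a b 1 = b := by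
  funext k
  simp [mixc]

theorem mixG_zero (a b : ℕ → ℝ → ℝ) : mixG a b 0 = a := by
  funext k y
  simp [mixG]

theorem mixG_one (a b : ℕ → ℝ → ℝ) : mixG a b 1 = b := by
  funext k y
  simp [mixG]

theorem Base.mix {θ₁ : ℝ} {c c' : ℕ → ℝ} {G G' : ℕ → ℝ → ℝ} (h : Base θ₁ c G)
    (h' : Base θ₁ c' G') {l : ℝ} (hl : l ∈ Icc (0 : ℝ) 1) :
    Base θ₁ (mixc c c' l) (mixG G G' l) := by
  refine ⟨?_, ?_, ?_, ?_, ?_, ?_, ?_⟩
  · intro k hk y hy z hz
    have e : mixG G G' l k y - mixG G G' l k z =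
        (1 - l) * (G k y - G k z) + l * (G' k y - G' k z) := by
      unfold mixG
      ring
    rw [e]
    refine (abs_add_le _ _).trans ?_
    rw [abs_mul, abs_mul, abs_of_nonneg hl.1, abs_of_nonneg (sub_nonneg.2 hl.2)]
    have h1 := h.lip k hk y hy z hz
    have h2 := h'.lip k hk y hy z hz
    have h3 : 0 ≤ 1 - l := sub_nonneg.2 hl.2
    have h4 := mul_le_mul_of_nonneg_left h1 h3
    have h5 := mul_le_mul_of_nonneg_left h2 hl.1
    unfold mixc
    linarith
  · intro k hk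
    unfold mixG
    rw [h.chain k hk, h'.chain k hk]
  · simp [mixG, h.start, h'.start]
  · simp only [mixG, h.stop, h'.stop]
    ring
  · simp [mixc, h.c1, h'.c1]
  · simp [mixc, h.c3, h'.c3]
  · simp [mixc, h.c5, h'.c5]

/-- the speeds of the curve with excursions -/
noncomputable def cA (t₁ t₂ L ε : ℝ) : ℕ → ℝ
  | 0 => t₁
  | 2 => ε * uu
  | 4 => ε * uu
  | 6 => 2 * ε * uu
  | 7 => t₂ - t₁
  | 8 => 2 * ε * uu
  | 9 => 2 * ε * uu
  | 10 => L - t₂
  | _ => 0

/-- the angles of the curve with excursions -/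
noncomputable def GA (α : ℝ → ℝ) (t₁ t₂ L ε : ℝ) : ℕ → ℝ → ℝ
  | 0 => fun y => α (t₁ * y)
  | 1 => fun _ => α t₁
  | 2 => fun y => α t₁ + ε * uu * y
  | 3 => fun _ => α t₁ + ε * uu
  | 4 => fun y => α t₁ + ε * uu + ε * uu * y
  | 5 => fun _ => α t₁ + 2 * ε * uu
  | 6 => fun y => α t₁ + 2 * ε * uu + -(2 * ε * uu) * y
  | 7 => fun y => α (t₁ + (t₂ - t₁) * y)
  | 8 => fun y => α t₂ + 2 * ε * uu * y
  | 9 => fun y => α t₂ + 2 * ε * uu + -(2 * ε * uu) * y
  | 10 => fun y => α (t₂ + (L - t₂) * y)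
  | _ => fun _ => α L

theorem base_A {θ₁ : ℝ} {α : ℝ → ℝ} {t₁ t₂ L ε : ℝ} (hlip : ∀ s t, |α s - α t| ≤ |s - t|)
    (h0 : α 0 = 0) (hL : α L = θ₁) (ht₁ : 0 ≤ t₁) (ht₂ : t₁ ≤ t₂) (ht₃ : t₂ ≤ L) (hε : 0 ≤ ε) :
    Base θ₁ (cA t₁ t₂ L ε) (GA α t₁ t₂ L ε) := by
  have hu := uu_pos
  have hεu : 0 ≤ ε * uu := by positivity
  have lin : ∀ a b d y z : ℝ, |b| ≤ d → |a + b * y - (a + b * z)| ≤ d * |y - z| := by
    intro a b d y z hb
    have : a + b * y - (a + b * z) = b * (y - z) := by ring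
    rw [this, abs_mul]
    exact mul_le_mul_of_nonneg_right hb (abs_nonneg _)
  have rho : ∀ a b y z : ℝ, 0 ≤ b → |α (a + b * y) - α (a + b * z)| ≤ b * |y - z| := by
    intro a b y z hb
    exact (hlip _ _).trans (lin a b b y z (abs_of_nonneg hb).le)
  refine ⟨?_, ?_, ?_, ?_, rfl, rfl, rfl⟩
  · intro k hk y hy z hz
    interval_cases k <;> simp only [cA, GA]
    · have := rho 0 t₁ y z ht₁
      simpa using this
    · simp
    · exact lin _ _ _ _ _ (abs_of_nonneg hεu).le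
    · simp
    · exact lin _ _ _ _ _ (abs_of_nonneg hεu).le
    · simp
    · exact lin _ _ _ _ _ (by rw [abs_neg, abs_of_nonneg (by positivity)])
    · exact rho _ _ _ _ (by linarith)
    · exact lin _ _ _ _ _ (by rw [abs_of_nonneg (by positivity)])
    · exact lin _ _ _ _ _ (by rw [abs_neg, abs_of_nonneg (by positivity)])
    · exact rho _ _ _ _ (by linarith)
  · intro k hk
    interval_cases k <;> simp only [GA, mul_one, mul_zero, add_zero]
    · ring
    · ring
    · congr 1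
      ring
    · ring
    · congr 1
      ring
  · simp [GA, h0]
  · simp [GA, hL]

end Pool.Agent.Helper70.Dubins
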