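import Pool.Agent.Helper70.Dubins.PartOne

set_option autoImplicit false

open Set Filter Topology MeasureTheory

namespace Pool.Agent.Helper70.Dubins

theorem rho_int (α : C(ℝ, ℝ)) (a b : ℝ) :
    (b : ℂ) * ∫ y in (0 : ℝ)..1, tang (fun y => α (a + b * y)) y = ∫ s in a..(a + b), tang α s := by
  have h1 := intervalIntegral.smul_integral_comp_add_mul (a := 0) (b := 1) (tang α) b a
  rw [mul_zero, mul_one, add_zero] at h1
  rw [← h1, Complex.real_smul]
  rfl

theorem turn_int (a d : ℝ) :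
    (d : ℂ) * ∫ y in (0 : ℝ)..1, tang (fun y => a + d * y) y = -Complex.I * (E (a + d) - E a) :=
  turn a d

theorem E_opp {a b : ℝ} (h : |b - a| = Real.pi) (x : ℝ) : E (b + x) = -E (a + x) := by
  rcases abs_eq Real.pi_pos.le |>.1 h with h | h
  · have : b + x = (a + x) + Real.pi := by linarith
    rw [this, E_add _ Real.pi, E_pi]
    ring
  · have : a + x = (b + x) + Real.pi := by linarith
    rw [this, E_add _ Real.pi, E_pi]
    ring

theorem disp_A (α : C(ℝ, ℝ)) {t₁ t₂ : ℝ} (L ε : ℝ) (h : |α t₂ - α t₁| = Real.pi) :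
    sdisp (cA t₁ t₂ L ε) (GA α t₁ t₂ L ε) = ∫ s in (0 : ℝ)..L, tang α s := by
  have hi : ∀ a b, IntervalIntegrable (tang α) volume a b := fun a b =>
    (continuous_tang α.continuous).intervalIntegrable a b
  have r0 : (t₁ : ℂ) * ∫ y in (0 : ℝ)..1, tang (fun y => α (t₁ * y)) y =
      ∫ s in (0 : ℝ)..t₁, tang α s := by
    have := rho_int α 0 t₁
    simpa using this
  have r1 := rho_int α t₁ (t₂ - t₁)
  have r2 := rho_int α t₂ (L - t₂)
  rw [add_sub_cancel] at r1 r2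
  have hsplit : ∫ s in (0 : ℝ)..L, tang α s = (∫ s in (0 : ℝ)..t₁, tang α s) +
      (∫ s in t₁..t₂, tang α s) + ∫ s in t₂..L, tang α s := by
    rw [intervalIntegral.integral_add_adjacent_intervals (hi _ _) (hi _ _),
      intervalIntegral.integral_add_adjacent_intervals (hi _ _) (hi _ _)]
  have s2 := turn_int (α t₁) (ε * uu)
  have s4 := turn_int (α t₁ + ε * uu) (ε * uu)
  have s6 := turn_int (α t₁ + 2 * ε * uu) (-(2 * ε * uu))
  have s8 := turn_int (α t₂) (2 * ε * uu)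
  have s9 := turn_int (α t₂ + 2 * ε * uu) (-(2 * ε * uu))
  have e1 : α t₁ + ε * uu + ε * uu = α t₁ + 2 * ε * uu := by ring
  have e2 : α t₁ + 2 * ε * uu + -(2 * ε * uu) = α t₁ := by ring
  have e3 : α t₂ + 2 * ε * uu + -(2 * ε * uu) = α t₂ := by ring
  have e4 := E_opp h (2 * ε * uu)
  have e5 := E_opp h 0
  rw [add_zero, add_zero] at e5
  rw [e1] at s4
  rw [e2] at s6
  rw [e3, e4, e5] at s9
  rw [e4, e5] at s8
  push_cast at s2 s4 s6 s8 s9
  unfold sdisp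
  simp only [Finset.sum_range_succ, Finset.range_zero, Finset.sum_empty, cA, GA,
    Complex.ofReal_zero, zero_mul, add_zero, zero_add]
  rw [hsplit]
  push_cast at r1 r2 ⊢
  linear_combination r0 + r1 + r2 + s2 + s4 - s6 + s8 - s9

theorem continuous_cA (t₁ t₂ L : ℝ) (k : ℕ) : Continuous fun ε => cA t₁ t₂ L ε k := by
  unfold cA
  split <;> fun_prop

theorem continuous_GA (α : C(ℝ, ℝ)) (t₁ t₂ L : ℝ) (k : ℕ) :
    Continuous fun z : ℝ × ℝ => GA α t₁ t₂ L z.1 k z.2 := by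
  unfold GA
  split <;> fun_prop

/-- the original curve as slot data -/
theorem selt_A {q : ℂ} {θ₁ L : ℝ} {α : C(ℝ, ℝ)} (hg : Good q θ₁ L α) {t₁ t₂ : ℝ}
    (ht₁ : 0 ≤ t₁) (ht₂ : t₁ ≤ t₂) (ht₃ : t₂ ≤ L) :
    SElt q θ₁ 11 (withP (cA t₁ t₂ L 0) 0 0 0) (GA α t₁ t₂ L 0) (mk L α) := by
  have hb := base_A (α := α) hg.lip hg.zero hg.endp ht₁ ht₂ ht₃ (le_refl 0)
  have e : withP (cA t₁ t₂ L 0) 0 0 0 = cA t₁ t₂ L 0 := by
    funext k
    simp [withP]
  rw [e]
  apply selt_of_good (by norm_num) hg _ hb.start hb.chain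
  · intro k hk y hy
    interval_cases k <;>
      simp [Finset.sum_range_succ, cA, GA]
  · simp [Finset.sum_range_succ, cA]

/-- inserting excursions and pauses -/
theorem stage_A {q : ℂ} {θ₁ L : ℝ} {α : C(ℝ, ℝ)} (hg : Good q θ₁ L α) {t₁ t₂ : ℝ}
    (ht₁ : 0 ≤ t₁) (ht₂ : t₁ ≤ t₂) (ht₃ : t₂ ≤ L) (hopp : |α t₂ - α t₁| = Real.pi) {K : ℝ}
    (hK : 0 ≤ K) {p : C(unitInterval, ℂ) × C(unitInterval, ℂ)}
    (hp : SElt q θ₁ 11 (withP (cA t₁ t₂ L 1) K K K) (GA α t₁ t₂ L 1) p) :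
    Conn q θ₁ (mk L α) p := by
  have hslot : ∀ x ∈ Ici (0 : ℝ), Slot q θ₁ 11
      (withP (cA t₁ t₂ L (min x 1)) (max (x - 1) 0) (max (x - 1) 0) (max (x - 1) 0))
      (GA α t₁ t₂ L (min x 1)) := by
    intro x hx
    have hε : 0 ≤ min x 1 := le_min hx zero_le_one
    have hb := base_A (α := α) hg.lip hg.zero hg.endp ht₁ ht₂ ht₃ hε
    have hm : 0 ≤ max (x - 1) 0 := le_max_right _ _
    apply hb.slot hm hm hm
    · have h1 : ∑ k ∈ Finset.range 11, cA t₁ t₂ L (min x 1) k = L + 8 * (min x 1) * uu := by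
        simp only [Finset.sum_range_succ, cA, Finset.range_zero, Finset.sum_empty]
        ring
      have h2 := uu_pos
      have h3 := hg.pos
      rw [h1]
      have : 0 ≤ 8 * (min x 1) * uu := by positivity
      linarith
    · rw [disp_A α L _ hopp, hg.disp]
      rcases le_total x 1 with h | h
      · rw [max_eq_right (by linarith)]
        simp
      · rw [min_eq_right h]
        have h1 := three_sum (α t₁)
        have e1 : GA α t₁ t₂ L 1 1 0 = α t₁ := rfl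
        have e2 : GA α t₁ t₂ L 1 3 0 = α t₁ + uu := by
          simp [GA]
        have e3 : GA α t₁ t₂ L 1 5 0 = α t₁ + 2 * uu := by
          simp [GA]
        rw [e1, e2, e3]
        linear_combination ((max (x - 1) 0 : ℝ) : ℂ) * h1
  have hcont : Continuous fun x : ℝ => min x 1 := by fun_prop
  have h0 : SElt q θ₁ 11 (withP (cA t₁ t₂ L (min 0 1)) (max (0 - 1) 0) (max (0 - 1) 0)
      (max (0 - 1) 0)) (GA α t₁ t₂ L (min 0 1)) (mk L α) := by
    rw [min_eq_left (zero_le_one), max_eq_right (by norm_num)]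
    exact selt_A hg ht₁ ht₂ ht₃
  have h1 : SElt q θ₁ 11 (withP (cA t₁ t₂ L (min (1 + K) 1)) (max (1 + K - 1) 0)
      (max (1 + K - 1) 0) (max (1 + K - 1) 0)) (GA α t₁ t₂ L (min (1 + K) 1)) p := by
    rw [min_eq_right (by linarith), max_eq_left (by linarith)]
    have e : 1 + K - 1 = K := by ring
    rw [e]
    exact hp
  refine conn_of_slots (Λ := ℝ) (s := Ici (0 : ℝ)) isPreconnected_Ici ?_ ?_ hslot
    (mem_Ici.2 le_rfl) (mem_Ici.2 (by linarith)) h0 h1
  · intro k _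
    have h2 : Continuous fun x : ℝ => cA t₁ t₂ L (min x 1) k :=
      (continuous_cA t₁ t₂ L k).comp hcont
    unfold withP
    refine ((h2.add ?_).add ?_).add ?_
    · split_ifs <;> fun_prop
    · split_ifs <;> fun_prop
    · split_ifs <;> fun_prop
  · intro k _
    exact (continuous_GA α t₁ t₂ L k).comp ((hcont.comp continuous_fst).prodMk continuous_snd)

theorem continuous_sdisp {c : ℝ → ℕ → ℝ} {G : ℝ → ℕ → ℝ → ℝ}
    (hc : ∀ k, Continuous fun l => c l k) (hG : ∀ k, Continuous fun z : ℝ × ℝ => G z.1 k z.2) :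
    Continuous fun l => sdisp (c l) (G l) := by
  unfold sdisp
  apply continuous_finsetSum
  intro k _
  have h1 := hc k
  have h2 : Continuous fun l => ∫ y in (0 : ℝ)..1, tang (G l k) y := by
    apply intervalIntegral.continuous_parametric_intervalIntegral_of_continuous'
    unfold tang Function.uncurry
    have := hG k
    fun_prop
  fun_prop

theorem continuous_mixc (a b : ℕ → ℝ) (k : ℕ) : Continuous fun l => mixc a b l k := by
  unfold mixc
  fun_prop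

theorem continuous_mixG {a b : ℕ → ℝ → ℝ} (ha : ∀ k, Continuous (a k)) (hb : ∀ k, Continuous (b k))
    (k : ℕ) : Continuous fun z : ℝ × ℝ => mixG a b z.1 k z.2 := by
  unfold mixG
  have h1 := ha k
  have h2 := hb k
  fun_prop

/-- interpolation between slot data, compensated by the three pauses -/
theorem stage_B {q : ℂ} {θ₁ : ℝ} {c c' : ℕ → ℝ} {G G' : ℕ → ℝ → ℝ} (h : Base θ₁ c G)
    (h' : Base θ₁ c' G') (hG : ∀ k, Continuous (G k)) (hG' : ∀ k, Continuous (G' k))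
    (hd : sdisp c G = q) (h3 : G 3 0 = G 1 0 + uu) (h5 : G 5 0 = G 1 0 + 2 * uu)
    (h3' : G' 3 0 = G' 1 0 + uu) (h5' : G' 5 0 = G' 1 0 + 2 * uu) :
    ∃ K₀ : ℝ, 0 ≤ K₀ ∧ ∀ K ≥ K₀, ∃ p₀, SElt q θ₁ 11 (withP c K K K) G p₀ ∧
      (∃ p, SElt q θ₁ 11 (withP c'
        (K + 2 / 3 * ((q - sdisp c' G') * E (-(G' 1 0))).re)
        (K + 2 / 3 * ((q - sdisp c' G') * E (-(G' 1 0 + uu))).re)
        (K + 2 / 3 * ((q - sdisp c' G') * E (-(G' 1 0 + 2 * uu))).re)) G' p) ∧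
      ∀ p, SElt q θ₁ 11 (withP c'
        (K + 2 / 3 * ((q - sdisp c' G') * E (-(G' 1 0))).re)
        (K + 2 / 3 * ((q - sdisp c' G') * E (-(G' 1 0 + uu))).re)
        (K + 2 / 3 * ((q - sdisp c' G') * E (-(G' 1 0 + 2 * uu))).re)) G' p →
      Conn q θ₁ p₀ p := by
  set r : ℝ → ℂ := fun l => q - sdisp (mixc c c' l) (mixG G G' l) with hr
  have hrc : Continuous r :=
    continuous_const.sub (continuous_sdisp (continuous_mixc c c') (continuous_mixG hG hG'))
  obtain ⟨R, hR⟩ := (isCompact_Icc (a := (0 : ℝ)) (b := 1)).exists_bound_of_continuousOn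
    hrc.continuousOn
  have hR0 : 0 ≤ R := (norm_nonneg _).trans (hR 0 ⟨le_rfl, zero_le_one⟩)
  refine ⟨R + 1, by linarith, ?_⟩
  intro K hK
  -- the pauses
  set a : ℝ → ℝ := fun l => mixG G G' l 1 0 with ha
  set σ : ℝ → ℝ → ℝ := fun x l => K + 2 / 3 * (r l * E (-(a l + x))).re with hσ
  have hσpos : ∀ x, ∀ l ∈ Icc (0 : ℝ) 1, 0 < σ x l := by
    intro x l hl
    have h1 : |(r l * E (-(a l + x))).re| ≤ ‖r l * E (-(a l + x))‖ := Complex.abs_re_le_norm _
    rw [norm_mul, norm_E, mul_one] at h1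
    have h2 := hR l hl
    have h3 := neg_abs_le (r l * E (-(a l + x))).re
    simp only [hσ]
    linarith
  have hac : Continuous a :=
    (continuous_mixG hG hG' 1).comp (continuous_id.prodMk continuous_const)
  have hσc : ∀ x, Continuous (σ x) := by
    intro x
    have h1 : Continuous fun l => E (-(a l + x)) := continuous_E.comp (by fun_prop)
    exact continuous_const.add (continuous_const.mul (Complex.continuous_re.comp (hrc.mul h1)))
  have e3 : ∀ l, mixG G G' l 3 0 = a l + uu := by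
    intro l
    simp only [ha, mixG, h3, h3']
    ring
  have e5 : ∀ l, mixG G G' l 5 0 = a l + 2 * uu := by
    intro l
    simp only [ha, mixG, h5, h5']
    ring
  have hslot : ∀ l ∈ Icc (0 : ℝ) 1, Slot q θ₁ 11 (withP (mixc c c' l) (σ 0 l) (σ uu l)
      (σ (2 * uu) l)) (mixG G G' l) := by
    intro l hl
    have hb := h.mix h' hl
    apply hb.slot (hσpos _ l hl).le (hσpos _ l hl).le (hσpos _ l hl).le
    · have h1 : 0 ≤ ∑ k ∈ Finset.range 11, mixc c c' l k :=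
        Finset.sum_nonneg fun k hk => hb.nonneg (Finset.mem_range.1 hk)
      have h2 := hσpos 0 l hl
      have h3 := hσpos uu l hl
      have h4 := hσpos (2 * uu) l hl
      linarith
    · rw [e3, e5]
      have h1 := resolve (r l) (a l)
      have h2 := three_sum (a l)
      show sdisp (mixc c c' l) (mixG G G' l) + (σ 0 l : ℂ) * E (a l) + (σ uu l : ℂ) * E (a l + uu) +
        (σ (2 * uu) l : ℂ) * E (a l + 2 * uu) = q
      have h3 : r l = q - sdisp (mixc c c' l) (mixG G G' l) := rfl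
      simp only [hσ, add_zero]
      simp only [Complex.ofReal_add]
      linear_combination h1 + (K : ℂ) * h2 - h3
  have hr0 : r 0 = 0 := by
    simp only [hr]
    rw [mixc_zero, mixG_zero, hd, sub_self]
  have hr1 : r 1 = q - sdisp c' G' := by
    simp only [hr]
    rw [mixc_one, mixG_one]
  have hσ0 : ∀ x, σ x 0 = K := by
    intro x
    simp only [hσ]
    rw [hr0]
    simp
  have ha1 : a 1 = G' 1 0 := by
    simp only [ha]
    rw [mixG_one]
  have hslot0 := hslot 0 ⟨le_rfl, zero_le_one⟩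
  obtain ⟨p₀, hp₀⟩ := hslot0.adm.exists_elt
  refine ⟨p₀, ?_, ?_, ?_⟩
  · have h1 : SElt q θ₁ 11 (withP (mixc c c' 0) (σ 0 0) (σ uu 0) (σ (2 * uu) 0)) (mixG G G' 0) p₀ :=
      hp₀
    rwa [mixc_zero, mixG_zero, hσ0, hσ0, hσ0] at h1
  · have hslot1 := hslot 1 ⟨zero_le_one, le_rfl⟩
    obtain ⟨p, hp⟩ := hslot1.adm.exists_elt
    have h1 : SElt q θ₁ 11 (withP (mixc c c' 1) (σ 0 1) (σ uu 1) (σ (2 * uu) 1)) (mixG G G' 1) p :=
      hp
    rw [mixc_one, mixG_one] at h1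
    simp only [hσ] at h1
    rw [hr1, ha1, add_zero] at h1
    exact ⟨p, h1⟩
  · intro p hp
    have h1 : SElt q θ₁ 11 (withP (mixc c c' 1) (σ 0 1) (σ uu 1) (σ (2 * uu) 1)) (mixG G G' 1) p := by
      rw [mixc_one, mixG_one]
      simp only [hσ]
      rw [hr1, ha1, add_zero]
      exact hp
    refine conn_of_slots (Λ := ℝ) (s := Icc (0 : ℝ) 1) isPreconnected_Icc ?_ ?_ hslot
      ⟨le_rfl, zero_le_one⟩ ⟨zero_le_one, le_rfl⟩ hp₀ h1
    · intro k _
      have h2 := continuous_mixc c c' k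
      have h3 := hσc 0
      have h4 := hσc uu
      have h5 := hσc (2 * uu)
      unfold withP
      refine ((h2.add ?_).add ?_).add ?_
      · split_ifs <;> fun_prop
      · split_ifs <;> fun_prop
      · split_ifs <;> fun_prop
    · intro k _
      exact continuous_mixG hG hG' k

/-- all curves with two opposite tangents are connected to each other -/
theorem conn_of_opp {q : ℂ} {θ₁ L L' : ℝ} {α α' : C(ℝ, ℝ)} (hθ₁ : 0 ≤ θ₁) (hg : Good q θ₁ L α)
    (hg' : Good q θ₁ L' α')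
    {t₁ t₂ : ℝ} (ht₁ : 0 ≤ t₁) (ht₂ : t₁ ≤ t₂) (ht₃ : t₂ ≤ L) (hopp : |α t₂ - α t₁| = Real.pi)
    {t₁' t₂' : ℝ} (ht₁' : 0 ≤ t₁') (ht₂' : t₁' ≤ t₂') (ht₃' : t₂' ≤ L')
    (hopp' : |α' t₂' - α' t₁'| = Real.pi) :
    Conn q θ₁ (mk L α) (mk L' α') := by
  have hstd : Base θ₁ (cA 0 0 θ₁ 1) (GA (ContinuousMap.id ℝ) 0 0 θ₁ 1) :=
    base_A (α := ContinuousMap.id ℝ) (by intro s t; simp) (by simp) (by simp) le_rfl le_rfl hθ₁
      zero_le_one
  have hGc : ∀ (α : C(ℝ, ℝ)) t₁ t₂ L k, Continuous (GA α t₁ t₂ L 1 k) := by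
    intro α t₁ t₂ L k
    exact (continuous_GA α t₁ t₂ L k).comp (continuous_const.prodMk continuous_id)
  have hA3 : ∀ (α : C(ℝ, ℝ)) t₁ t₂ L, GA α t₁ t₂ L 1 3 0 = GA α t₁ t₂ L 1 1 0 + uu := by
    intro α t₁ t₂ L
    simp [GA]
  have hA5 : ∀ (α : C(ℝ, ℝ)) t₁ t₂ L, GA α t₁ t₂ L 1 5 0 = GA α t₁ t₂ L 1 1 0 + 2 * uu := by
    intro α t₁ t₂ L
    simp [GA]
  obtain ⟨K₀, hK₀, hK⟩ := stage_B (base_A (α := α) hg.lip hg.zero hg.endp ht₁ ht₂ ht₃ zero_le_one)
    hstd (hGc α t₁ t₂ L) (hGc _ _ _ _) (by rw [disp_A α L 1 hopp, hg.disp]) (hA3 α t₁ t₂ L)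
    (hA5 α t₁ t₂ L) (hA3 _ _ _ _) (hA5 _ _ _ _)
  obtain ⟨K₀', hK₀', hK'⟩ := stage_B
    (base_A (α := α') hg'.lip hg'.zero hg'.endp ht₁' ht₂' ht₃' zero_le_one)
    hstd (hGc α' t₁' t₂' L') (hGc _ _ _ _) (by rw [disp_A α' L' 1 hopp', hg'.disp])
    (hA3 α' t₁' t₂' L') (hA5 α' t₁' t₂' L') (hA3 _ _ _ _) (hA5 _ _ _ _)
  set K := max K₀ K₀' with hKdef
  obtain ⟨p₀, hp₀, ⟨p, hp⟩, hc⟩ := hK K (le_max_left _ _)
  obtain ⟨p₀', hp₀', -, hc'⟩ := hK' K (le_max_right _ _)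
  have hK0 : 0 ≤ K := hK₀.trans (le_max_left _ _)
  have h1 := stage_A hg ht₁ ht₂ ht₃ hopp hK0 hp₀
  have h2 := stage_A hg' ht₁' ht₂' ht₃' hopp' hK0 hp₀'
  exact (h1.trans (hc p hp)).trans ((hc' p hp).symm.trans h2.symm)

end Pool.Agent.Helper70.Dubins
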