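import Pool.Agent.Helper70.Dubins.Space

set_option autoImplicit false

open Set Filter Topology MeasureTheory

namespace Pool.Agent.Helper70.Dubins

/-- admissible (clock, angle) data on `[0, T]` -/
structure Adm (q : ℂ) (θ₁ T : ℝ) (V θ : ℝ → ℝ) : Prop where
  T0 : 0 ≤ T
  Vc : Continuous V
  V0 : V 0 = 0
  speed : ∀ s ∈ Icc 0 T, ∀ t ∈ Icc 0 T, s ≤ t → |θ t - θ s| ≤ V t - V s
  zero : θ 0 = 0
  endp : θ T = θ₁
  pos : 0 < V T
  disp : ∀ α : C(ℝ, ℝ), (∀ t ∈ Icc 0 T, α (V t) = θ t) → ∫ s in (0 : ℝ)..(V T), tang α s = q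

/-- `p` is the curve with data `(V, θ)` -/
def IsElt (q : ℂ) (θ₁ T : ℝ) (V θ : ℝ → ℝ) (p : C(unitInterval, ℂ) × C(unitInterval, ℂ)) :
    Prop :=
  ∃ α : C(ℝ, ℝ), Good q θ₁ (V T) α ∧ (∀ t ∈ Icc 0 T, α (V t) = θ t) ∧ p = mk (V T) α

theorem IsElt.mem {q : ℂ} {θ₁ T : ℝ} {V θ : ℝ → ℝ} {p : C(unitInterval, ℂ) × C(unitInterval, ℂ)}
    (h : IsElt q θ₁ T V θ p) : p ∈ curveSpace q θ₁ := by
  obtain ⟨α, h1, -, rfl⟩ := h
  exact mem_curveSpace_iff.2 ⟨_, _, h1, rfl⟩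

theorem exists_time {V : ℝ → ℝ} {T : ℝ} (hT : 0 ≤ T) (hV : Continuous V) (hV0 : V 0 = 0) {s : ℝ}
    (hs : s ∈ Icc 0 (V T)) : ∃ t ∈ Icc (0 : ℝ) T, V t = s := by
  have h := intermediate_value_Icc hT hV.continuousOn
  rw [hV0] at h
  obtain ⟨t, ht, hts⟩ := h hs
  exact ⟨t, ht, hts⟩

/-- reparametrization by the clock -/
theorem exists_reparam {V θ : ℝ → ℝ} {T : ℝ} (hT : 0 ≤ T) (hV : Continuous V) (hV0 : V 0 = 0)
    (hs : ∀ s ∈ Icc 0 T, ∀ t ∈ Icc 0 T, s ≤ t → |θ t - θ s| ≤ V t - V s) :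
    ∃ α : C(ℝ, ℝ), (∀ s t, |α s - α t| ≤ |s - t|) ∧ ∀ t ∈ Icc 0 T, α (V t) = θ t := by
  have hmono : ∀ s ∈ Icc 0 T, ∀ t ∈ Icc 0 T, s ≤ t → V s ≤ V t := by
    intro s hs' t ht hst
    have := (abs_nonneg _).trans (hs s hs' t ht hst)
    linarith
  have habs : ∀ s ∈ Icc 0 T, ∀ t ∈ Icc 0 T, |θ t - θ s| ≤ |V t - V s| := by
    intro s hs' t ht
    rcases le_total s t with h | h
    · exact (hs s hs' t ht h).trans (le_abs_self _)
    · rw [abs_sub_comm, abs_sub_comm (V t)]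
      exact (hs t ht s hs' h).trans (le_abs_self _)
  set L := V T with hLdef
  have hL : 0 ≤ L := by
    have := hmono 0 ⟨le_rfl, hT⟩ T ⟨hT, le_rfl⟩ hT
    rwa [hV0] at this
  let c : ℝ → ℝ := fun s => max (min s L) 0
  have hc : ∀ s, c s ∈ Icc (0 : ℝ) L := fun s =>
    ⟨le_max_right _ _, max_le (min_le_right _ _) hL⟩
  have hcid : ∀ s ∈ Icc (0 : ℝ) L, c s = s := by
    intro s hs
    simp only [c]
    rw [min_eq_left hs.2, max_eq_left hs.1]
  have hclip : ∀ s t, |c s - c t| ≤ |s - t| := by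
    intro s t
    refine (abs_max_sub_max_le_abs _ _ _).trans ?_
    refine (abs_min_sub_min_le_max _ _ _ _).trans ?_
    simp
  have hex : ∀ s, ∃ t, t ∈ Icc (0 : ℝ) T ∧ V t = c s := fun s => by
    obtain ⟨t, ht, hts⟩ := exists_time hT hV hV0 (hc s)
    exact ⟨t, ht, hts⟩
  choose τ hτ hVτ using hex
  have hlip : ∀ s t, |θ (τ s) - θ (τ t)| ≤ |s - t| := by
    intro s t
    refine (habs _ (hτ t) _ (hτ s)).trans ?_
    rw [hVτ, hVτ]
    exact hclip s t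
  have hcont : Continuous fun s => θ (τ s) := by
    have : LipschitzWith 1 fun s => θ (τ s) := by
      apply LipschitzWith.of_dist_le_mul
      intro s t
      rw [Real.dist_eq, Real.dist_eq]
      simpa using hlip s t
    exact this.continuous
  refine ⟨⟨fun s => θ (τ s), hcont⟩, hlip, ?_⟩
  intro t ht
  show θ (τ (V t)) = θ t
  have hVt : V t ∈ Icc 0 L := by
    constructor
    · have := hmono 0 ⟨le_rfl, hT⟩ t ht ht.1
      rwa [hV0] at this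
    · exact hmono t ht T ⟨hT, le_rfl⟩ ht.2
  have h1 := habs _ ht _ (hτ (V t))
  rw [hVτ, hcid _ hVt, sub_self, abs_zero] at h1
  exact sub_eq_zero.1 (abs_eq_zero.1 (le_antisymm h1 (abs_nonneg _)))

theorem Adm.good {q : ℂ} {θ₁ T : ℝ} {V θ : ℝ → ℝ} (h : Adm q θ₁ T V θ) {α : C(ℝ, ℝ)}
    (hlip : ∀ s t, |α s - α t| ≤ |s - t|) (hα : ∀ t ∈ Icc 0 T, α (V t) = θ t) :
    Good q θ₁ (V T) α := by
  refine ⟨h.pos, hlip, ?_, ?_, h.disp α hα⟩
  · have := hα 0 ⟨le_rfl, h.T0⟩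
    rwa [h.V0, h.zero] at this
  · have := hα T ⟨h.T0, le_rfl⟩
    rwa [h.endp] at this

theorem Adm.exists_elt {q : ℂ} {θ₁ T : ℝ} {V θ : ℝ → ℝ} (h : Adm q θ₁ T V θ) :
    ∃ p, IsElt q θ₁ T V θ p := by
  obtain ⟨α, h1, h2⟩ := exists_reparam h.T0 h.Vc h.V0 h.speed
  exact ⟨_, α, h.good h1 h2, h2, rfl⟩

/-- closeness of the arc length versions -/
theorem rep_close {V θ V' θ' : ℝ → ℝ} {T : ℝ} {α α' : ℝ → ℝ} (hT : 0 ≤ T) (hV : Continuous V)
    (hV0 : V 0 = 0) (hVT : 0 ≤ V T)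
    (hR : ∀ t ∈ Icc 0 T, α (V t) = θ t) (hR' : ∀ t ∈ Icc 0 T, α' (V' t) = θ' t)
    (hlip : ∀ s t, |α' s - α' t| ≤ |s - t|)
    {ε δ : ℝ} (hε : ∀ t ∈ Icc (0 : ℝ) T, |θ t - θ' t| ≤ ε)
    (hδ : ∀ t ∈ Icc (0 : ℝ) T, |V t - V' t| ≤ δ) {τ : ℝ} (hτ : τ ∈ Icc (0 : ℝ) 1) :
    |α (V T * τ) - α' (V' T * τ)| ≤ ε + 2 * δ := by
  have hLL : |V T - V' T| ≤ δ := hδ T ⟨hT, le_rfl⟩
  have hmem : V T * τ ∈ Icc 0 (V T) :=
    ⟨mul_nonneg hVT hτ.1, mul_le_of_le_one_right hVT hτ.2⟩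
  obtain ⟨t, ht, hts⟩ := exists_time hT hV hV0 hmem
  have h1 : α (V T * τ) = θ t := by
    rw [← hts]
    exact hR t ht
  have h2 : α' (V' t) = θ' t := hR' t ht
  have h3 := hlip (V' t) (V' T * τ)
  have h4 : |V' t - V' T * τ| ≤ 2 * δ := by
    have h5 : |V' t - V T * τ| ≤ δ := by
      rw [← hts, abs_sub_comm]
      exact hδ t ht
    have h6 : |V T * τ - V' T * τ| ≤ δ := by
      rw [← sub_mul, abs_mul, abs_of_nonneg hτ.1]
      have := abs_nonneg (V T - V' T)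
      nlinarith [hτ.2]
    have h7 := abs_sub_le (V' t) (V T * τ) (V' T * τ)
    linarith
  have h8 := abs_sub_le (α (V T * τ)) (θ' t) (α' (V' T * τ))
  rw [h1] at h8 ⊢
  rw [← h2] at h8
  have h9 := hε t ht
  rw [← h2] at h9
  linarith

theorem mk_fst_eq (L : ℝ) (θ : C(ℝ, ℝ)) (t : unitInterval) :
    (mk L θ).1 t = ∫ τ in (0 : ℝ)..t, (L : ℂ) * tang θ (L * τ) := by
  rw [intervalIntegral.integral_const_mul]
  have h := intervalIntegral.smul_integral_comp_mul_left (a := 0) (b := (t : ℝ)) (tang θ) L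
  rw [mul_zero] at h
  show ∫ s in (0 : ℝ)..(L * t), tang θ s = _
  rw [← h, Complex.real_smul]

theorem mk_close {L L' : ℝ} {θ θ' : C(ℝ, ℝ)} {ε δ : ℝ}
    (h : ∀ τ ∈ Icc (0 : ℝ) 1, |θ (L * τ) - θ' (L' * τ)| ≤ ε) (hL : |L - L'| ≤ δ) :
    dist (mk L θ) (mk L' θ') ≤ δ + |L'| * ε := by
  have hε : 0 ≤ ε := (abs_nonneg _).trans (h 0 ⟨le_rfl, zero_le_one⟩)
  have hδ : 0 ≤ δ := (abs_nonneg _).trans hL
  have hC : 0 ≤ δ + |L'| * ε := by positivity
  have key : ∀ τ ∈ Icc (0 : ℝ) 1, ‖(L : ℂ) * tang θ (L * τ) - (L' : ℂ) * tang θ' (L' * τ)‖ ≤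
      δ + |L'| * ε := by
    intro τ hτ
    have e : (L : ℂ) * tang θ (L * τ) - (L' : ℂ) * tang θ' (L' * τ) =
        ((L - L' : ℝ) : ℂ) * tang θ (L * τ) + (L' : ℂ) * (tang θ (L * τ) - tang θ' (L' * τ)) := by
      push_cast
      ring
    rw [e]
    refine (norm_add_le _ _).trans ?_
    rw [norm_mul, norm_mul, norm_tang, mul_one, Complex.norm_real, Complex.norm_real,
      Real.norm_eq_abs, Real.norm_eq_abs]
    have h1 : ‖tang θ (L * τ) - tang θ' (L' * τ)‖ ≤ ε := by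
      unfold tang
      exact (norm_exp_sub_exp_le _ _).trans (h τ hτ)
    gcongr
  rw [Prod.dist_eq]
  apply max_le
  · rw [ContinuousMap.dist_le hC]
    intro t
    rw [mk_fst_eq, mk_fst_eq, dist_eq_norm]
    have hc1 : Continuous fun τ : ℝ => (L : ℂ) * tang θ (L * τ) := by
      have := continuous_tang θ.continuous
      fun_prop
    have hc2 : Continuous fun τ : ℝ => (L' : ℂ) * tang θ' (L' * τ) := by
      have := continuous_tang θ'.continuous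
      fun_prop
    rw [← intervalIntegral.integral_sub (hc1.intervalIntegrable _ _) (hc2.intervalIntegrable _ _)]
    have h1 := intervalIntegral.norm_integral_le_of_norm_le_const (a := 0) (b := (t : ℝ))
      (f := fun τ : ℝ => (L : ℂ) * tang θ (L * τ) - (L' : ℂ) * tang θ' (L' * τ))
      (C := δ + |L'| * ε) (by
        intro x hx
        rw [uIoc_of_le t.2.1] at hx
        exact key x ⟨hx.1.le, hx.2.trans t.2.2⟩)
    rw [sub_zero, abs_of_nonneg t.2.1] at h1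
    exact h1.trans (mul_le_of_le_one_right hC t.2.2)
  · rw [ContinuousMap.dist_le hC]
    intro t
    rw [dist_eq_norm]
    exact key t t.2

theorem unif_close {Λ : Type*} [TopologicalSpace Λ] {f : Λ → ℝ → ℝ}
    (hf : Continuous (Function.uncurry f)) (T : ℝ) (l₀ : Λ) {ε : ℝ} (hε : 0 < ε) :
    ∀ᶠ l in 𝓝 l₀, ∀ t ∈ Icc (0 : ℝ) T, |f l t - f l₀ t| ≤ ε := by
  apply isCompact_Icc.eventually_forall_of_forall_eventually
  intro t _
  have hc : Continuous fun z : Λ × ℝ => |f z.1 z.2 - f l₀ z.2| := by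
    have h2 : Continuous fun z : Λ × ℝ => f l₀ z.2 :=
      hf.comp (continuous_const.prodMk continuous_snd)
    exact (hf.sub h2).abs
  have h0 : |f l₀ t - f l₀ t| < ε := by simpa using hε
  exact (hc.continuousAt.eventually (gt_mem_nhds h0)).mono fun z hz => hz.le

/-- A jointly continuous family of admissible data gives a continuous family of curves. -/
theorem exists_family {Λ : Type*} [TopologicalSpace Λ] {q : ℂ} {θ₁ T : ℝ} {V θ : Λ → ℝ → ℝ}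
    (hV : Continuous (Function.uncurry V)) (hθ : Continuous (Function.uncurry θ))
    (h : ∀ l, Adm q θ₁ T (V l) (θ l)) :
    ∃ P : Λ → C(unitInterval, ℂ) × C(unitInterval, ℂ),
      (∀ l, IsElt q θ₁ T (V l) (θ l) (P l)) ∧ Continuous P := by
  choose α hlip hα using fun l => exists_reparam (h l).T0 (h l).Vc (h l).V0 (h l).speed
  refine ⟨fun l => mk (V l T) (α l), fun l => ⟨α l, (h l).good (hlip l) (hα l), hα l, rfl⟩, ?_⟩
  rw [continuous_iff_continuousAt]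
  intro l₀
  rw [ContinuousAt, Metric.tendsto_nhds]
  intro η hη
  obtain ⟨ε, hε, hεη⟩ : ∃ ε > 0, ε + |V l₀ T| * (ε + 2 * ε) < η := by
    have hc : Tendsto (fun ε : ℝ => ε + |V l₀ T| * (ε + 2 * ε)) (𝓝 0)
        (𝓝 (0 + |V l₀ T| * (0 + 2 * 0))) := by
      apply Continuous.tendsto
      fun_prop
    simp only [mul_zero, add_zero] at hc
    have h1 := (hc.eventually (gt_mem_nhds hη)).filter_mono (nhdsWithin_le_nhds (s := Ioi 0))
    have h3 : ∀ᶠ ε in 𝓝[>] (0 : ℝ), 0 < ε := self_mem_nhdsWithin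
    obtain ⟨ε, h4, h5⟩ := (h1.and h3).exists
    exact ⟨ε, h5, h4⟩
  filter_upwards [unif_close hV T l₀ hε, unif_close hθ T l₀ hε] with l hl1 hl2
  have hclose : ∀ τ ∈ Icc (0 : ℝ) 1, |(α l) (V l T * τ) - (α l₀) (V l₀ T * τ)| ≤ ε + 2 * ε :=
    fun τ hτ => rep_close (h l).T0 (h l).Vc (h l).V0 (h l).pos.le (hα l) (hα l₀) (hlip l₀)
      hl2 hl1 hτ
  have hd := mk_close hclose (hl1 T ⟨(h l).T0, le_rfl⟩)
  exact hd.trans_lt hεη

/-- the curve with given data is unique -/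
theorem IsElt.unique {q : ℂ} {θ₁ T : ℝ} {V θ : ℝ → ℝ}
    {p p' : C(unitInterval, ℂ) × C(unitInterval, ℂ)} (h : Adm q θ₁ T V θ)
    (hp : IsElt q θ₁ T V θ p) (hp' : IsElt q θ₁ T V θ p') : p = p' := by
  obtain ⟨α, hg, hα, rfl⟩ := hp
  obtain ⟨α', hg', hα', rfl⟩ := hp'
  have h : ∀ τ ∈ Icc (0 : ℝ) 1, |α (V T * τ) - α' (V T * τ)| ≤ 0 + 2 * 0 :=
    fun τ hτ => rep_close h.T0 h.Vc h.V0 h.pos.le hα hα' hg'.lip (by simp) (by simp) hτ
  have hd := mk_close (δ := 0) h (by simp)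
  simp only [mul_zero, add_zero] at hd
  exact dist_le_zero.1 hd

/-- `p` and `p'` lie in a common preconnected subset of the space of curves -/
def Conn (q : ℂ) (θ₁ : ℝ) (p p' : C(unitInterval, ℂ) × C(unitInterval, ℂ)) : Prop :=
  ∃ S ⊆ curveSpace q θ₁, p ∈ S ∧ p' ∈ S ∧ IsPreconnected S

theorem Conn.symm {q : ℂ} {θ₁ : ℝ} {p p' : C(unitInterval, ℂ) × C(unitInterval, ℂ)}
    (h : Conn q θ₁ p p') : Conn q θ₁ p' p := by
  obtain ⟨S, h1, h2, h3, h4⟩ := h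
  exact ⟨S, h1, h3, h2, h4⟩

theorem Conn.trans {q : ℂ} {θ₁ : ℝ} {p p' p'' : C(unitInterval, ℂ) × C(unitInterval, ℂ)}
    (h : Conn q θ₁ p p') (h' : Conn q θ₁ p' p'') : Conn q θ₁ p p'' := by
  obtain ⟨S, h1, h2, h3, h4⟩ := h
  obtain ⟨S', h1', h2', h3', h4'⟩ := h'
  exact ⟨S ∪ S', union_subset h1 h1', Or.inl h2, Or.inr h3', h4.union p' h3 h2' h4'⟩

/-- The members of a connected family of admissible data are connected to each other. -/
theorem conn_of_space {Λ : Type*} [TopologicalSpace Λ] [PreconnectedSpace Λ]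
    {q : ℂ} {θ₁ T : ℝ} {V θ : Λ → ℝ → ℝ}
    (hV : Continuous (Function.uncurry V)) (hθ : Continuous (Function.uncurry θ))
    (h : ∀ l, Adm q θ₁ T (V l) (θ l)) {l l' : Λ}
    {p p' : C(unitInterval, ℂ) × C(unitInterval, ℂ)}
    (hp : IsElt q θ₁ T (V l) (θ l) p) (hp' : IsElt q θ₁ T (V l') (θ l') p') :
    Conn q θ₁ p p' := by
  obtain ⟨P, hP, hPc⟩ := exists_family hV hθ h
  refine ⟨range P, ?_, ⟨l, ?_⟩, ⟨l', ?_⟩, isPreconnected_range hPc⟩
  · rintro _ ⟨l, rfl⟩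
    exact (hP l).mem
  · exact (hP l).unique (h l) hp
  · exact (hP l').unique (h l') hp'

/-- The members of a connected family of admissible data are connected to each other. -/
theorem conn_of_family {Λ : Type*} [TopologicalSpace Λ] {q : ℂ} {θ₁ T : ℝ} {V θ : Λ → ℝ → ℝ}
    {s : Set Λ} (hs : IsPreconnected s)
    (hV : Continuous (Function.uncurry V)) (hθ : Continuous (Function.uncurry θ))
    (h : ∀ l ∈ s, Adm q θ₁ T (V l) (θ l)) {l l' : Λ} (hl : l ∈ s) (hl' : l' ∈ s)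
    {p p' : C(unitInterval, ℂ) × C(unitInterval, ℂ)}
    (hp : IsElt q θ₁ T (V l) (θ l) p) (hp' : IsElt q θ₁ T (V l') (θ l') p') :
    Conn q θ₁ p p' := by
  have hpc : PreconnectedSpace s := Subtype.preconnectedSpace hs
  exact conn_of_space (Λ := s) (V := fun l => V l) (θ := fun l => θ l)
    (hV.comp ((continuous_subtype_val.comp continuous_fst).prodMk continuous_snd))
    (hθ.comp ((continuous_subtype_val.comp continuous_fst).prodMk continuous_snd))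
    (fun l => h l l.2) (l := ⟨l, hl⟩) (l' := ⟨l', hl'⟩) hp hp'

end Pool.Agent.Helper70.Dubins
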