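import Pool.Agent.Helper70.Dubins.Realize

set_option autoImplicit false

open Set Filter Topology MeasureTheory

namespace Pool.Agent.Helper70.Dubins

/-- clamp to `[0, 1]` -/
noncomputable def cl (x : ℝ) : ℝ := max 0 (min x 1)

theorem cl_mem (x : ℝ) : cl x ∈ Icc (0 : ℝ) 1 :=
  ⟨le_max_left _ _, max_le zero_le_one (min_le_right _ _)⟩

theorem cl_of_le {x : ℝ} (h : x ≤ 0) : cl x = 0 :=
  max_eq_left ((min_le_left _ _).trans h)

theorem cl_of_ge {x : ℝ} (h : 1 ≤ x) : cl x = 1 := by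
  unfold cl
  rw [min_eq_right h, max_eq_right zero_le_one]

theorem cl_of_mem {x : ℝ} (h : x ∈ Icc (0 : ℝ) 1) : cl x = x := by
  unfold cl
  rw [min_eq_left h.2, max_eq_right h.1]

theorem cl_mono : Monotone cl := fun _ _ h =>
  max_le_max le_rfl (min_le_min h le_rfl)

theorem continuous_cl : Continuous cl := by
  unfold cl
  fun_prop

/-- sum of slot functions: each `H k` vanishing at `0` -/
noncomputable def slotSum (N : ℕ) (H : ℕ → ℝ → ℝ) (s : ℝ) : ℝ :=
  ∑ k ∈ Finset.range N, H k (cl (s - k))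

theorem slotSum_ge (N : ℕ) (H : ℕ → ℝ → ℝ) {s : ℝ} (hs : (N : ℝ) ≤ s) :
    slotSum N H s = ∑ k ∈ Finset.range N, H k 1 := by
  unfold slotSum
  apply Finset.sum_congr rfl
  intro k hk
  rw [Finset.mem_range] at hk
  have : (k : ℝ) + 1 ≤ N := by exact_mod_cast hk
  rw [cl_of_ge (by linarith)]

theorem slotSum_at (N : ℕ) (H : ℕ → ℝ → ℝ) (h0 : ∀ k < N, H k 0 = 0) {k : ℕ} (hk : k < N)
    {y : ℝ} (hy : y ∈ Icc (0 : ℝ) 1) :
    slotSum N H (k + y) = (∑ j ∈ Finset.range k, H j 1) + H k y := by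
  induction N with
  | zero => omega
  | succ n ih =>
    have e : slotSum (n + 1) H (k + y) = slotSum n H (k + y) + H n (cl (k + y - n)) := by
      unfold slotSum
      rw [Finset.sum_range_succ]
    rw [e]
    rcases Nat.lt_or_ge k n with hkn | hkn
    · rw [ih (fun j hj => h0 j (by omega)) hkn]
      have h1 : (k : ℝ) + 1 ≤ n := by exact_mod_cast hkn
      rw [cl_of_le (by linarith [hy.2]), h0 n (by omega), add_zero]
    · have hkn' : k = n := by omega
      subst hkn'
      rw [slotSum_ge k H (by linarith [hy.1])]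
      have : (k : ℝ) + y - k = y := by ring
      rw [this, cl_of_mem hy]

theorem exists_slot {N : ℕ} {s : ℝ} (hs : s ∈ Icc (0 : ℝ) N) (hN : 0 < N) :
    ∃ k < N, ∃ y ∈ Icc (0 : ℝ) 1, s = k + y := by
  rcases hs.2.eq_or_lt with h | h
  · refine ⟨N - 1, by omega, 1, ⟨zero_le_one, le_rfl⟩, ?_⟩
    rw [h]
    have : ((N - 1 : ℕ) : ℝ) + 1 = N := by
      rw [Nat.cast_sub hN]
      simp
    exact this.symm
  · refine ⟨⌊s⌋₊, (Nat.floor_lt hs.1).2 h, s - ⌊s⌋₊, ⟨?_, ?_⟩, by ring⟩
    · have := Nat.floor_le hs.1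
      linarith
    · have := Nat.lt_floor_add_one s
      linarith

/-- slot data -/
structure Slot (q : ℂ) (θ₁ : ℝ) (N : ℕ) (c : ℕ → ℝ) (G : ℕ → ℝ → ℝ) : Prop where
  lip : ∀ k < N, ∀ y ∈ Icc (0 : ℝ) 1, ∀ z ∈ Icc (0 : ℝ) 1, |G k y - G k z| ≤ c k * |y - z|
  chain : ∀ k < N, G k 1 = G (k + 1) 0
  start : G 0 0 = 0
  stop : G N 0 = θ₁
  pos : 0 < ∑ k ∈ Finset.range N, c k
  disp : ∑ k ∈ Finset.range N, (c k : ℂ) * ∫ y in (0 : ℝ)..1, tang (G k) y = q

/-- the clock of slot data -/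
noncomputable def slotV (N : ℕ) (c : ℕ → ℝ) : ℝ → ℝ := slotSum N fun k y => c k * y

/-- the angle of slot data -/
noncomputable def slotθ (N : ℕ) (G : ℕ → ℝ → ℝ) : ℝ → ℝ := slotSum N fun k y => G k y - G k 0

theorem slotV_at {N : ℕ} (c : ℕ → ℝ) {k : ℕ} (hk : k < N)
    {y : ℝ} (hy : y ∈ Icc (0 : ℝ) 1) :
    slotV N c (k + y) = (∑ j ∈ Finset.range k, c j) + c k * y := by
  unfold slotV
  rw [slotSum_at N _ (by simp) hk hy]
  simp

theorem slotV_N (N : ℕ) (c : ℕ → ℝ) : slotV N c N = ∑ j ∈ Finset.range N, c j := by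
  unfold slotV
  rw [slotSum_ge N _ le_rfl]
  simp

theorem slotθ_at {N : ℕ} {G : ℕ → ℝ → ℝ} (hc : ∀ k < N, G k 1 = G (k + 1) 0)
    (h0 : G 0 0 = 0) {k : ℕ} (hk : k < N) {y : ℝ} (hy : y ∈ Icc (0 : ℝ) 1) :
    slotθ N G (k + y) = G k y := by
  unfold slotθ
  rw [slotSum_at N _ (by simp) hk hy]
  have : ∑ j ∈ Finset.range k, (G j 1 - G j 0) = G k 0 - G 0 0 := by
    rw [← Finset.sum_range_sub (fun j => G j 0) k]
    apply Finset.sum_congr rfl
    intro j hj
    rw [Finset.mem_range] at hj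
    rw [hc j (by omega)]
  rw [this, h0]
  ring

theorem slotθ_N {N : ℕ} {G : ℕ → ℝ → ℝ} (hc : ∀ k < N, G k 1 = G (k + 1) 0)
    (h0 : G 0 0 = 0) : slotθ N G N = G N 0 := by
  unfold slotθ
  rw [slotSum_ge N _ le_rfl]
  have : ∑ j ∈ Finset.range N, (G j 1 - G j 0) = G N 0 - G 0 0 := by
    rw [← Finset.sum_range_sub (fun j => G j 0) N]
    apply Finset.sum_congr rfl
    intro j hj
    rw [Finset.mem_range] at hj
    rw [hc j (by omega)]
  rw [this, h0]
  ring

theorem Slot.adm {q : ℂ} {θ₁ : ℝ} {N : ℕ} {c : ℕ → ℝ} {G : ℕ → ℝ → ℝ} (h : Slot q θ₁ N c G) :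
    Adm q θ₁ N (slotV N c) (slotθ N G) := by
  refine ⟨Nat.cast_nonneg _, ?_, ?_, ?_, ?_, ?_, ?_, ?_⟩
  · unfold slotV slotSum
    apply continuous_finsetSum
    intro k _
    have := continuous_cl
    fun_prop
  · unfold slotV slotSum
    apply Finset.sum_eq_zero
    intro k _
    rw [cl_of_le (by simp)]
    simp
  · intro s _ t _ hst
    unfold slotV slotθ slotSum
    rw [← Finset.sum_sub_distrib, ← Finset.sum_sub_distrib]
    refine (Finset.abs_sum_le_sum_abs _ _).trans ?_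
    apply Finset.sum_le_sum
    intro k hk
    have h1 := h.lip k (Finset.mem_range.1 hk) _ (cl_mem (t - k)) _ (cl_mem (s - k))
    rw [abs_of_nonneg (sub_nonneg.2 (cl_mono (sub_le_sub_right hst _)))] at h1
    have e : G k (cl (t - k)) - G k 0 - (G k (cl (s - k)) - G k 0) =
        G k (cl (t - k)) - G k (cl (s - k)) := by ring
    rw [e]
    linarith
  · unfold slotθ slotSum
    apply Finset.sum_eq_zero
    intro k _
    rw [cl_of_le (by simp)]
    simp
  · rw [slotθ_N h.chain h.start, h.stop]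
  · rw [slotV_N]
    exact h.pos
  · intro α hα
    rw [slotV_N]
    have key : ∀ n ≤ N, ∫ s in (0 : ℝ)..(∑ k ∈ Finset.range n, c k), tang α s =
        ∑ k ∈ Finset.range n, (c k : ℂ) * ∫ y in (0 : ℝ)..1, tang (G k) y := by
      intro n hn
      induction n with
      | zero => simp
      | succ n ih =>
        rw [Finset.sum_range_succ (fun k => (c k : ℂ) * ∫ y in (0 : ℝ)..1, tang (G k) y),
          ← ih (by omega), Finset.sum_range_succ]
        have hi : ∀ a b, IntervalIntegrable (tang α) volume a b := fun a b =>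
          (continuous_tang α.continuous).intervalIntegrable a b
        rw [← intervalIntegral.integral_add_adjacent_intervals (hi 0 _) (hi _ _)]
        congr 1
        have h1 := intervalIntegral.smul_integral_comp_add_mul (a := 0) (b := 1) (tang α) (c n)
          (∑ k ∈ Finset.range n, c k)
        rw [mul_zero, mul_one, add_zero] at h1
        rw [← h1, Complex.real_smul]
        congr 1
        apply intervalIntegral.integral_congr
        intro y hy
        rw [uIcc_of_le zero_le_one] at hy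
        have hn' : n < N := by omega
        have hmem : (n : ℝ) + y ∈ Icc (0 : ℝ) N := by
          constructor
          · have := hy.1
            positivity
          · have : (n : ℝ) + 1 ≤ N := by exact_mod_cast hn'
            linarith [hy.2]
        have h2 := hα _ hmem
        rw [slotV_at c hn' hy, slotθ_at h.chain h.start hn' hy] at h2
        simp only [tang]
        rw [h2]
    rw [key N le_rfl, h.disp]

theorem continuous_slotV {Λ : Type*} [TopologicalSpace Λ] {N : ℕ} {c : Λ → ℕ → ℝ}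
    (h : ∀ k < N, Continuous fun l => c l k) :
    Continuous (Function.uncurry fun l => slotV N (c l)) := by
  unfold slotV slotSum Function.uncurry
  simp only
  apply continuous_finsetSum
  intro k hk
  have h1 := h k (Finset.mem_range.1 hk)
  exact (h1.comp continuous_fst).mul (continuous_cl.comp (continuous_snd.sub continuous_const))

theorem continuous_slotθ {Λ : Type*} [TopologicalSpace Λ] {N : ℕ} {G : Λ → ℕ → ℝ → ℝ}
    (h : ∀ k < N, Continuous fun z : Λ × ℝ => G z.1 k z.2) :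
    Continuous (Function.uncurry fun l => slotθ N (G l)) := by
  unfold slotθ slotSum Function.uncurry
  simp only
  apply continuous_finsetSum
  intro k hk
  have h1 := h k (Finset.mem_range.1 hk)
  refine Continuous.sub ?_ ?_
  · exact h1.comp (continuous_fst.prodMk
      (continuous_cl.comp (continuous_snd.sub continuous_const)))
  · exact h1.comp (continuous_fst.prodMk continuous_const)

/-- `p` is the curve with the given slot data -/
def SElt (q : ℂ) (θ₁ : ℝ) (N : ℕ) (c : ℕ → ℝ) (G : ℕ → ℝ → ℝ)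
    (p : C(unitInterval, ℂ) × C(unitInterval, ℂ)) : Prop :=
  IsElt q θ₁ N (slotV N c) (slotθ N G) p

theorem selt_of_good {q : ℂ} {θ₁ L : ℝ} {N : ℕ} {c : ℕ → ℝ} {G : ℕ → ℝ → ℝ} {α : C(ℝ, ℝ)}
    (hN : 0 < N)
    (hg : Good q θ₁ L α) (hL : L = ∑ k ∈ Finset.range N, c k) (h0 : G 0 0 = 0)
    (hc : ∀ k < N, G k 1 = G (k + 1) 0)
    (hα : ∀ k < N, ∀ y ∈ Icc (0 : ℝ) 1, α ((∑ j ∈ Finset.range k, c j) + c k * y) = G k y) :
    SElt q θ₁ N c G (mk L α) := by
  have e : slotV N c N = L := by rw [slotV_N, hL]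
  refine ⟨α, ?_, ?_, ?_⟩
  · rw [e]
    exact hg
  · intro t ht
    obtain ⟨k, hk, y, hy, rfl⟩ := exists_slot ht hN
    rw [slotV_at c hk hy, slotθ_at hc h0 hk hy, hα k hk y hy]
  · rw [e]

/-- connected families of slot data -/
theorem conn_of_slots {Λ : Type*} [TopologicalSpace Λ] {q : ℂ} {θ₁ : ℝ} {N : ℕ}
    {c : Λ → ℕ → ℝ} {G : Λ → ℕ → ℝ → ℝ}
    {s : Set Λ} (hs : IsPreconnected s)
    (hc : ∀ k < N, Continuous fun l => c l k)
    (hG : ∀ k < N, Continuous fun z : Λ × ℝ => G z.1 k z.2)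
    (h : ∀ l ∈ s, Slot q θ₁ N (c l) (G l)) {l l' : Λ} (hl : l ∈ s) (hl' : l' ∈ s)
    {p p' : C(unitInterval, ℂ) × C(unitInterval, ℂ)}
    (hp : SElt q θ₁ N (c l) (G l) p) (hp' : SElt q θ₁ N (c l') (G l') p') :
    Conn q θ₁ p p' :=
  conn_of_family hs (continuous_slotV hc) (continuous_slotθ hG) (fun l hl => (h l hl).adm)
    hl hl' hp hp'

end Pool.Agent.Helper70.Dubins
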