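import Pool.Agent.Helper70.Dubins.Comp

set_option autoImplicit false

open Set Filter Topology MeasureTheory

namespace Pool.Agent.Helper70.Dubins

/-- The unit tangent with angle function `θ`. -/
noncomputable def tang (θ : ℝ → ℝ) (s : ℝ) : ℂ := Complex.exp (θ s * Complex.I)

theorem continuous_tang {θ : ℝ → ℝ} (h : Continuous θ) : Continuous (tang θ) := by
  unfold tang
  fun_prop

theorem norm_tang (θ : ℝ → ℝ) (s : ℝ) : ‖tang θ s‖ = 1 := Complex.norm_exp_ofReal_mul_I _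

/-- internal curve data: an angle function defined on the whole line -/
structure Good (q : ℂ) (θ₁ L : ℝ) (θ : C(ℝ, ℝ)) : Prop where
  pos : 0 < L
  lip : ∀ s t, |θ s - θ t| ≤ |s - t|
  zero : θ 0 = 0
  endp : θ L = θ₁
  disp : ∫ s in (0 : ℝ)..L, tang θ s = q

/-- the element of the function space given by the data `(L, θ)` -/
noncomputable def mk (L : ℝ) (θ : C(ℝ, ℝ)) : C(unitInterval, ℂ) × C(unitInterval, ℂ) :=
  (⟨fun t => ∫ s in (0 : ℝ)..(L * t), tang θ s, by
      have h : Continuous (tang θ) := continuous_tang θ.continuous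
      exact (intervalIntegral.continuous_primitive (fun _ _ => h.intervalIntegrable _ _) 0).comp
        (by fun_prop)⟩,
   ⟨fun t => L * tang θ (L * t), by
      have h : Continuous (tang θ) := continuous_tang θ.continuous
      fun_prop⟩)

theorem good_of_isDubins {q : ℂ} {θ₁ L : ℝ} {γ : ℝ → ℂ} {θ : ℝ → ℝ} (h : IsDubins q θ₁ L γ θ) :
    ∃ θ' : C(ℝ, ℝ), Good q θ₁ L θ' ∧ (∀ s ∈ Icc (0 : ℝ) L, θ' s = θ s) ∧
      ∀ s ∈ Icc (0 : ℝ) L, γ s = ∫ x in (0 : ℝ)..s, tang θ' x := by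
  have hlip := lip_of_tangent h.angle_continuous h.tangent_lipschitz
  let c : ℝ → ℝ := fun s => max 0 (min s L)
  have hc : ∀ s, c s ∈ Icc (0 : ℝ) L := fun s =>
    ⟨le_max_left _ _, max_le h.len_pos.le (min_le_right _ _)⟩
  have hcid : ∀ s ∈ Icc (0 : ℝ) L, c s = s := by
    intro s hs
    simp only [c]
    rw [min_eq_left hs.2, max_eq_right hs.1]
  have hcc : Continuous c := by fun_prop
  let θ' : C(ℝ, ℝ) := ⟨fun s => θ (c s), h.angle_continuous.comp_continuous hcc hc⟩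
  have hθ' : ∀ s ∈ Icc (0 : ℝ) L, θ' s = θ s := fun s hs => by
    show θ (c s) = θ s
    rw [hcid s hs]
  have hγ : ∀ s ∈ Icc (0 : ℝ) L, γ s = ∫ x in (0 : ℝ)..s, tang θ' x := by
    intro s hs
    have hsub : Icc 0 s ⊆ Icc 0 L := Icc_subset_Icc le_rfl hs.2
    have h1 := intervalIntegral.integral_eq_sub_of_hasDeriv_right_of_le hs.1 (f := γ)
      (f' := tang θ') ?_ ?_ ((continuous_tang θ'.continuous).intervalIntegrable _ _)
    · rw [h1, h.start_point, sub_zero]
    · intro x hx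
      exact ((h.hasDeriv x (hsub hx)).continuousWithinAt).mono hsub
    · intro x hx
      have hxL : x ∈ Icc (0 : ℝ) L := hsub ⟨hx.1.le, hx.2.le⟩
      have hd := h.hasDeriv x hxL
      have hd' : HasDerivAt γ (Complex.exp (θ x * Complex.I)) x :=
        hd.hasDerivAt (Icc_mem_nhds hx.1 (hx.2.trans_le hs.2))
      have e : tang θ' x = Complex.exp (θ x * Complex.I) := by
        unfold tang
        rw [hθ' x hxL]
      rw [e]
      exact hd'.hasDerivWithinAt
  refine ⟨θ', ⟨h.len_pos, ?_, ?_, ?_, ?_⟩, hθ', hγ⟩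
  · intro s t
    refine (hlip (c s) (hc s) (c t) (hc t)).trans ?_
    simp only [c]
    rw [max_comm 0, max_comm 0]
    refine (abs_max_sub_max_le_abs _ _ _).trans ?_
    refine (abs_min_sub_min_le_max _ _ _ _).trans ?_
    simp
  · rw [hθ' 0 ⟨le_rfl, h.len_pos.le⟩, h.start_angle]
  · rw [hθ' L ⟨h.len_pos.le, le_rfl⟩, h.end_angle]
  · rw [← hγ L ⟨h.len_pos.le, le_rfl⟩, h.end_point]

theorem isDubins_of_good {q : ℂ} {θ₁ L : ℝ} {θ : C(ℝ, ℝ)} (h : Good q θ₁ L θ) :
    IsDubins q θ₁ L (fun s => ∫ x in (0 : ℝ)..s, tang θ x) θ := by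
  have hc : Continuous (tang θ) := continuous_tang θ.continuous
  refine ⟨h.pos, ?_, ?_, θ.continuous.continuousOn, by simp, h.zero, h.disp, h.endp⟩
  · intro s _
    apply HasDerivAt.hasDerivWithinAt
    exact intervalIntegral.integral_hasDerivAt_right (hc.intervalIntegrable _ _)
      hc.stronglyMeasurable.stronglyMeasurableAtFilter hc.continuousAt
  · apply LipschitzOnWith.of_dist_le_mul
    intro s _ t _
    rw [dist_eq_norm, Real.dist_eq]
    simp only [NNReal.coe_one, one_mul]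
    exact (norm_exp_sub_exp_le _ _).trans (h.lip s t)

theorem mem_curveSpace_iff {q : ℂ} {θ₁ : ℝ} {p : C(unitInterval, ℂ) × C(unitInterval, ℂ)} :
    p ∈ curveSpace q θ₁ ↔ ∃ L θ, Good q θ₁ L θ ∧ p = mk L θ := by
  constructor
  · rintro ⟨L, γ, θ, h, hp⟩
    obtain ⟨θ', hg, h1, h2⟩ := good_of_isDubins h
    refine ⟨L, θ', hg, ?_⟩
    have hmem : ∀ t : unitInterval, L * (t : ℝ) ∈ Icc (0 : ℝ) L := fun t =>
      ⟨mul_nonneg h.len_pos.le t.2.1, mul_le_of_le_one_right h.len_pos.le t.2.2⟩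
    apply Prod.ext
    · ext t
      rw [(hp t).1, h2 _ (hmem t)]
      rfl
    · ext t
      rw [(hp t).2]
      show _ = (L : ℂ) * tang θ' (L * t)
      unfold tang
      rw [h1 _ (hmem t)]
  · rintro ⟨L, θ, h, rfl⟩
    exact ⟨L, _, θ, isDubins_of_good h, fun t => ⟨rfl, rfl⟩⟩

end Pool.Agent.Helper70.Dubins
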